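import Mathlib
import Pool.Agent.H5.Core

/-!
# DerivativeFamily (MP_553913_nt): pointwise Gaussian approximation, variant with a
large imaginary part of the saddle parameter allowed
-/

set_option autoImplicit false

open Complex

namespace Pool.Agent.HD64

open Pool.Agent.H5 (norm_exp_sub_one_le' decay zet norm_zet zet_re zet_im norm_one_add_zet_sq
  XX zet_sq log_third poly_exp)

/-- the parameters at the saddle point -/
structure SPV (m : ℕ) (a : ℝ) (l : ℂ) : Prop where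
  hm : 1 ≤ m
  ha : 100 ≤ a
  hn : 100 ≤ ‖l‖
  him : |l.im| ≤ 1.6 / a * ‖l‖

namespace SPV

variable {m : ℕ} {a : ℝ} {l : ℂ}

lemma norm_pos (h : SPV m a l) : 0 < ‖l‖ := by have := h.hn; linarith

lemma mpos (h : SPV m a l) : (0 : ℝ) < m := by exact_mod_cast h.hm

lemma im_le (h : SPV m a l) : |l.im / ‖l‖| ≤ 1.6 / a := by
  have hn := h.norm_pos
  rw [abs_div, abs_of_pos hn, div_le_iff₀ hn]
  exact h.him

lemma im_le' (h : SPV m a l) : |l.im / ‖l‖| ≤ 1 / 50 := by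
  refine h.im_le.trans ?_
  have := h.ha
  rw [div_le_div_iff₀ (by linarith) (by norm_num)]
  linarith

end SPV

lemma one_add_zet_ge {m : ℕ} {a : ℝ} {l : ℂ} (h : SPV m a l) (z : ℝ) :
    (0.99 : ℝ) ≤ ‖1 + zet l z‖ := by
  have h1 := norm_one_add_zet_sq h.norm_pos z
  have h2 := h.im_le'
  set s := l.im / ‖l‖
  have h3 : s ^ 2 ≤ 1 / 2500 := by
    have := sq_abs s
    nlinarith [abs_nonneg s]
  have h4 : (0.99 : ℝ) ^ 2 ≤ ‖1 + zet l z‖ ^ 2 := by
    rw [h1]
    nlinarith [sq_nonneg (z - s)]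
  exact le_of_sq_le_sq h4 (norm_nonneg _)

lemma one_add_zet_ne {m : ℕ} {a : ℝ} {l : ℂ} (h : SPV m a l) (z : ℝ) : 1 + zet l z ≠ 0 := by
  have := one_add_zet_ge h z
  intro h0; rw [h0] at this; norm_num at this

lemma exp_XX {m : ℕ} {a : ℝ} {l : ℂ} (h : SPV m a l) (z : ℝ) (E : ℂ) :
    exp (XX m l z E) = exp (m * zet l z) * ((1 + zet l z) ^ (m + 1))⁻¹ * exp E := by
  unfold XX
  rw [Complex.exp_add, Complex.exp_sub]
  have : exp ((m + 1) * log (1 + zet l z)) = (1 + zet l z) ^ (m + 1) := by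
    have e : ((m : ℂ) + 1) * log (1 + zet l z) = ((m + 1 : ℕ) : ℂ) * log (1 + zet l z) := by
      push_cast; ring
    rw [e, Complex.exp_nat_mul, Complex.exp_log (one_add_zet_ne h z)]
  rw [this, div_eq_mul_inv]

/-- upper bound -/
lemma norm_exp_XX_le {m : ℕ} {a : ℝ} {l : ℂ} (h : SPV m a l) {z : ℝ} (hz : |z| ≤ 11 / 5) {E : ℂ}
    (hE : ‖E‖ ≤ 1.1 * |z| + 1.1 * (m * z ^ 2 / a)) :
    ‖exp (XX m l z E)‖ ≤ 13 * Real.exp (-(m * z ^ 2 / 20)) := by
  have hm := h.mpos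
  have ha := h.ha
  rw [Complex.norm_exp]
  have h1 : (XX m l z E).re ≤ m * (-(z * (l.im / ‖l‖)) - Real.log ‖1 + zet l z‖)
      - Real.log ‖1 + zet l z‖ + ‖E‖ := by
    unfold XX
    rw [Complex.add_re, Complex.sub_re]
    have e1 : ((m : ℂ) * zet l z).re = m * (-(z * (l.im / ‖l‖))) := by
      rw [← zet_re]
      have : ((m : ℕ) : ℂ) = ((m : ℝ) : ℂ) := by simp
      rw [this, Complex.re_ofReal_mul]
    have e2 : (((m : ℂ) + 1) * log (1 + zet l z)).re = (m + 1) * Real.log ‖1 + zet l z‖ := by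
      have : ((m : ℂ) + 1) = (((m : ℝ) + 1 : ℝ) : ℂ) := by push_cast; ring
      rw [this, Complex.re_ofReal_mul, Complex.log_re]
    rw [e1, e2]
    have := Complex.re_le_norm E
    linarith
  have h2 : -(z * (l.im / ‖l‖)) - Real.log ‖1 + zet l z‖ ≤ -(z ^ 2 / 16) := by
    have hd := decay hz h.im_le'
    rw [← norm_one_add_zet_sq h.norm_pos z, Real.log_pow] at hd
    push_cast at hd
    linarith
  have h3 : -Real.log ‖1 + zet l z‖ ≤ 0.011 := by
    have hg := one_add_zet_ge h z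
    have : Real.log 0.99 ≤ Real.log ‖1 + zet l z‖ := Real.log_le_log (by norm_num) hg
    have h4 := Real.one_sub_inv_le_log_of_pos (by norm_num : (0:ℝ) < 0.99)
    norm_num at h4 this ⊢
    linarith
  have h5 : m * z ^ 2 / a ≤ m * z ^ 2 / 100 := by
    apply div_le_div_of_nonneg_left (by positivity) (by norm_num) ha
  have h6 : (XX m l z E).re ≤ 2.5 + -(m * z ^ 2 / 20) := by
    have h7 : (m : ℝ) * (-(z * (l.im / ‖l‖)) - Real.log ‖1 + zet l z‖) ≤ m * (-(z ^ 2 / 16)) :=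
      mul_le_mul_of_nonneg_left h2 hm.le
    have h8 : 0 ≤ (m : ℝ) * z ^ 2 := by positivity
    linarith
  calc Real.exp ((XX m l z E).re) ≤ Real.exp (2.5 + -(m * z ^ 2 / 20)) := Real.exp_le_exp.2 h6
    _ = Real.exp 2.5 * Real.exp (-(m * z ^ 2 / 20)) := Real.exp_add _ _
    _ ≤ 13 * Real.exp (-(m * z ^ 2 / 20)) := by
        gcongr
        have h9 := Real.exp_one_lt_d9
        have : Real.exp 2.5 = Real.exp 1 * Real.exp 1 * Real.exp 0.5 := by
          rw [← Real.exp_add, ← Real.exp_add]; norm_num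
        have h10 : Real.exp 0.5 ^ 2 = Real.exp 1 := by
          rw [← Real.exp_nat_mul]; norm_num
        have h11 : Real.exp 0.5 ≤ 1.65 := by
          apply le_of_sq_le_sq _ (by norm_num)
          rw [h10]; norm_num; linarith
        rw [this]
        have h12 := Real.exp_pos 1
        nlinarith [Real.exp_pos 0.5]

lemma one_sub_u_sq {m : ℕ} {a : ℝ} {l : ℂ} (h : SPV m a l) : ‖1 - (l / ‖l‖) ^ 2‖ ≤ 3.2 / a := by
  have hn := h.norm_pos
  have hnc : ((‖l‖ : ℝ) : ℂ) ≠ 0 := by exact_mod_cast hn.ne'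
  have h1 : (1 : ℂ) - (l / ‖l‖) ^ 2 = l * (-(2 * I * (l.im : ℂ))) / ((‖l‖ : ℝ) : ℂ) ^ 2 := by
    have h2 : ((‖l‖ : ℝ) : ℂ) ^ 2 = l * (starRingEnd ℂ) l := by
      rw [Complex.mul_conj, Complex.normSq_eq_norm_sq]; push_cast; rfl
    have h3 : (starRingEnd ℂ) l = l - 2 * I * (l.im : ℂ) := by
      apply Complex.ext <;> simp; ring
    rw [div_pow]
    rw [eq_div_iff (pow_ne_zero 2 hnc), sub_mul, div_mul_cancel₀ _ (pow_ne_zero 2 hnc), one_mul]
    rw [h2, h3]; ring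
  rw [h1, norm_div, norm_mul, norm_neg, norm_mul, norm_mul, norm_pow, Complex.norm_real,
    Complex.norm_real, Complex.norm_I]
  have h5 : ‖l‖ * (‖(2:ℂ)‖ * 1 * ‖l.im‖) / ‖‖l‖‖ ^ 2 = 2 * (|l.im| / ‖l‖) := by
    rw [Real.norm_eq_abs, Real.norm_eq_abs, abs_of_pos hn]
    have : ‖(2:ℂ)‖ = 2 := by simp
    rw [this]
    field_simp
  rw [h5]
  have h6 := h.im_le
  rw [abs_div, abs_of_pos hn] at h6
  calc 2 * (|l.im| / ‖l‖) ≤ 2 * (1.6 / a) := by gcongr
    _ = 3.2 / a := by ring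

lemma delta_bound {m : ℕ} {a : ℝ} {l : ℂ} (h : SPV m a l) {z : ℝ} (hz : |z| ≤ 1 / 10) {E : ℂ}
    (hE : ‖E‖ ≤ 1.1 * |z| + 1.1 * (m * z ^ 2 / a)) :
    ‖XX m l z E + m * z ^ 2 / 2‖ ≤ m * z ^ 2 * (|z| + 2.7 / a) + 2.6 * |z| := by
  have hm := h.mpos
  have ha := h.ha
  have hmc : ‖((m : ℕ) : ℂ)‖ = m := by simp
  have hnz := norm_zet h.norm_pos z
  have hz' : ‖zet l z‖ ≤ 1 / 10 := by rw [hnz]; exact hz
  have e : XX m l z E + m * z ^ 2 / 2 = -(m * (log (1 + zet l z) - zet l z + zet l z ^ 2 / 2))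
      + m * ((z : ℂ) ^ 2 / 2) * (1 - (l / ‖l‖) ^ 2) - log (1 + zet l z) + E := by
    unfold XX
    rw [zet_sq]; ring
  rw [e]
  have h1 := log_third hz'
  have h2 := one_sub_u_sq h
  have h3 : ‖log (1 + zet l z)‖ ≤ 3 / 2 * |z| := by
    rw [← hnz]; exact norm_log_one_add_half_le_self (by linarith)
  have h4 : ‖-((m : ℂ) * (log (1 + zet l z) - zet l z + zet l z ^ 2 / 2))‖ ≤ m * (z ^ 2 * |z|) := by
    rw [norm_neg, norm_mul, hmc]
    gcongr
    rw [hnz] at h1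
    refine h1.trans (le_of_eq ?_)
    rw [← sq_abs z]; ring
  have h5 : ‖(m : ℂ) * ((z : ℂ) ^ 2 / 2) * (1 - (l / ‖l‖) ^ 2)‖ ≤ m * (z ^ 2 / 2) * (3.2 / a) := by
    rw [norm_mul, norm_mul, hmc]
    have : ‖(z : ℂ) ^ 2 / 2‖ = z ^ 2 / 2 := by
      rw [norm_div, norm_pow, Complex.norm_real, Real.norm_eq_abs, sq_abs]; simp
    rw [this]
    gcongr
  refine (norm_add_le _ _).trans ?_
  have h6 : ‖-((m : ℂ) * (log (1 + zet l z) - zet l z + zet l z ^ 2 / 2))
      + m * ((z : ℂ) ^ 2 / 2) * (1 - (l / ‖l‖) ^ 2) - log (1 + zet l z)‖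
      ≤ m * (z ^ 2 * |z|) + m * (z ^ 2 / 2) * (3.2 / a) + 3 / 2 * |z| := by
    refine (norm_sub_le _ _).trans (add_le_add ((norm_add_le _ _).trans (add_le_add h4 h5)) h3)
  have e3 : (m : ℝ) * z ^ 2 * (|z| + 2.7 / a) + 2.6 * |z| = (m * (z ^ 2 * |z|) + m * (z ^ 2 / 2) * (3.2 / a)
      + 3 / 2 * |z|) + (1.1 * |z| + 1.1 * (m * z ^ 2 / a)) := by ring
  rw [e3]
  exact add_le_add h6 hE

/-- main pointwise bound for small `z` -/
lemma pointwise_small {m : ℕ} {a : ℝ} {l : ℂ} (h : SPV m a l) {z : ℝ} (hz : |z| ≤ 1 / 10) {E : ℂ}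
    (hE : ‖E‖ ≤ 1.1 * |z| + 1.1 * (m * z ^ 2 / a)) :
    ‖exp (XX m l z E) - Real.exp (-(m * z ^ 2 / 2))‖
      ≤ (12 / a + 40 / Real.sqrt m) * Real.exp (-(m * z ^ 2 / 40)) := by
  have hm := h.mpos
  have ha := h.ha
  set T := (m : ℝ) * z ^ 2 with hT
  have hT0 : 0 ≤ T := by positivity
  set d := XX m l z E + m * z ^ 2 / 2 with hd
  have hdb := delta_bound h hz hE
  rw [← hd, ← hT] at hdb
  have e1 : exp (XX m l z E) = ((Real.exp (-(T / 2)) : ℝ) : ℂ) * exp d := by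
    rw [Complex.ofReal_exp, ← Complex.exp_add]
    congr 1
    rw [hd, hT]; push_cast; ring
  have e2 : exp (XX m l z E) - Real.exp (-(T / 2)) = ((Real.exp (-(T / 2)) : ℝ) : ℂ) * (exp d - 1) := by
    rw [e1]; ring
  rw [e2, norm_mul, Complex.norm_real, Real.norm_eq_abs, abs_of_pos (Real.exp_pos _)]
  have h1 := norm_exp_sub_one_le' d
  have hzn : 0 ≤ |z| := abs_nonneg z
  have hza : 2.7 / a ≤ 0.027 := by
    rw [div_le_iff₀ (by linarith)]; linarith
  have hd2 : ‖d‖ ≤ 0.127 * T + 0.26 := by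
    have : T * (|z| + 2.7 / a) ≤ T * (0.1 + 0.027) := by
      apply mul_le_mul_of_nonneg_left _ hT0
      linarith
    linarith
  have hsm : 0 < Real.sqrt m := Real.sqrt_pos.2 hm
  -- |z| = sqrt T / sqrt m
  have hzT : |z| * Real.sqrt m = Real.sqrt T := by
    rw [hT, Real.sqrt_mul hm.le, Real.sqrt_sq_eq_abs]; ring
  have hz1 : |z| = Real.sqrt T / Real.sqrt m := by
    rw [← hzT]; field_simp
  have hsT : Real.sqrt T ≤ (1 + T) / 2 := by
    nlinarith [Real.mul_self_sqrt hT0, sq_nonneg (Real.sqrt T - 1)]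
  have hd3 : ‖d‖ ≤ 2.7 * T / a + ((T + T ^ 2) / 2 + 1.3 * (1 + T)) / Real.sqrt m := by
    refine hdb.trans ?_
    rw [hz1]
    have h2 : T * (Real.sqrt T / Real.sqrt m + 2.7 / a) + 2.6 * (Real.sqrt T / Real.sqrt m)
        = 2.7 * T / a + (T * Real.sqrt T + 2.6 * Real.sqrt T) / Real.sqrt m := by ring
    rw [h2]
    have h3 : T * Real.sqrt T + 2.6 * Real.sqrt T ≤ (T + T ^ 2) / 2 + 1.3 * (1 + T) := by
      nlinarith
    have h4 := div_le_div_of_nonneg_right h3 hsm.le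
    linarith
  obtain ⟨p1, p2, p0⟩ := poly_exp hT0
  set X := Real.exp (T / 3) with hX
  have hd4 : ‖d‖ ≤ (8.1 / a + 16 / Real.sqrt m) * X := by
    refine hd3.trans ?_
    have h3 : 2.7 * T / a ≤ 8.1 / a * X := by
      rw [div_mul_eq_mul_div]
      apply div_le_div_of_nonneg_right _ (by linarith)
      linarith
    have h4 : ((T + T ^ 2) / 2 + 1.3 * (1 + T)) / Real.sqrt m ≤ 16 / Real.sqrt m * X := by
      rw [div_mul_eq_mul_div]
      apply div_le_div_of_nonneg_right _ hsm.le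
      linarith
    linarith
  have h5 : Real.exp ‖d‖ ≤ 1.36 * Real.exp (0.127 * T) := by
    calc Real.exp ‖d‖ ≤ Real.exp (0.26 + 0.127 * T) := Real.exp_le_exp.2 (by linarith)
      _ = Real.exp 0.26 * Real.exp (0.127 * T) := Real.exp_add _ _
      _ ≤ 1.36 * Real.exp (0.127 * T) := by
          gcongr
          have := Real.exp_bound_div_one_sub_of_interval (x := 0.26) (by norm_num) (by norm_num)
          norm_num at this ⊢
          linarith
  have h6 : Real.exp (-(T / 2)) * (X * (Real.exp (0.127 * T))) ≤ Real.exp (-(T / 40)) := by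
    rw [hX, ← Real.exp_add, ← Real.exp_add]
    apply Real.exp_le_exp.2
    linarith
  have hco : 0 ≤ 8.1 / a + 16 / Real.sqrt m := by positivity
  calc Real.exp (-(T / 2)) * ‖exp d - 1‖ ≤ Real.exp (-(T / 2)) * (‖d‖ * Real.exp ‖d‖) := by gcongr
    _ ≤ Real.exp (-(T / 2)) * (((8.1 / a + 16 / Real.sqrt m) * X) * (1.36 * Real.exp (0.127 * T))) := by
        gcongr
    _ = 1.36 * (8.1 / a + 16 / Real.sqrt m) * (Real.exp (-(T / 2)) * (X * (Real.exp (0.127 * T)))) := by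
        ring
    _ ≤ 1.36 * (8.1 / a + 16 / Real.sqrt m) * Real.exp (-(T / 40)) := by gcongr
    _ ≤ (12 / a + 40 / Real.sqrt m) * Real.exp (-(T / 40)) := by
        gcongr
        have : 0 < 1 / a := by positivity
        have h7 : 0 < 1 / Real.sqrt m := by positivity
        have e : 1.36 * (8.1 / a + 16 / Real.sqrt m) = 11.016 * (1 / a) + 21.76 * (1 / Real.sqrt m) := by
          ring
        have e' : 12 / a + 40 / Real.sqrt m = 12 * (1 / a) + 40 * (1 / Real.sqrt m) := by ring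
        rw [e, e']
        linarith

/-- pointwise bound with the factor `Lr` -/
lemma pointwise {m : ℕ} {a : ℝ} {l : ℂ} (h : SPV m a l) {z : ℝ} (hz : |z| ≤ 11 / 5) {E Lr : ℂ}
    (hE : ‖E‖ ≤ 1.1 * |z| + 1.1 * (m * z ^ 2 / a)) {B₀ B₁ : ℝ} (hB₀ : 1 ≤ B₀) (hB₁ : 0 ≤ B₁)
    (hL0 : ‖Lr‖ ≤ B₀) (hL1 : ‖Lr - 1‖ ≤ B₁ * |z|) :
    ‖exp (XX m l z E) * Lr - Real.exp (-(m * z ^ 2 / 2))‖
      ≤ 60000 * (B₀ + B₁) * (1 / a + 1 / Real.sqrt m) * Real.exp (-(m * z ^ 2 / 40)) := by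
  have hm := h.mpos
  have hm1 : (1 : ℝ) ≤ m := by exact_mod_cast h.hm
  have ha := h.ha
  have hsm : 0 < Real.sqrt m := Real.sqrt_pos.2 hm
  have hsm1 : Real.sqrt m ≤ m := by
    rw [Real.sqrt_le_left (by positivity)]
    nlinarith
  set T := (m : ℝ) * z ^ 2 with hT
  have hT0 : 0 ≤ T := by positivity
  have h1a : 0 < 1 / a := by positivity
  have h1m : 0 < 1 / Real.sqrt m := by positivity
  rcases le_or_gt |z| (1 / 10) with hz' | hz'
  · have h1 := pointwise_small h hz' hE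
    rw [← hT] at h1
    have e : exp (XX m l z E) * Lr - Real.exp (-(T / 2))
        = (exp (XX m l z E) - Real.exp (-(T / 2))) * Lr
          + ((Real.exp (-(T / 2)) : ℝ) : ℂ) * (Lr - 1) := by ring
    rw [e]
    refine (norm_add_le _ _).trans ?_
    rw [norm_mul, norm_mul, Complex.norm_real, Real.norm_eq_abs, abs_of_pos (Real.exp_pos _)]
    have hzT : |z| * Real.sqrt m = Real.sqrt T := by
      rw [hT, Real.sqrt_mul hm.le, Real.sqrt_sq_eq_abs]; ring
    have hz1 : |z| = Real.sqrt T / Real.sqrt m := by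
      rw [← hzT]; field_simp
    have hsT : Real.sqrt T ≤ 1 + T := by
      nlinarith [Real.mul_self_sqrt hT0, sq_nonneg (Real.sqrt T - 1)]
    obtain ⟨p1, -, p0⟩ := poly_exp hT0
    have h2 : Real.exp (-(T / 2)) * Real.sqrt T ≤ 4 * Real.exp (-(T / 40)) := by
      calc Real.exp (-(T / 2)) * Real.sqrt T ≤ Real.exp (-(T / 2)) * (4 * Real.exp (T / 3)) := by
            gcongr; linarith
        _ = 4 * Real.exp (-(T / 6)) := by
            have : -(T / 6) = -(T / 2) + T / 3 := by ring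
            rw [this, Real.exp_add]; ring
        _ ≤ 4 * Real.exp (-(T / 40)) := by
            gcongr
            linarith
    have h3 : Real.exp (-(T / 2)) * ‖Lr - 1‖ ≤ B₁ * (4 * (1 / Real.sqrt m)) * Real.exp (-(T / 40)) := by
      calc Real.exp (-(T / 2)) * ‖Lr - 1‖ ≤ Real.exp (-(T / 2)) * (B₁ * |z|) := by gcongr
        _ = B₁ * (1 / Real.sqrt m) * (Real.exp (-(T / 2)) * Real.sqrt T) := by rw [hz1]; ring
        _ ≤ B₁ * (1 / Real.sqrt m) * (4 * Real.exp (-(T / 40))) := by gcongr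
        _ = _ := by ring
    have h4 : ‖exp (XX m l z E) - Real.exp (-(T / 2))‖ * ‖Lr‖
        ≤ (12 / a + 40 / Real.sqrt m) * Real.exp (-(T / 40)) * B₀ := by
      gcongr
    have hexp := Real.exp_pos (-(T / 40))
    have h5 : (12 / a + 40 / Real.sqrt m) * B₀ + B₁ * (4 * (1 / Real.sqrt m))
        ≤ 60000 * (B₀ + B₁) * (1 / a + 1 / Real.sqrt m) := by
      have e' : 12 / a + 40 / Real.sqrt m = 12 * (1 / a) + 40 * (1 / Real.sqrt m) := by ring
      rw [e']
      have q1 : 0 ≤ B₀ * (1 / a) := by positivity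
      have q2 : 0 ≤ B₀ * (1 / Real.sqrt m) := by positivity
      have q3 : 0 ≤ B₁ * (1 / a) := by positivity
      have q4 : 0 ≤ B₁ * (1 / Real.sqrt m) := by positivity
      nlinarith
    calc _ ≤ (12 / a + 40 / Real.sqrt m) * Real.exp (-(T / 40)) * B₀
          + B₁ * (4 * (1 / Real.sqrt m)) * Real.exp (-(T / 40)) := add_le_add h4 h3
      _ = ((12 / a + 40 / Real.sqrt m) * B₀ + B₁ * (4 * (1 / Real.sqrt m))) * Real.exp (-(T / 40)) := by
          ring
      _ ≤ _ := mul_le_mul_of_nonneg_right h5 hexp.le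
  · have h1 := norm_exp_XX_le h hz hE
    rw [← hT] at h1
    have hT1 : m / 100 ≤ T := by
      have : (1 / 10) ^ 2 ≤ z ^ 2 := by
        rw [← sq_abs z]; gcongr
      rw [hT]; nlinarith
    have h2 : Real.exp (-(T / 20)) = Real.exp (-(T / 40)) * Real.exp (-(T / 40)) := by
      rw [← Real.exp_add]; ring_nf
    have h3 : Real.exp (-(T / 40)) ≤ 4000 * (1 / Real.sqrt m) := by
      have h4 : T / 40 ≤ Real.exp (T / 40) := by
        have := Real.add_one_le_exp (T / 40); linarith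
      have h5 : (m : ℝ) / 4000 ≤ Real.exp (T / 40) := by linarith
      rw [Real.exp_neg]
      calc (Real.exp (T / 40))⁻¹ ≤ ((m : ℝ) / 4000)⁻¹ := by
            apply inv_anti₀ (by positivity) h5
        _ = 4000 * (1 / (m : ℝ)) := by field_simp
        _ ≤ 4000 * (1 / Real.sqrt m) := by gcongr
    have h6 : Real.exp (-(T / 2)) ≤ Real.exp (-(T / 20)) := by
      apply Real.exp_le_exp.2; linarith
    have hexp := Real.exp_pos (-(T / 40))
    calc ‖exp (XX m l z E) * Lr - Real.exp (-(T / 2))‖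
        ≤ ‖exp (XX m l z E)‖ * ‖Lr‖ + Real.exp (-(T / 2)) := by
          refine (norm_sub_le _ _).trans ?_
          rw [norm_mul, Complex.norm_real, Real.norm_eq_abs, abs_of_pos (Real.exp_pos _)]
      _ ≤ 13 * Real.exp (-(T / 20)) * B₀ + Real.exp (-(T / 20)) := by gcongr
      _ = (13 * B₀ + 1) * (Real.exp (-(T / 40)) * Real.exp (-(T / 40))) := by rw [h2]; ring
      _ ≤ (13 * B₀ + 1) * (4000 * (1 / Real.sqrt m) * Real.exp (-(T / 40))) := by gcongr
      _ ≤ 60000 * (B₀ + B₁) * (1 / a + 1 / Real.sqrt m) * Real.exp (-(T / 40)) := by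
          rw [← mul_assoc]
          apply mul_le_mul_of_nonneg_right _ hexp.le
          have q1 : 0 ≤ B₀ * (1 / a) := by positivity
          have q2 : 1 / Real.sqrt m ≤ B₀ * (1 / Real.sqrt m) := by nlinarith
          have q3 : 0 ≤ B₁ * (1 / a) := by positivity
          have q4 : 0 ≤ B₁ * (1 / Real.sqrt m) := by positivity
          nlinarith

end Pool.Agent.HD64
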