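import Mathlib
import Pool.Agent.HD64.PW
import Pool.Agent.H5.CoreLemma
import Pool.Agent.H6.GoodBC

/-!
# DerivativeFamily (MP_553913_nt): data in a window, the saddle point
-/

set_option autoImplicit false

open Complex Filter Topology Set

namespace Pool.Agent.HD64

open Pool.Agent.H5 (rhoV norm_rhoV_le gamma_vert norm_psi_sub_log_le RR KK ker zz zet XX norm_zet
  ofReal_natCast' norm_m_div re_div_eq)
open Pool.Agent.H6 (Lt psi psi_lip abs_im_psi_le)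

/-- `L` is well-behaved in a window around height `y` -/
structure VData (M y θ W0 W1 W2 : ℝ) (Λ D1 : ℂ → ℂ) (w : ℂ) : Prop where
  hM : 1 ≤ M
  hθ0 : 0 < θ
  hθ1 : θ ≤ 1
  sign : w = 1 ∨ w = -1
  diff : Differentiable ℂ Λ
  fe : ∀ s, Λ (2 - s) = w * Λ s
  real : ∀ s, Λ ((starRingEnd ℂ) s) = (starRingEnd ℂ) (Λ s)
  vert : ∀ s : ℂ, 1 + θ ≤ s.re → |s.im - y| ≤ 2 → ∀ τ : ℝ, |s.im + τ - y| ≤ 2 →
    ∃ R : ℂ, ‖R‖ ≤ W2 * τ ^ 2 ∧ Lt M Λ (s + τ * I) = Lt M Λ s * exp (τ * I * D1 s + R)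
  D1_le : ∀ s : ℂ, 1 + θ ≤ s.re → |s.im - y| ≤ 2 → ‖D1 s‖ ≤ W1
  D1_lip : ∀ s s' : ℂ, 1 + θ ≤ s.re → |s.im - y| ≤ 2 → 1 + θ ≤ s'.re → |s'.im - y| ≤ 2 →
    ‖D1 s - D1 s'‖ ≤ W2 * ‖s - s'‖
  low : ∀ s : ℂ, 1 + θ ≤ s.re → |s.im - y| ≤ 2 → Real.exp (-W0) ≤ ‖Lt M Λ s‖
  up : ∀ s : ℂ, 1 ≤ s.re → |s.im - y| ≤ 2 → ‖Lt M Λ s‖ ≤ Real.exp W0
  hW0 : 0 ≤ W0
  hW2 : 0 ≤ W2

/-- the scale -/
structure Scale (M y θ W0 W1 W2 : ℝ) (m : ℕ) (ℓ R0 : ℝ) : Prop where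
  hℓ : ℓ = Real.log (M * (2 + |y|))
  hR0 : R0 * ℓ = m
  hR1 : R0 ≤ 0.6
  hθ : θ ≤ R0 / 4
  hℓ0 : 10 ^ 9 ≤ ℓ
  hW1 : W1 ≤ ℓ / 10 ^ 8
  hW2 : W2 * R0 ^ 2 ≤ m / 10 ^ 9
  hm : 10 ^ 16 ≤ (m : ℝ)
  hlog : Real.log ℓ ≤ m / 10
  hW0 : W0 ≤ m / 10

/-- a saddle point -/
structure SadV (M : ℝ) (m : ℕ) (ℓ : ℝ) (D1 : ℂ → ℂ) (s₀ l : ℂ) : Prop where
  near : ‖l - ℓ‖ ≤ ℓ / 50
  heq : l = Real.log M + psi (s₀ + m / l) + D1 (s₀ + m / l)

/-- the points considered -/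
structure PtV (y R0 : ℝ) (s₀ : ℂ) : Prop where
  im : s₀.im = y
  re1 : 1 - R0 / 2 ≤ s₀.re
  re2 : s₀.re ≤ 3 / 2

variable {M y θ W0 W1 W2 : ℝ} {Λ D1 : ℂ → ℂ} {w : ℂ} {m : ℕ} {ℓ R0 : ℝ} {s₀ l : ℂ}

namespace Scale

lemma ℓpos (S : Scale M y θ W0 W1 W2 m ℓ R0) : 0 < ℓ := by have := S.hℓ0; linarith

lemma mpos (S : Scale M y θ W0 W1 W2 m ℓ R0) : (0:ℝ) < m := by have := S.hm; linarith

lemma R0pos (S : Scale M y θ W0 W1 W2 m ℓ R0) : 0 < R0 := by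
  have h1 := S.hR0
  have h2 := S.mpos
  rw [← h1] at h2
  exact pos_of_mul_pos_left h2 S.ℓpos.le

lemma R0_eq (S : Scale M y θ W0 W1 W2 m ℓ R0) : R0 = m / ℓ := by
  rw [eq_div_iff S.ℓpos.ne']; exact S.hR0

lemma m_div (S : Scale M y θ W0 W1 W2 m ℓ R0) : (m:ℝ) / ℓ ^ 2 = R0 ^ 2 / m := by
  have h1 := S.ℓpos
  have h2 := S.mpos
  rw [S.R0_eq]; field_simp

end Scale

lemma norm_l_ge (hℓ : 0 < ℓ) (h : ‖l - ℓ‖ ≤ ℓ / 50) : 49 / 50 * ℓ ≤ ‖l‖ := by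
  have h1 : ‖(ℓ : ℂ)‖ ≤ ‖l‖ + ‖l - ℓ‖ := by
    have := norm_sub_le l (l - ℓ)
    simpa using this
  rw [Complex.norm_real, Real.norm_eq_abs, abs_of_pos hℓ] at h1
  linarith

lemma mdiv_near (S : Scale M y θ W0 W1 W2 m ℓ R0) (h : ‖l - ℓ‖ ≤ ℓ / 50) :
    ‖(m : ℂ) / l - R0‖ ≤ R0 / 49 := by
  have hℓ := S.ℓpos
  have hm := S.mpos
  have hn := norm_l_ge hℓ h
  have hn0 : 0 < ‖l‖ := by linarith
  have hl : l ≠ 0 := norm_pos_iff.1 hn0
  have hℓc : (ℓ : ℂ) ≠ 0 := by exact_mod_cast hℓ.ne'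
  have hR : (R0 : ℂ) = (m : ℂ) / ℓ := by
    rw [S.R0_eq]; push_cast; rfl
  have e : (m : ℂ) / l - R0 = -((m : ℂ) * (l - ℓ) / (l * ℓ)) := by
    rw [hR]; field_simp; ring
  rw [e, norm_neg, norm_div, norm_mul, norm_mul, Complex.norm_real, Real.norm_eq_abs,
    abs_of_pos hℓ, ofReal_natCast', Complex.norm_real, Real.norm_eq_abs, abs_of_pos hm]
  rw [S.R0_eq, div_div, div_le_div_iff₀ (by positivity) (by positivity)]
  calc m * ‖l - ℓ‖ * (ℓ * 49) ≤ m * (ℓ / 50) * (ℓ * 49) := by gcongr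
    _ = m * ((49 / 50 * ℓ) * ℓ) := by ring
    _ ≤ m * (‖l‖ * ℓ) := by gcongr

lemma mdiv_sub (S : Scale M y θ W0 W1 W2 m ℓ R0) {l l' : ℂ} (h : ‖l - ℓ‖ ≤ ℓ / 50)
    (h' : ‖l' - ℓ‖ ≤ ℓ / 50) : ‖(m : ℂ) / l - m / l'‖ ≤ 1.1 * (m / ℓ ^ 2) * ‖l - l'‖ := by
  have hℓ := S.ℓpos
  have hm := S.mpos
  have hn := norm_l_ge hℓ h
  have hn' := norm_l_ge hℓ h'
  have hn0 : 0 < ‖l‖ := by linarith
  have hn0' : 0 < ‖l'‖ := by linarith
  have hl : l ≠ 0 := norm_pos_iff.1 hn0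
  have hl' : l' ≠ 0 := norm_pos_iff.1 hn0'
  have e : (m : ℂ) / l - m / l' = -((m : ℂ) * (l - l') / (l * l')) := by
    field_simp; ring
  rw [e, norm_neg, norm_div, norm_mul, norm_mul, ofReal_natCast', Complex.norm_real,
    Real.norm_eq_abs, abs_of_pos hm, div_le_iff₀ (by positivity)]
  have h1 : (49 / 50 * ℓ) * (49 / 50 * ℓ) ≤ ‖l‖ * ‖l'‖ := by gcongr
  calc m * ‖l - l'‖ = 1 * (m * ‖l - l'‖) := by ring
    _ ≤ (1.1 * (49 / 50) * (49 / 50)) * (m * ‖l - l'‖) := by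
        gcongr; norm_num
    _ = 1.1 * (m / ℓ ^ 2) * ‖l - l'‖ * ((49 / 50 * ℓ) * (49 / 50 * ℓ)) := by field_simp
    _ ≤ 1.1 * (m / ℓ ^ 2) * ‖l - l'‖ * (‖l‖ * ‖l'‖) := by gcongr

/-- the region of the saddle point -/
lemma reg (S : Scale M y θ W0 W1 W2 m ℓ R0) (P : PtV y R0 s₀) {z : ℂ} (hz : ‖z - R0‖ ≤ R0 / 49) :
    1 + θ ≤ (s₀ + z).re ∧ (s₀ + z).re ≤ 9 / 4 ∧ |(s₀ + z).im - y| ≤ R0 / 49 ∧
      s₀.re + 48 / 49 * R0 ≤ (s₀ + z).re ∧ (s₀ + z).re ≤ s₀.re + 50 / 49 * R0 := by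
  have hR := S.R0pos
  have hR1 := S.hR1
  have hθ := S.hθ
  have h1 := abs_le.1 ((Complex.abs_re_le_norm (z - R0)).trans hz)
  have h2 := (Complex.abs_im_le_norm (z - R0)).trans hz
  rw [Complex.sub_re, Complex.ofReal_re] at h1
  rw [Complex.sub_im, Complex.ofReal_im, sub_zero] at h2
  have h3 := P.re1
  have h4 := P.re2
  rw [Complex.add_re, Complex.add_im, P.im]
  have e : y + z.im - y = z.im := by ring
  rw [e]
  refine ⟨by linarith, by linarith, h2, by linarith, by linarith⟩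

lemma reg_im (S : Scale M y θ W0 W1 W2 m ℓ R0) {s : ℂ} (h : |s.im - y| ≤ R0 / 49) :
    |s.im - y| ≤ 2 := by
  have := S.hR1
  linarith

lemma psi_near {y : ℝ} {s : ℂ} (h1 : 1 ≤ s.re) (h2 : s.re ≤ 3) (h3 : |s.im - y| ≤ 2) :
    ‖psi s - Real.log (2 + |y|)‖ ≤ 5 := by
  have hy := abs_nonneg y
  have hs1 : 1 ≤ ‖s‖ := h1.trans (Complex.re_le_norm s)
  have hne : s ≠ 0 := norm_pos_iff.1 (by linarith)
  have hup : ‖s‖ ≤ 5 * (2 + |y|) := by
    have e1 := Complex.norm_le_abs_re_add_abs_im s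
    rw [abs_of_nonneg (by linarith)] at e1
    have e2 : |s.im| ≤ |s.im - y| + |y| := by
      have := abs_add_le (s.im - y) y
      rwa [sub_add_cancel] at this
    linarith
  have hlow : 2 + |y| ≤ 5 * ‖s‖ := by
    have e1 := Complex.abs_im_le_norm s
    have e2 : |y| ≤ |s.im - y| + |s.im| := by
      have := abs_sub s.im (s.im - y)
      rw [sub_sub_cancel] at this
      linarith
    linarith
  have hlog5 : Real.log 5 ≤ 2 := by
    rw [Real.log_le_iff_le_exp (by norm_num)]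
    have e1 := Real.exp_one_gt_d9
    have e2 : Real.exp 2 = Real.exp 1 * Real.exp 1 := by rw [← Real.exp_add]; norm_num
    rw [e2]; nlinarith
  have hb1 : Real.log ‖s‖ ≤ Real.log (2 + |y|) + 2 := by
    have := Real.log_le_log (by linarith) hup
    rw [Real.log_mul (by norm_num) (by linarith)] at this
    linarith
  have hb2 : Real.log (2 + |y|) ≤ Real.log ‖s‖ + 2 := by
    have := Real.log_le_log (by linarith) hlow
    rw [Real.log_mul (by norm_num) (by linarith)] at this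
    linarith
  have e0 : psi s - Real.log (2 + |y|) = (psi s - log s) + (((Real.log ‖s‖ - Real.log (2 + |y|) : ℝ) : ℂ)
      + ((arg s : ℝ) : ℂ) * I) := by
    have : log s = (Real.log ‖s‖ : ℝ) + (arg s : ℝ) * I := by
      rw [Complex.log]
    rw [this]; push_cast; ring
  have h4 := norm_psi_sub_log_le h1
  have h5 : 1 / s.re ≤ 1 := by rw [div_le_one (by linarith)]; exact h1
  have h6 : |arg s| ≤ Real.pi / 2 := Complex.abs_arg_le_pi_div_two_iff.2 (by linarith)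
  have hpi := Real.pi_lt_d2
  have h7 : ‖((arg s : ℝ) : ℂ) * I‖ ≤ 1.6 := by
    rw [norm_mul, Complex.norm_I, Complex.norm_real, Real.norm_eq_abs, mul_one]
    linarith
  have h8 : ‖((Real.log ‖s‖ - Real.log (2 + |y|) : ℝ) : ℂ)‖ ≤ 2 := by
    rw [Complex.norm_real, Real.norm_eq_abs, abs_le]
    constructor <;> linarith
  rw [e0]
  refine (norm_add_le _ _).trans ?_
  have h9 := norm_add_le (((Real.log ‖s‖ - Real.log (2 + |y|) : ℝ) : ℂ)) (((arg s : ℝ) : ℂ) * I)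
  linarith

/-- the map -/
noncomputable def Fm (M : ℝ) (m : ℕ) (D1 : ℂ → ℂ) (s₀ l : ℂ) : ℂ :=
  Real.log M + psi (s₀ + m / l) + D1 (s₀ + m / l)

lemma sad_exists (D : VData M y θ W0 W1 W2 Λ D1 w) (S : Scale M y θ W0 W1 W2 m ℓ R0)
    (P : PtV y R0 s₀) : ∃ l : ℂ, SadV M m ℓ D1 s₀ l := by
  have hℓ := S.ℓpos
  have hm := S.mpos
  have hR := S.R0pos
  have hθ0 := D.hθ0
  set B := Metric.closedBall (ℓ : ℂ) (ℓ / 50) with hB
  have hnear : ∀ l ∈ B, ‖l - ℓ‖ ≤ ℓ / 50 := by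
    intro l hl
    rwa [hB, Metric.mem_closedBall, dist_eq_norm] at hl
  have hmaps : MapsTo (Fm M m D1 s₀) B B := by
    intro l hl
    obtain ⟨r1, r2, r3, -, -⟩ := reg S P (mdiv_near S (hnear l hl))
    have r4 := reg_im S r3
    have h1 := psi_near (y := y) (s := s₀ + m / l) (by linarith) (by linarith) r4
    have h2 := D.D1_le _ r1 r4
    rw [hB, Metric.mem_closedBall, dist_eq_norm]
    have hM := D.hM
    have hy := abs_nonneg y
    have e : Fm M m D1 s₀ l - ℓ = (psi (s₀ + m / l) - Real.log (2 + |y|)) + D1 (s₀ + m / l) := by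
      unfold Fm
      rw [S.hℓ, Real.log_mul (by linarith) (by linarith)]
      push_cast; ring
    rw [e]
    refine (norm_add_le _ _).trans ?_
    have h3 := S.hW1
    have h4 := S.hℓ0
    linarith
  have hlip : LipschitzOnWith (1 / 2 : NNReal) (Fm M m D1 s₀) B := by
    apply LipschitzOnWith.of_dist_le_mul
    intro l hl l' hl'
    rw [dist_eq_norm, dist_eq_norm]
    obtain ⟨r1, r2, r3, -, -⟩ := reg S P (mdiv_near S (hnear l hl))
    obtain ⟨q1, q2, q3, -, -⟩ := reg S P (mdiv_near S (hnear l' hl'))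
    have h1 := psi_lip (s := s₀ + m / l) (s' := s₀ + m / l') (by linarith) (by linarith)
    have h2 := D.D1_lip _ _ r1 (reg_im S r3) q1 (reg_im S q3)
    have h3 := mdiv_sub S (hnear l hl) (hnear l' hl')
    have e : (s₀ + (m : ℂ) / l) - (s₀ + m / l') = m / l - m / l' := by ring
    rw [e] at h1 h2
    have e2 : Fm M m D1 s₀ l - Fm M m D1 s₀ l' = (psi (s₀ + m / l) - psi (s₀ + m / l'))
        + (D1 (s₀ + m / l) - D1 (s₀ + m / l')) := by unfold Fm; ring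
    rw [e2]
    have hW2 := D.hW2
    have hmm := S.m_div
    have k1 : W2 * (m / ℓ ^ 2) ≤ 1 / 10 ^ 9 := by
      rw [hmm, ← mul_div_assoc, div_le_iff₀ hm]
      have := S.hW2
      linarith
    have k2 : (m:ℝ) / ℓ ^ 2 ≤ 1 / 10 ^ 9 := by
      have e3 : (m:ℝ) / ℓ ^ 2 = R0 / ℓ := by rw [S.R0_eq]; field_simp
      rw [e3]
      have h4 := S.hℓ0
      have h5 := S.hR1
      rw [div_le_div_iff₀ hℓ (by norm_num)]
      linarith
    have hn : 0 ≤ ‖l - l'‖ := norm_nonneg _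
    calc _ ≤ ‖psi (s₀ + m / l) - psi (s₀ + m / l')‖ + ‖D1 (s₀ + m / l) - D1 (s₀ + m / l')‖ :=
          norm_add_le _ _
      _ ≤ 5 / 3 * ‖(m : ℂ) / l - m / l'‖ + W2 * ‖(m : ℂ) / l - m / l'‖ := add_le_add h1 h2
      _ = (5 / 3 + W2) * ‖(m : ℂ) / l - m / l'‖ := by ring
      _ ≤ (5 / 3 + W2) * (1.1 * (m / ℓ ^ 2) * ‖l - l'‖) := by gcongr
      _ = 1.1 * (5 / 3 * (m / ℓ ^ 2) + W2 * (m / ℓ ^ 2)) * ‖l - l'‖ := by ring
      _ ≤ 1.1 * (5 / 3 * (1 / 10 ^ 9) + 1 / 10 ^ 9) * ‖l - l'‖ := by gcongr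
      _ ≤ _ := by
          gcongr
          push_cast
          norm_num
  have hcontr : ContractingWith (1 / 2 : NNReal) (hmaps.restrict (Fm M m D1 s₀) B B) := by
    constructor
    · rw [← NNReal.coe_lt_coe]; push_cast; norm_num
    · exact hlip.mapsToRestrict hmaps
  have h0 : (ℓ : ℂ) ∈ B := Metric.mem_closedBall_self (by positivity)
  obtain ⟨l, hl, hfix, -⟩ := ContractingWith.exists_fixedPoint' (Metric.isClosed_closedBall).isComplete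
    hmaps hcontr h0 (edist_ne_top _ _)
  refine ⟨l, hnear l hl, ?_⟩
  have : Fm M m D1 s₀ l = l := hfix
  conv_lhs => rw [← this]
  rfl

/-- the constant -/
def aV : ℝ := 6 * 10 ^ 7

namespace SadV

lemma spv (h : SadV M m ℓ D1 s₀ l) (D : VData M y θ W0 W1 W2 Λ D1 w)
    (S : Scale M y θ W0 W1 W2 m ℓ R0) (P : PtV y R0 s₀) : SPV m aV l := by
  have hℓ := S.ℓpos
  have hm := S.hm
  have hn := norm_l_ge hℓ h.near
  have hℓ0 := S.hℓ0
  have hθ0 := D.hθ0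
  refine ⟨?_, by unfold aV; norm_num, by linarith, ?_⟩
  · have : (1:ℝ) ≤ m := by linarith
    exact_mod_cast this
  · obtain ⟨r1, r2, r3, -, -⟩ := reg S P (mdiv_near S h.near)
    have h1 := abs_im_psi_le (s := s₀ + m / l) (by linarith)
    have h2 := D.D1_le _ r1 (reg_im S r3)
    have h3 := (Complex.abs_im_le_norm (D1 (s₀ + m / l))).trans h2
    have e : l.im = (psi (s₀ + m / l)).im + (D1 (s₀ + m / l)).im := by
      have := congrArg Complex.im h.heq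
      rw [Complex.add_im, Complex.add_im, Complex.ofReal_im, zero_add] at this
      exact this
    rw [e]
    have h4 := abs_add_le (psi (s₀ + m / l)).im (D1 (s₀ + m / l)).im
    have hpi := Real.pi_lt_d2
    have h5 := S.hW1
    have h6 : ℓ / (4 * 10 ^ 7) ≤ 1.6 / aV * ‖l‖ := by
      unfold aV
      have : ℓ / (4 * 10 ^ 7) = 1.5 / (6 * 10 ^ 7) * ℓ := by ring
      rw [this]
      calc 1.5 / (6 * 10 ^ 7) * ℓ = 1.6 / (6 * 10 ^ 7) * (15 / 16 * ℓ) := by ring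
        _ ≤ 1.6 / (6 * 10 ^ 7) * ‖l‖ := by
            gcongr
            linarith
    refine h4.trans (le_trans ?_ h6)
    linarith

lemma R_near (h : SadV M m ℓ D1 s₀ l) (S : Scale M y θ W0 W1 W2 m ℓ R0) :
    48 / 49 * R0 ≤ RR m l ∧ RR m l ≤ 50 / 49 * R0 := by
  have h1 := mdiv_near S h.near
  have hR := S.R0pos
  have h2 : |RR m l - R0| ≤ R0 / 49 := by
    have h3 := abs_norm_sub_norm_le ((m : ℂ) / l) (R0 : ℂ)
    rw [norm_m_div, Complex.norm_real, Real.norm_eq_abs, abs_of_pos hR] at h3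
    exact h3.trans h1
  have h3 := abs_le.1 h2
  constructor <;> linarith

lemma R_pos (h : SadV M m ℓ D1 s₀ l) (S : Scale M y θ W0 W1 W2 m ℓ R0) : 0 < RR m l := by
  have h1 := (h.R_near S).1
  have := S.R0pos
  linarith

lemma im_div_le (h : SadV M m ℓ D1 s₀ l) (S : Scale M y θ W0 W1 W2 m ℓ R0) :
    |((m : ℂ) / l).im| ≤ R0 / 49 := by
  have h1 := mdiv_near S h.near
  have h2 := (Complex.abs_im_le_norm ((m : ℂ) / l - R0)).trans h1
  rwa [Complex.sub_im, Complex.ofReal_im, sub_zero] at h2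

lemma re_div_ge (h : SadV M m ℓ D1 s₀ l) (S : Scale M y θ W0 W1 W2 m ℓ R0) :
    48 / 49 * R0 ≤ ((m : ℂ) / l).re := by
  have h1 := mdiv_near S h.near
  have h2 := (abs_le.1 ((Complex.abs_re_le_norm ((m : ℂ) / l - R0)).trans h1)).1
  rw [Complex.sub_re, Complex.ofReal_re] at h2
  linarith

end SadV

lemma m_zet (h : SPV m aV l) (τ : ℝ) : (m : ℂ) * zet l (zz m l τ) = τ * I * l := by
  unfold zet zz
  have hn : ((‖l‖ : ℝ) : ℂ) ≠ 0 := by exact_mod_cast h.norm_pos.ne'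
  have hm : (m : ℂ) ≠ 0 := by exact_mod_cast h.mpos.ne'
  push_cast
  field_simp

lemma one_add_zet (h : SPV m aV l) (τ : ℝ) :
    (m : ℂ) / l * (1 + zet l (zz m l τ)) = m / l + τ * I := by
  have hm : (m : ℂ) ≠ 0 := by exact_mod_cast h.mpos.ne'
  have h1 := m_zet h τ
  have h2 : l ≠ 0 := norm_pos_iff.1 h.norm_pos
  field_simp
  linear_combination h1

/-- `Λ` in terms of `Lt` -/
lemma Λ_eq_Lt (hM : 0 < M) {s : ℂ} (hs : 0 < s.re) :
    Λ s = (M : ℂ) ^ s * Gamma s * Lt M Λ s := by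
  have hM' : (M : ℂ) ≠ 0 := by exact_mod_cast hM.ne'
  have h1 : (M : ℂ) ^ s ≠ 0 := by rw [Complex.cpow_ne_zero_iff]; left; exact hM'
  have h2 := Complex.Gamma_ne_zero_of_re_pos hs
  unfold Lt
  field_simp

lemma VData.Lt_ne (D : VData M y θ W0 W1 W2 Λ D1 w) {s : ℂ} (hs : 1 + θ ≤ s.re)
    (hsy : |s.im - y| ≤ 2) : Lt M Λ s ≠ 0 := by
  intro h
  have := D.low s hs hsy
  rw [h, norm_zero] at this
  have := Real.exp_pos (-W0)
  linarith

lemma VData.Λ_ne (D : VData M y θ W0 W1 W2 Λ D1 w) {s : ℂ} (hs : 1 + θ ≤ s.re)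
    (hsy : |s.im - y| ≤ 2) : Λ s ≠ 0 := by
  intro h
  apply D.Lt_ne hs hsy
  unfold Lt
  rw [h, zero_div]

/-- vertical ratio -/
lemma VData.ratio (D : VData M y θ W0 W1 W2 Λ D1 w) {s l : ℂ} (hs : 1 + θ ≤ s.re)
    (hsy : |s.im - y| ≤ 2) (hl : l = Real.log M + psi s + D1 s) {τ : ℝ}
    (hτ : |s.im + τ - y| ≤ 2) :
    ∃ E : ℂ, ‖E‖ ≤ (1 + W2) * τ ^ 2 ∧ Λ (s + τ * I) = Λ s * (exp (τ * I * l) * exp E) := by
  have hM : 0 < M := by have := D.hM; linarith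
  have hθ0 := D.hθ0
  have hs1 : 1 ≤ s.re := by linarith
  obtain ⟨R, hR, hv⟩ := D.vert s hs hsy τ hτ
  have hMc : (M : ℂ) ≠ 0 := by exact_mod_cast hM.ne'
  refine ⟨rhoV s τ + R, ?_, ?_⟩
  · refine (norm_add_le _ _).trans ?_
    have h1 := norm_rhoV_le hs1 τ
    have h2 : τ ^ 2 / s.re ≤ τ ^ 2 := div_le_self (sq_nonneg _) hs1
    linarith
  · rw [Λ_eq_Lt (Λ := Λ) hM (s := s) (by linarith),
      Λ_eq_Lt (Λ := Λ) hM (s := s + τ * I) (by simpa using (by linarith : 0 < s.re)),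
      gamma_vert hs1 τ, Complex.cpow_add _ _ hMc, Complex.cpow_def_of_ne_zero hMc (τ * I), hv]
    have hlM : log (M : ℂ) = ((Real.log M : ℝ) : ℂ) := by
      rw [Complex.ofReal_log hM.le]
    have e : exp (log (M : ℂ) * (τ * I)) * exp (τ * I * psi s + rhoV s τ) * exp (τ * I * D1 s + R)
        = exp (τ * I * l) * exp (rhoV s τ + R) := by
      rw [← Complex.exp_add, ← Complex.exp_add, ← Complex.exp_add]
      congr 1
      rw [hl, hlM]; ring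
    calc (M : ℂ) ^ s * exp (log (M : ℂ) * (τ * I)) * (Gamma s * exp (τ * I * psi s + rhoV s τ)) *
        (Lt M Λ s * exp (τ * I * D1 s + R))
        = (M : ℂ) ^ s * Gamma s * Lt M Λ s * (exp (log (M : ℂ) * (τ * I)) *
          exp (τ * I * psi s + rhoV s τ) * exp (τ * I * D1 s + R)) := by ring
      _ = _ := by rw [e]

end Pool.Agent.HD64
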