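import Mathlib
import Pool.Agent.HD64.VD
import Pool.Agent.H6.QBC

/-!
# DerivativeFamily (MP_553913_nt): from bounds of `L` in a window to the window data
-/

set_option autoImplicit false

open Real MeasureTheory Set Filter Topology Metric

namespace Pool.Agent.HD64

open Pool.Agent.H6

/-- the exponential shift formula along a segment -/
lemma shift_seg {f : ℂ → ℂ} (hf : Differentiable ℂ f) {W : ℝ} {s v : ℂ}
    (hne : ∀ t ∈ Icc (0:ℝ) 1, f (s + t * v) ≠ 0)
    (hlip : ∀ t ∈ Icc (0:ℝ) 1, ‖Dl f (s + t * v) - Dl f s‖ ≤ W * ‖v‖) :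
    ∃ R : ℂ, ‖R‖ ≤ W * ‖v‖ ^ 2 ∧ f (s + v) = f s * Complex.exp (v * Dl f s + R) := by
  set cl : ℝ → ℝ := fun t => max 0 (min 1 t) with hcl
  have hclm : ∀ t, cl t ∈ Icc (0:ℝ) 1 := fun t =>
    ⟨le_max_left _ _, max_le zero_le_one (min_le_left _ _)⟩
  have hcle : ∀ t ∈ Icc (0:ℝ) 1, cl t = t := by
    intro t ht
    simp only [hcl]
    rw [min_eq_right ht.2, max_eq_right ht.1]
  have hclc : Continuous cl := by fun_prop
  set g : ℝ → ℂ := fun t => v * Dl f (s + (cl t : ℝ) * v) with hg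
  have hdf : Differentiable ℂ (deriv f) := by
    intro z
    exact ((hf.differentiableOn.deriv isOpen_univ).differentiableAt (isOpen_univ.mem_nhds (mem_univ z)))
  have hgc : Continuous g := by
    have h1 : Continuous (fun t : ℝ => s + ((cl t : ℝ) : ℂ) * v) := by fun_prop
    apply continuous_const.mul
    apply Continuous.div (hdf.continuous.comp h1) (hf.continuous.comp h1)
    intro t
    exact hne _ (hclm t)
  set Φ : ℝ → ℂ := fun τ => ∫ σ in (0:ℝ)..τ, g σ with hΦ
  have hΦd : ∀ τ, HasDerivAt Φ (g τ) τ := fun τ => (hgc.integral_hasStrictDerivAt 0 τ).hasDerivAt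
  set G : ℝ → ℂ := fun τ => f (s + τ * v) * Complex.exp (-Φ τ) with hG
  have hGd : ∀ τ ∈ Icc (0:ℝ) 1, HasDerivAt G 0 τ := by
    intro τ hτ
    have h1 : HasDerivAt (fun τ : ℝ => s + (τ : ℂ) * v) v τ := by
      have h0 : HasDerivAt (fun τ : ℝ => (τ : ℂ)) 1 τ := (hasDerivAt_id τ).ofReal_comp
      simpa using (h0.mul_const v).const_add s
    have h2 : HasDerivAt (fun τ : ℝ => f (s + τ * v)) (deriv f (s + τ * v) * v) τ := by
      have := (hf (s + τ * v)).hasDerivAt.comp τ h1
      simpa [Function.comp_def] using this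
    have h3 := h2.mul ((hΦd τ).neg.cexp)
    have e : deriv f (s + τ * v) * v * Complex.exp (-Φ τ)
        + f (s + τ * v) * (Complex.exp (-Φ τ) * -g τ) = 0 := by
      simp only [hg]
      rw [hcle τ hτ]
      unfold Dl
      have := hne τ hτ
      field_simp
      ring
    simp only [Pi.neg_apply] at h3
    rw [e] at h3
    exact h3
  have hconst : G 1 = G 0 := by
    have h1 := (convex_Icc (0:ℝ) 1).norm_image_sub_le_of_norm_hasDerivWithin_le (f := G)
      (f' := fun _ => 0)
      (C := 0) (fun τ hτ => (hGd τ hτ).hasDerivWithinAt) (fun τ _ => by simp)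
      (show (0:ℝ) ∈ Icc (0:ℝ) 1 by simp)
      (show (1:ℝ) ∈ Icc (0:ℝ) 1 by simp)
    rw [zero_mul] at h1
    exact sub_eq_zero.mp (norm_le_zero_iff.mp h1)
  refine ⟨∫ σ in (0:ℝ)..1, (g σ - v * Dl f s), ?_, ?_⟩
  · have hb : ∀ τ ∈ uIoc (0:ℝ) 1, ‖g τ - v * Dl f s‖ ≤ ‖v‖ * (W * ‖v‖) := by
      intro τ hτ
      rw [uIoc_of_le zero_le_one] at hτ
      have hτ' : τ ∈ Icc (0:ℝ) 1 := ⟨hτ.1.le, hτ.2⟩
      simp only [hg]
      rw [hcle τ hτ', ← mul_sub, norm_mul]
      exact mul_le_mul_of_nonneg_left (hlip τ hτ') (norm_nonneg v)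
    refine (intervalIntegral.norm_integral_le_of_norm_le_const hb).trans (le_of_eq ?_)
    rw [sub_zero, abs_one]
    ring
  · have h1 : v * Dl f s + ∫ σ in (0:ℝ)..1, (g σ - v * Dl f s) = Φ 1 := by
      rw [intervalIntegral.integral_sub (hgc.intervalIntegrable 0 1)
        (continuous_const.intervalIntegrable 0 1), intervalIntegral.integral_const, sub_zero]
      simp only [hΦ, one_smul]
      ring
    rw [h1]
    have h2 : f (s + v) * Complex.exp (-Φ 1) = f s := by
      have h3 := hconst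
      simp only [hG, hΦ, intervalIntegral.integral_same] at h3
      simpa using h3
    rw [← h2, mul_assoc, ← Complex.exp_add]
    simp

theorem vdata_of_window {M : ℝ} {Λ : ℂ → ℂ} {w : ℂ} (hM1 : 1 ≤ M) (sign : w = 1 ∨ w = -1)
    (hΛ : Differentiable ℂ Λ) (fe : ∀ s, Λ (2 - s) = w * Λ s)
    (real : ∀ s, Λ ((starRingEnd ℂ) s) = (starRingEnd ℂ) (Λ s))
    {a r W y : ℝ} (hr : 0 < r) (hr1 : r ≤ 1 / 2) (hra : 2 * r ≤ a) (ha1 : a ≤ 1) (hW : 0 < W)
    (hup : ∀ s : ℂ, 1 ≤ s.re → |s.im - y| ≤ 3 → ‖Lt M Λ s‖ ≤ Real.exp W)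
    (hlow : ∀ s : ℂ, 1 + (a - 2 * r) ≤ s.re → |s.im - y| ≤ 3 → Real.exp (-W) ≤ ‖Lt M Λ s‖) :
    VData M y a W (8 * W / r) (8 * W / r ^ 2) Λ (Dl (Lt M Λ)) w := by
  have hM : 0 < M := by linarith
  set f := Lt M Λ with hf
  have hfd : Differentiable ℂ f := Lt_diff hM hΛ
  have hnear : ∀ (s : ℂ) (σ ρ : ℝ), σ ≤ s.re → |s.im - y| ≤ ρ → ∀ z ∈ closedBall s r,
      σ - r ≤ z.re ∧ |z.im - y| ≤ ρ + r := by
    intro s σ ρ hs hsx z hz
    rw [mem_closedBall, dist_eq_norm] at hz
    have h1 := (abs_le.mp ((Complex.abs_re_le_norm (z - s)).trans hz)).1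
    have h2 := (Complex.abs_im_le_norm (z - s)).trans hz
    simp only [Complex.sub_re] at h1
    simp only [Complex.sub_im] at h2
    refine ⟨by linarith, ?_⟩
    have h3 : z.im - y = (z.im - s.im) + (s.im - y) := by ring
    rw [h3]
    refine (abs_add_le _ _).trans ?_
    linarith
  have hloc : ∀ s : ℂ, 1 + (a - r) ≤ s.re → |s.im - y| ≤ 5 / 2 → ‖Dl f s‖ ≤ 8 * W / r := by
    intro s hs hsx
    apply bc_small hfd hr hW
    · intro z hz
      obtain ⟨h1, h2⟩ := hnear s _ _ hs hsx z (ball_subset_closedBall hz)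
      exact hlow z (by linarith) (by linarith)
    · intro z hz
      obtain ⟨h1, h2⟩ := hnear s _ _ hs hsx z (ball_subset_closedBall hz)
      exact hup z (by linarith) (by linarith)
  have hlne : ∀ s : ℂ, 1 + (a - r) ≤ s.re → |s.im - y| ≤ 5 / 2 → f s ≠ 0 := by
    intro s hs hsx h0
    have h1 := hlow s (by linarith) (by linarith)
    rw [h0, norm_zero] at h1
    have := Real.exp_pos (-W)
    linarith
  have hdf : Differentiable ℂ (deriv f) := by
    intro z
    exact ((hfd.differentiableOn.deriv isOpen_univ).differentiableAt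
      (isOpen_univ.mem_nhds (mem_univ z)))
  have hDd : ∀ s : ℂ, f s ≠ 0 → DifferentiableAt ℂ (Dl f) s := fun s hs =>
    (hdf s).div (hfd s) hs
  have hcau : ∀ s : ℂ, 1 + a ≤ s.re → |s.im - y| ≤ 2 → ‖deriv (Dl f) s‖ ≤ 8 * W / r ^ 2 := by
    intro s hs hsx
    have h1 : ‖deriv (Dl f) s‖ ≤ 8 * W / r / r := by
      apply Complex.norm_deriv_le_of_forall_mem_sphere_norm_le (by positivity)
      · apply DifferentiableOn.diffContOnCl
        rw [closure_ball _ (by positivity)]
        intro z hz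
        obtain ⟨h2, h3⟩ := hnear s _ _ hs hsx z hz
        exact (hDd z (hlne z (by linarith) (by linarith))).differentiableWithinAt
      · intro z hz
        obtain ⟨h2, h3⟩ := hnear s _ _ hs hsx z (sphere_subset_closedBall hz)
        exact hloc z (by linarith) (by linarith)
    refine h1.trans (le_of_eq ?_)
    field_simp
  have hlip : ∀ s s' : ℂ, 1 + a ≤ s.re → |s.im - y| ≤ 2 → 1 + a ≤ s'.re →
      |s'.im - y| ≤ 2 → ‖Dl f s - Dl f s'‖ ≤ 8 * W / r ^ 2 * ‖s - s'‖ := by
    intro s s' hs hsx hs' hsx'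
    have hconv : Convex ℝ {z : ℂ | 1 + a ≤ z.re ∧ |z.im - y| ≤ 2} := by
      intro u hu v hv b c hb hc hbc
      obtain ⟨u1, u2⟩ := hu
      obtain ⟨v1, v2⟩ := hv
      have e1 : (b • u + c • v).re = b * u.re + c * v.re := by simp
      have e2 : (b • u + c • v).im = b * u.im + c * v.im := by simp
      refine ⟨?_, ?_⟩
      · rw [e1]
        calc 1 + a = b * (1 + a) + c * (1 + a) := by rw [← add_mul, hbc, one_mul]
          _ ≤ _ := by gcongr
      · rw [e2]
        have e3 : b * u.im + c * v.im - y = b * (u.im - y) + c * (v.im - y) := by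
          have : y = b * y + c * y := by rw [← add_mul, hbc, one_mul]
          linear_combination -this
        rw [e3]
        calc |b * (u.im - y) + c * (v.im - y)| ≤ |b * (u.im - y)| + |c * (v.im - y)| :=
              abs_add_le _ _
          _ = b * |u.im - y| + c * |v.im - y| := by
              rw [abs_mul, abs_mul, abs_of_nonneg hb, abs_of_nonneg hc]
          _ ≤ b * 2 + c * 2 := by gcongr
          _ = 2 := by rw [← add_mul, hbc, one_mul]
    exact hconv.norm_image_sub_le_of_norm_deriv_le (f := Dl f)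
      (fun z hz => hDd z (hlne z (by linarith [hz.1]) (by linarith [hz.2])))
      (fun z hz => hcau z hz.1 hz.2) ⟨hs', hsx'⟩ ⟨hs, hsx⟩
  have hW2 : 0 ≤ 8 * W / r ^ 2 := by positivity
  refine ⟨hM1, by linarith, ha1, sign, hΛ, fe, real, ?_, ?_, hlip, ?_, ?_, hW.le, hW2⟩
  · intro s hs hsy τ hτ
    have hseg : ∀ t ∈ Icc (0:ℝ) 1, 1 + a ≤ (s + t * (τ * Complex.I)).re ∧
        |(s + t * (τ * Complex.I)).im - y| ≤ 2 := by
      intro t ht
      have e1 : (s + t * (τ * Complex.I)).re = s.re := by simp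
      have e2 : (s + t * (τ * Complex.I)).im = s.im + t * τ := by simp
      rw [e1, e2]
      refine ⟨hs, ?_⟩
      have e3 : s.im + t * τ - y = (1 - t) * (s.im - y) + t * (s.im + τ - y) := by ring
      rw [e3]
      have ht0 := ht.1
      have ht1 : 0 ≤ 1 - t := by linarith [ht.2]
      calc |(1 - t) * (s.im - y) + t * (s.im + τ - y)|
          ≤ |(1 - t) * (s.im - y)| + |t * (s.im + τ - y)| := abs_add_le _ _
        _ = (1 - t) * |s.im - y| + t * |s.im + τ - y| := by
            rw [abs_mul, abs_mul, abs_of_nonneg ht0, abs_of_nonneg ht1]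
        _ ≤ (1 - t) * 2 + t * 2 := by gcongr
        _ = 2 := by ring
    have hnorm : ‖(τ : ℂ) * Complex.I‖ = |τ| := by
      rw [norm_mul, Complex.norm_I, Complex.norm_real, Real.norm_eq_abs, mul_one]
    obtain ⟨R, hR, hv⟩ := shift_seg hfd (W := 8 * W / r ^ 2) (s := s) (v := τ * Complex.I)
      (by
        intro t ht
        obtain ⟨h1, h2⟩ := hseg t ht
        exact hlne _ (by linarith) (by linarith))
      (by
        intro t ht
        obtain ⟨h1, h2⟩ := hseg t ht
        refine (hlip _ _ h1 h2 hs hsy).trans ?_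
        have e : s + t * (τ * Complex.I) - s = (t : ℂ) * (τ * Complex.I) := by ring
        rw [e, norm_mul, Complex.norm_real, Real.norm_eq_abs, abs_of_nonneg ht.1]
        have h3 : t * ‖(τ : ℂ) * Complex.I‖ ≤ 1 * ‖(τ : ℂ) * Complex.I‖ :=
          mul_le_mul_of_nonneg_right ht.2 (norm_nonneg _)
        rw [one_mul] at h3
        exact mul_le_mul_of_nonneg_left h3 hW2)
    refine ⟨R, ?_, hv⟩
    rw [hnorm, sq_abs] at hR
    exact hR
  · intro s hs hsy
    exact hloc s (by linarith) (by linarith)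
  · intro s hs hsy
    exact hlow s (by linarith) (by linarith)
  · intro s hs hsy
    exact hup s hs (by linarith)

end Pool.Agent.HD64
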