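import Mathlib
import Pool.Agent.ZD.Z3

/-!
# HeatD (MP_553913_nt): pointwise bound by the mean on a line
-/

set_option autoImplicit false

open Complex MeasureTheory Set Filter Topology

namespace Pool.Agent.HD64

open Pool.Agent.ZD

/-- the Gaussian mean of `‖G‖` on the line `Re s = 1 + η` about the height `γ` -/
noncomputable def QI (G : ℂ → ℂ) (η γ : ℝ) : ℝ :=
  ∫ y : ℝ, ‖G (1 + η + ((γ + y : ℝ) : ℂ) * I)‖ * Real.exp (-1 * y ^ 2)

lemma QI_integrable {G : ℂ → ℂ} (hGd : Differentiable ℂ G) {K η : ℝ} (hη : 0 < η) (hη1 : η ≤ 1)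
    (hK : ∀ s : ℂ, 1 ≤ s.re → s.re ≤ 4 → ‖G s‖ ≤ K * Real.exp |s.im|) (γ : ℝ) :
    Integrable (fun y : ℝ => ‖G (1 + η + ((γ + y : ℝ) : ℂ) * I)‖ * Real.exp (-1 * y ^ 2)) := by
  have hK0 : 0 ≤ K := by
    have h1 := (norm_nonneg _).trans (hK 1 (by simp) (by simp))
    simpa using h1
  refine (integrable_exp_neg_abs.const_mul (K * Real.exp (|γ| + 1))).mono' ?_ ?_
  · apply Continuous.aestronglyMeasurable
    apply Continuous.mul
    · exact (hGd.continuous.comp (by fun_prop)).norm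
    · fun_prop
  filter_upwards with y
  rw [Real.norm_of_nonneg (by positivity)]
  have h3 := hK (1 + η + ((γ + y : ℝ) : ℂ) * I) (by simp; linarith) (by simp; linarith)
  have him : (1 + η + ((γ + y : ℝ) : ℂ) * I : ℂ).im = γ + y := by simp
  rw [him] at h3
  calc ‖G (1 + η + ((γ + y : ℝ) : ℂ) * I)‖ * Real.exp (-1 * y ^ 2) ≤
      (K * Real.exp |γ + y|) * Real.exp (-1 * y ^ 2) := by gcongr
    _ = K * (Real.exp |γ + y| * Real.exp (-1 * y ^ 2)) := by ring
    _ ≤ K * (Real.exp (|γ| + 1) * Real.exp (-|y|)) := by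
        gcongr ?_ * ?_
        rw [← Real.exp_add, ← Real.exp_add]
        apply Real.exp_le_exp.mpr
        have e1 : |γ + y| ≤ |γ| + |y| := abs_add_le _ _
        have e3 : |y| ^ 2 = y ^ 2 := sq_abs _
        linarith [sq_nonneg (|y| - 1)]
    _ = _ := by ring

/-- bound of an entire function at a point by its mean on a line to the left -/
theorem line_bound {G : ℂ → ℂ} (hGd : Differentiable ℂ G) {K η : ℝ} (hη : 0 < η)
    (hK : ∀ s : ℂ, 1 ≤ s.re → s.re ≤ 4 → ‖G s‖ ≤ K * Real.exp |s.im|) {z : ℂ}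
    (hz : 1 + η < z.re) (hz2 : z.re ≤ 2) {U R : ℝ} (hU0 : 0 < U)
    (hR : ∀ s : ℂ, 3 ≤ s.re → ‖G s‖ ≤ R) :
    ‖G z‖ ≤ U ^ (-(z.re - 1 - η)) / (z.re - 1 - η) * QI G η z.im + 10 * U ^ 2 * R := by
  have hK00 : 0 ≤ K := by
    have h1 := (norm_nonneg _).trans (hK 1 (by simp) (by simp))
    simpa using h1
  have hR00 : 0 ≤ R := (norm_nonneg _).trans (hR 3 (by simp))
  set x : ℝ := z.re - 1 - η with hx
  have hx0 : 0 < x := by rw [hx]; linarith
  have hx1 : x ≤ 1 := by rw [hx]; linarith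
  set γ : ℝ := z.im with hγ
  have hzeq : z = (1 + η + x : ℝ) + γ * I := by
    apply Complex.ext
    · simp [hx]
    · simp [hγ]
  set F : ℂ → ℂ := fun w => G (z + w) * exp (w ^ 2) * exp (w * (Real.log U : ℝ)) with hF
  have hFd : Differentiable ℂ F := by
    rw [hF]
    apply Differentiable.mul
    · apply Differentiable.mul
      · exact hGd.comp (by fun_prop)
      · fun_prop
    · fun_prop
  have hF0 : F 0 = G z := by
    simp [hF]
  have hnormU : ∀ w : ℂ, ‖exp (w * (Real.log U : ℝ))‖ = U ^ w.re := by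
    intro w
    rw [Complex.norm_exp, Real.rpow_def_of_pos hU0]
    congr 1
    simp
    ring
  have hnormE : ∀ w : ℂ, ‖exp (w ^ 2)‖ = Real.exp (w.re ^ 2 - w.im ^ 2) := by
    intro w
    rw [Complex.norm_exp]
    congr 1
    simp [pow_two]
  set UU : ℝ := max 1 U with hUU
  have hUU1 : 1 ≤ UU := le_max_left _ _
  set VV : ℝ := max 1 (U⁻¹) with hVV
  have hVV1 : 1 ≤ VV := le_max_left _ _
  have hUpow : ∀ r : ℝ, -x ≤ r → r ≤ 2 → U ^ r ≤ UU ^ 2 * VV ^ 2 := by
    intro r h1 h2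
    rcases le_total 0 r with h | h
    · calc U ^ r ≤ UU ^ r := Real.rpow_le_rpow hU0.le (le_max_right _ _) h
        _ ≤ UU ^ (2:ℝ) := Real.rpow_le_rpow_of_exponent_le hUU1 h2
        _ = UU ^ 2 * 1 := by rw [mul_one]; exact Real.rpow_two _
        _ ≤ UU ^ 2 * VV ^ 2 := by
            gcongr
            exact one_le_pow₀ hVV1
    · have e : U ^ r = (U⁻¹) ^ (-r) := by
        rw [Real.inv_rpow hU0.le, Real.rpow_neg hU0.le, inv_inv]
      rw [e]
      calc (U⁻¹) ^ (-r) ≤ VV ^ (-r) :=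
            Real.rpow_le_rpow (by positivity) (le_max_right _ _) (by linarith)
        _ ≤ VV ^ (2:ℝ) := Real.rpow_le_rpow_of_exponent_le hVV1 (by linarith)
        _ = 1 * VV ^ 2 := by rw [one_mul]; exact Real.rpow_two _
        _ ≤ UU ^ 2 * VV ^ 2 := by
            gcongr
            exact one_le_pow₀ hUU1
  have hFb : ∀ w : ℂ, -x ≤ w.re → w.re ≤ 2 → ‖F w‖ ≤
      (K * Real.exp (|γ| + 5) * (UU ^ 2 * VV ^ 2)) * Real.exp (-|w.im|) := by
    intro w h1 h2
    rw [hF]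
    simp only
    rw [norm_mul, norm_mul, hnormU, hnormE]
    have h3 := hK (z + w) (by
      rw [Complex.add_re]; rw [hx] at h1; linarith) (by
      rw [Complex.add_re]
      linarith)
    have h4 := hUpow w.re h1 h2
    have h5 : Real.exp |(z + w).im| * Real.exp (w.re ^ 2 - w.im ^ 2) ≤
        Real.exp (|γ| + 5) * Real.exp (-|w.im|) := by
      rw [← Real.exp_add, ← Real.exp_add]
      apply Real.exp_le_exp.mpr
      rw [Complex.add_im]
      have e1 : |z.im + w.im| ≤ |γ| + |w.im| := abs_add_le _ _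
      have e2 : w.re ^ 2 ≤ 2 ^ 2 := sq_le_sq' (by linarith) h2
      have e3 : |w.im| ^ 2 = w.im ^ 2 := sq_abs _
      linarith [sq_nonneg (|w.im| - 1)]
    calc ‖G (z + w)‖ * Real.exp (w.re ^ 2 - w.im ^ 2) * U ^ w.re ≤
        (K * Real.exp |(z + w).im|) * Real.exp (w.re ^ 2 - w.im ^ 2) *
          (UU ^ 2 * VV ^ 2) := by gcongr
      _ = K * (Real.exp |(z + w).im| * Real.exp (w.re ^ 2 - w.im ^ 2)) *
          (UU ^ 2 * VV ^ 2) := by ring
      _ ≤ K * (Real.exp (|γ| + 5) * Real.exp (-|w.im|)) * (UU ^ 2 * VV ^ 2) := by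
          gcongr
      _ = _ := by ring
  have hform := strip_formula hFd hx0 hx1 hFb
  rw [hF0] at hform
  have hsqrtpi : √Real.pi ≤ 2 := by
    rw [Real.sqrt_le_left (by norm_num)]
    linarith [Real.pi_lt_four]
  have hE4 : Real.exp 4 ≤ 55 := by
    have h1 := Real.exp_one_lt_d9
    have h2 : Real.exp 4 = Real.exp 1 ^ 4 := by
      rw [← Real.exp_nat_mul]; norm_num
    rw [h2]
    calc Real.exp 1 ^ 4 ≤ (2.7182818286:ℝ) ^ 4 := by gcongr
      _ ≤ 55 := by norm_num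
  have hRt : ‖∫ y : ℝ, F ((2:ℝ) + y * I) / ((2:ℝ) + y * I)‖ ≤ 55 * (U ^ 2 * R) := by
    have h1 : ∀ y : ℝ, ‖F ((2:ℝ) + y * I) / ((2:ℝ) + y * I)‖ ≤
        (R * Real.exp 4 * U ^ 2 / 2) * Real.exp (-1 * y ^ 2) := by
      intro y
      have e1 : ‖(((2:ℝ):ℂ) + y * I)‖ ≥ 2 := by
        have := Complex.re_le_norm (((2:ℝ):ℂ) + y * I)
        simpa using this
      rw [norm_div, hF]
      simp only
      rw [norm_mul, norm_mul, hnormU, hnormE]
      have hre : (((2:ℝ):ℂ) + y * I).re = 2 := by simp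
      have him : (((2:ℝ):ℂ) + y * I).im = y := by simp
      rw [hre, him]
      have e2 : ‖G (z + (((2:ℝ):ℂ) + y * I))‖ ≤ R := by
        apply hR
        rw [Complex.add_re, hre]; linarith
      have e4 : Real.exp (2 ^ 2 - y ^ 2) = Real.exp 4 * Real.exp (-1 * y ^ 2) := by
        rw [← Real.exp_add]; congr 1; ring
      rw [e4, Real.rpow_two]
      calc ‖G (z + (((2:ℝ):ℂ) + y * I))‖ * (Real.exp 4 * Real.exp (-1 * y ^ 2)) * U ^ 2 /
            ‖(((2:ℝ):ℂ) + y * I)‖ ≤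
            R * (Real.exp 4 * Real.exp (-1 * y ^ 2)) * U ^ 2 / 2 := by
            gcongr
        _ = _ := by ring
    refine (norm_integral_le_of_norm_le ((integrable_exp_neg_mul_sq one_pos).const_mul _)
      (ae_of_all _ h1)).trans ?_
    rw [integral_const_mul, integral_gaussian, div_one]
    calc R * Real.exp 4 * U ^ 2 / 2 * √Real.pi ≤ R * 55 * U ^ 2 / 2 * 2 := by gcongr
      _ = _ := by ring
  have hQi := QI_integrable hGd hη (by linarith) hK γ
  have hL : ‖∫ y : ℝ, F ((-x : ℝ) + y * I) / ((-x : ℝ) + y * I)‖ ≤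
      (3 * U ^ (-x) / x) * QI G η γ := by
    have h1 : ∀ y : ℝ, ‖F ((-x : ℝ) + y * I) / ((-x : ℝ) + y * I)‖ ≤ (3 * U ^ (-x) / x) *
        (‖G (1 + η + ((γ + y : ℝ) : ℂ) * I)‖ * Real.exp (-1 * y ^ 2)) := by
      intro y
      have hre : (((-x : ℝ):ℂ) + y * I).re = -x := by simp
      have him : (((-x : ℝ):ℂ) + y * I).im = y := by simp
      have e1 : x ≤ ‖(((-x : ℝ):ℂ) + y * I)‖ := by
        have := Complex.abs_re_le_norm (((-x : ℝ):ℂ) + y * I)
        rw [hre, abs_neg, abs_of_pos hx0] at this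
        exact this
      rw [norm_div, hF]
      simp only
      rw [norm_mul, norm_mul, hnormU, hnormE, hre, him]
      have e2 : z + (((-x : ℝ):ℂ) + y * I) = 1 + η + ((γ + y : ℝ) : ℂ) * I := by
        rw [hzeq]; push_cast; ring
      rw [e2]
      have e3 : Real.exp ((-x) ^ 2 - y ^ 2) ≤ 3 * Real.exp (-1 * y ^ 2) := by
        have e4 : Real.exp ((-x) ^ 2 - y ^ 2) = Real.exp (x ^ 2) * Real.exp (-1 * y ^ 2) := by
          rw [← Real.exp_add]; congr 1; ring
        rw [e4]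
        gcongr
        have e5 : x ^ 2 ≤ 1 := pow_le_one₀ hx0.le hx1
        have e6 : Real.exp (x ^ 2) ≤ Real.exp 1 := Real.exp_le_exp.mpr e5
        have e9 := Real.exp_one_lt_d9
        linarith
      calc ‖G (1 + η + ((γ + y : ℝ) : ℂ) * I)‖ * Real.exp ((-x) ^ 2 - y ^ 2) * U ^ (-x) /
            ‖(((-x : ℝ):ℂ) + y * I)‖ ≤
            ‖G (1 + η + ((γ + y : ℝ) : ℂ) * I)‖ * (3 * Real.exp (-1 * y ^ 2)) * U ^ (-x) / x := by
            gcongr
        _ = _ := by ring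
    refine (norm_integral_le_of_norm_le (hQi.const_mul _) (ae_of_all _ h1)).trans ?_
    rw [integral_const_mul]
    rfl
  have h1 : ‖(2 * Real.pi * G z : ℂ)‖ = 2 * Real.pi * ‖G z‖ := by
    rw [norm_mul, norm_mul]
    simp [abs_of_pos Real.pi_pos]
  have h2 := norm_sub_le (∫ y : ℝ, F ((2:ℝ) + y * I) / ((2:ℝ) + y * I))
    (∫ y : ℝ, F ((-x : ℝ) + y * I) / ((-x : ℝ) + y * I))
  rw [← hform, h1] at h2
  have hQ0 : 0 ≤ QI G η γ := by
    unfold QI
    exact integral_nonneg fun y => by positivity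
  have hUx : 0 ≤ U ^ (-x) / x * QI G η γ := by positivity
  have h3 : 6 * ‖G z‖ ≤ 2 * Real.pi * ‖G z‖ := by
    gcongr
    linarith [Real.pi_gt_three]
  have h4 : 3 * U ^ (-x) / x * QI G η γ = 3 * (U ^ (-x) / x * QI G η γ) := by ring
  have h5 : 0 ≤ U ^ 2 * R := by positivity
  rw [h4] at hL
  linarith

end Pool.Agent.HD64
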