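import Mathlib
import Pool.Agent.HD64.Line
import Pool.Agent.CZ.CL2

/-!
# HeatD (MP_553913_nt): detection of small values of `L` to the right of the critical line
-/

set_option autoImplicit false

open Complex MeasureTheory Set Filter Topology

namespace Pool.Agent.HD64

open Pool.Agent.ZD
open Pool.Agent.H5 (c bd Lser)
open Pool.Agent.H6

/-- the mollifier far to the right -/
lemma mol_far : ∃ C : ℝ, 1 ≤ C ∧ ∀ (d : ℤ) (Y : ℕ) (s : ℂ), 3 ≤ s.re → ‖mol d Y s‖ ≤ C := by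
  obtain ⟨C, hC, hcb⟩ := coef_bound (ε := 1 / 2) (by norm_num)
  refine ⟨C * ∑' n : ℕ, ((n:ℝ) ^ 2)⁻¹, ?_, ?_⟩
  · have h1 : (1:ℝ) ≤ ∑' n : ℕ, ((n:ℝ) ^ 2)⁻¹ := by
      have := (Real.summable_nat_pow_inv.mpr (by norm_num : 1 < 2)).le_tsum 1
        (fun j _ => by positivity)
      simpa using this
    nlinarith
  · intro d Y s hs
    unfold mol
    rw [← tsum_mul_left]
    refine (norm_sum_le _ _).trans ?_
    refine le_trans (Finset.sum_le_sum (f := fun m : ℕ => ‖(mb d m : ℂ) * (m : ℂ) ^ (-s)‖)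
      (g := fun m : ℕ => C * ((m:ℝ) ^ 2)⁻¹) ?_) ?_
    · intro m hm
      have hm1 := (Finset.mem_Icc.mp hm).1
      have h1 := (hcb d m (by omega)).2.1
      norm_num at h1
      have := term_le hs (a := (mb d m : ℝ)) (C := C) (n := m) h1
      simpa using this
    · apply (summable_inv_sq' C).sum_le_tsum
      intro j _
      positivity

/-- Gaussian mean of the mollifier -/
lemma mol_int (d Y : ℕ) {η T γ : ℝ} (hη : 0 < η) (hT : 1 ≤ T) (hγT : |γ| ≤ T) :
    Integrable (fun y : ℝ => ‖mol d Y (1 + η + ((γ + y : ℝ) : ℂ) * I)‖ * Real.exp (-(1 / 2) * y ^ 2)) ∧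
    ∫ y : ℝ, ‖mol d Y (1 + η + ((γ + y : ℝ) : ℂ) * I)‖ * Real.exp (-(1 / 2) * y ^ 2) ≤
      6 * T * √(KK Y η d) := by
  set f1 : ℝ → ℝ := fun y => ‖mol d Y (1 + η + ((γ + y : ℝ) : ℂ) * I)‖ *
    √((1 + (γ + y) ^ 2)⁻¹) with hf1
  set g1 : ℝ → ℝ := fun y => √(1 + (γ + y) ^ 2) * Real.exp (-(1 / 2) * y ^ 2) with hg1
  have hf1c : Continuous f1 := by
    rw [hf1]
    apply Continuous.mul
    · exact ((differentiable_mol d Y).continuous.comp (by fun_prop)).norm
    · apply Real.continuous_sqrt.comp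
      apply Continuous.inv₀ (by fun_prop)
      intro y; positivity
  have hg1c : Continuous g1 := by
    rw [hg1]
    apply Continuous.mul
    · exact Real.continuous_sqrt.comp (by fun_prop)
    · fun_prop
  have hf1sq : ∀ y : ℝ, f1 y ^ 2 = (fun t : ℝ => ‖mol d Y (1 + η + t * I)‖ ^ 2 *
      (1 + t ^ 2)⁻¹) (γ + y) := by
    intro y
    rw [hf1]
    simp only
    rw [mul_pow, Real.sq_sqrt (by positivity)]
  have hf1i : Integrable (fun y => f1 y ^ 2) := by
    simp_rw [hf1sq]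
    exact (KK_integrable d Y hη).comp_add_left γ
  have hf1int : ∫ y, f1 y ^ 2 = KK Y η d := by
    simp_rw [hf1sq]
    rw [integral_add_left_eq_self (fun t : ℝ => ‖mol d Y (1 + η + t * I)‖ ^ 2 *
      (1 + t ^ 2)⁻¹) γ]
    rfl
  have hg1sq : ∀ y : ℝ, g1 y ^ 2 ≤ (12 * T ^ 2) * Real.exp (-(1 / 2) * y ^ 2) := by
    intro y
    rw [hg1]
    simp only
    rw [mul_pow, Real.sq_sqrt (by positivity), ← Real.exp_nat_mul]
    have e1 : ((2:ℕ):ℝ) * (-(1 / 2) * y ^ 2) = -(1 / 2) * y ^ 2 + -(1 / 2) * y ^ 2 := by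
      push_cast; ring
    rw [e1, Real.exp_add, ← mul_assoc]
    apply mul_le_mul_of_nonneg_right _ (Real.exp_nonneg _)
    have e2 : 1 + (γ + y) ^ 2 ≤ 3 * T ^ 2 * (1 + 2 * y ^ 2) := by
      have e3 : γ ^ 2 ≤ T ^ 2 := by
        rw [← sq_abs γ]
        gcongr
      have e4 : 1 ≤ T ^ 2 := one_le_pow₀ hT
      have e5 : y ^ 2 ≤ T ^ 2 * y ^ 2 := le_mul_of_one_le_left (sq_nonneg y) e4
      linarith [sq_nonneg (γ - y), sq_nonneg y]
    have e5 : 1 + 2 * y ^ 2 ≤ 4 * Real.exp ((1 / 2) * y ^ 2) := by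
      have := Real.add_one_le_exp ((1 / 2) * y ^ 2)
      linarith
    have e6 : Real.exp ((1 / 2) * y ^ 2) * Real.exp (-(1 / 2) * y ^ 2) = 1 := by
      rw [← Real.exp_add]; simp
    calc (1 + (γ + y) ^ 2) * Real.exp (-(1 / 2) * y ^ 2) ≤
        (3 * T ^ 2 * (4 * Real.exp ((1 / 2) * y ^ 2))) * Real.exp (-(1 / 2) * y ^ 2) := by
          apply mul_le_mul_of_nonneg_right _ (Real.exp_nonneg _)
          exact e2.trans (mul_le_mul_of_nonneg_left e5 (by positivity))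
      _ = 12 * T ^ 2 * (Real.exp ((1 / 2) * y ^ 2) * Real.exp (-(1 / 2) * y ^ 2)) := by ring
      _ = 12 * T ^ 2 := by rw [e6, mul_one]
  have hgi0 : Integrable (fun y : ℝ => (12 * T ^ 2) * Real.exp (-(1 / 2) * y ^ 2)) :=
    (integrable_exp_neg_mul_sq (by norm_num)).const_mul _
  have hg1i : Integrable (fun y => g1 y ^ 2) := by
    refine hgi0.mono' (hg1c.pow 2).aestronglyMeasurable ?_
    filter_upwards with y
    rw [Real.norm_of_nonneg (by positivity)]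
    exact hg1sq y
  have hg1int : ∫ y, g1 y ^ 2 ≤ (6 * T) ^ 2 := by
    refine (integral_mono hg1i hgi0 hg1sq).trans ?_
    rw [integral_const_mul, integral_gaussian]
    have e1 : √(Real.pi / (1 / 2)) ≤ 3 := by
      rw [Real.sqrt_le_left (by norm_num)]
      linarith [Real.pi_lt_four]
    calc 12 * T ^ 2 * √(Real.pi / (1 / 2)) ≤ 12 * T ^ 2 * 3 := by gcongr
      _ = (6 * T) ^ 2 := by ring
  have hKK0 : 0 ≤ KK Y η d := by
    unfold KK
    exact integral_nonneg fun t => by positivity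
  have hcs := cs_line hf1c hg1c (fun y => by rw [hf1]; positivity) (fun y => by rw [hg1]; positivity)
    hf1i hg1i
  rw [hf1int] at hcs
  have hcs2 : ∫ y, f1 y * g1 y ≤ √(KK Y η d) * (6 * T) := by
    refine hcs.trans ?_
    gcongr
    rw [Real.sqrt_le_left (by positivity)]
    exact hg1int
  have hfg : Integrable (fun y => f1 y * g1 y) := by
    refine (hf1i.add hg1i).mono' (hf1c.mul hg1c).aestronglyMeasurable ?_
    filter_upwards with y
    have h1 : 0 ≤ f1 y := by rw [hf1]; positivity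
    have h2 : 0 ≤ g1 y := by rw [hg1]; positivity
    rw [Real.norm_of_nonneg (by positivity)]
    simp only [Pi.add_apply]
    linarith [sq_nonneg (f1 y - g1 y), sq_nonneg (f1 y), sq_nonneg (g1 y)]
  have h4 : (fun y => f1 y * g1 y) = fun y : ℝ => ‖mol d Y (1 + η + ((γ + y : ℝ) : ℂ) * I)‖ *
      Real.exp (-(1 / 2) * y ^ 2) := by
    funext y
    rw [hf1, hg1]
    simp only
    have e1 : √((1 + (γ + y) ^ 2)⁻¹) * √(1 + (γ + y) ^ 2) = 1 := by
      rw [← Real.sqrt_mul (by positivity), inv_mul_cancel₀ (by positivity), Real.sqrt_one]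
    linear_combination (‖mol d Y (1 + η + ((γ + y : ℝ) : ℂ) * I)‖ *
      Real.exp (-(1 / 2) * y ^ 2)) * e1
  rw [h4] at hcs2 hfg
  exact ⟨hfg, hcs2.trans (le_of_eq (by ring))⟩

/-- the mollifier is bounded by its mean square -/
theorem mol_sup : ∃ C : ℝ, 1 ≤ C ∧ ∀ (J Y d : ℕ) (T : ℝ) (z : ℂ), 1 ≤ J → 1 ≤ T →
    1 + 1 / (J : ℝ) ≤ z.re → z.re ≤ 2 → |z.im| ≤ T →
    ‖mol d Y z‖ ≤ C * J * (1 + T * √(KK Y (1 / (2 * J)) d)) := by
  obtain ⟨C1, hC1, hfar⟩ := mol_far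
  refine ⟨10 * C1 + 12, by linarith, ?_⟩
  intro J Y d T z hJ hT hz hz2 hzT
  have hJr : (1:ℝ) ≤ J := by exact_mod_cast hJ
  have hJ0 : (0:ℝ) < J := by linarith
  set η : ℝ := 1 / (2 * J) with hη
  have hη0 : 0 < η := by rw [hη]; positivity
  have hJη : 1 / (J:ℝ) = 2 * η := by rw [hη]; field_simp
  have hηJ : 1 / η = 2 * J := by rw [hη]; field_simp
  set M0 := ∑ m ∈ Finset.Icc 1 Y, |(mb d m : ℝ)| with hM0
  have hM00 : 0 ≤ M0 := Finset.sum_nonneg fun _ _ => abs_nonneg _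
  have h1 := line_bound (differentiable_mol d Y) (K := M0) hη0 (z := z) (by
      intro s h1 h2
      have h3 := norm_mol_le d Y (s := s) (by linarith)
      have h4 : 1 ≤ Real.exp |s.im| := Real.one_le_exp (abs_nonneg _)
      calc ‖mol d Y s‖ ≤ M0 * 1 := by rw [mul_one]; exact h3
        _ ≤ _ := by gcongr) (by linarith) hz2 (U := 1) (R := C1) one_pos (fun s hs => hfar d Y s hs)
  rw [Real.one_rpow] at h1
  refine h1.trans ?_
  obtain ⟨hi, hle⟩ := mol_int d Y (γ := z.im) hη0 hT hzT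
  have hQ : QI (mol d Y) η z.im ≤ 6 * T * √(KK Y η d) := by
    refine le_trans ?_ hle
    unfold QI
    apply integral_mono_of_nonneg
    · filter_upwards with y
      positivity
    · exact hi
    · filter_upwards with y
      gcongr
      norm_num
  have hQ0 : 0 ≤ QI (mol d Y) η z.im := by
    unfold QI
    exact integral_nonneg fun y => by positivity
  have hx : 1 / (z.re - 1 - η) ≤ 2 * J := by
    rw [← hηJ]
    apply one_div_le_one_div_of_le hη0
    linarith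
  have hKK0 : 0 ≤ √(KK Y η d) := Real.sqrt_nonneg _
  calc 1 / (z.re - 1 - η) * QI (mol d Y) η z.im + 10 * 1 ^ 2 * C1 ≤
      (2 * J) * (6 * T * √(KK Y η d)) + 10 * 1 ^ 2 * C1 := by gcongr
    _ = 12 * J * (T * √(KK Y η d)) + 10 * C1 := by ring
    _ ≤ (10 * C1 + 12) * J * (T * √(KK Y η d)) + (10 * C1 + 12) * J * 1 := by
        have e1 : 12 * J * (T * √(KK Y η d)) ≤ (10 * C1 + 12) * J * (T * √(KK Y η d)) := by
          gcongr
          linarith
        have e2 : 10 * C1 ≤ (10 * C1 + 12) * J * 1 := by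
          rw [mul_one]
          calc 10 * C1 ≤ (10 * C1 + 12) * 1 := by linarith
            _ ≤ _ := by gcongr
        linarith
    _ = _ := by ring

/-- if the mollified function is not close to one then the mean squares are large -/
theorem det_main : ∃ C : ℝ, 1 ≤ C ∧ ∀ (X J d : ℕ) (T β : ℝ) (z : ℂ), 3 ≤ X → 1 ≤ J → X ≤ 2 ^ J →
    1 ≤ T → Squarefree d → 1 + β ≤ z.re → z.re ≤ 2 → 1 / (J : ℝ) ≤ β → |z.im| ≤ T →
    ‖Lf d z * mol d ⌊(X : ℝ) ^ (1 / 4 : ℝ)⌋₊ z‖ ≤ 1 / 2 →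
    (X : ℝ) ^ (β / 8) ≤ C * J * (1 + T * (MM (1 / (8 * T)) (1 / (2 * J)) d *
      √(KK ⌊(X : ℝ) ^ (1 / 4 : ℝ)⌋₊ (1 / (2 * J)) d))) := by
  obtain ⟨C1, hC1, hright⟩ := mol_right
  set c0 : ℝ := 1 / (1 + 80 * C1) with hc0
  have hc00 : 0 < c0 := by rw [hc0]; positivity
  have hc01 : c0 ≤ 1 := by
    rw [hc0, div_le_one (by positivity)]
    linarith
  refine ⟨200 / c0, by rw [le_div_iff₀ hc00]; linarith, ?_⟩
  intro X J d T β ρ hX hJ hXJ hT hd hρ hρ2 hβ hρT hsmall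
  have hXr : (3:ℝ) ≤ X := by exact_mod_cast hX
  have hX0 : (0:ℝ) < X := by linarith
  have hJr : (1:ℝ) ≤ J := by exact_mod_cast hJ
  have hJ0 : (0:ℝ) < J := by linarith
  set Y := ⌊(X : ℝ) ^ (1 / 4 : ℝ)⌋₊ with hY
  set η : ℝ := 1 / (2 * J) with hη
  set a : ℝ := 1 / (8 * T) with ha
  have hη0 : 0 < η := by rw [hη]; positivity
  have hη1 : η ≤ 1 / 2 := by
    rw [hη]
    apply one_div_le_one_div_of_le (by norm_num) (by linarith)
  have ha0 : 0 < a := by rw [ha]; positivity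
  have hJη : 1 / (J:ℝ) = 2 * η := by rw [hη]; field_simp
  have hηJ : 1 / η = 2 * J := by rw [hη]; field_simp
  obtain ⟨hdiff, hLs⟩ := Lf_spec hd
  set b : ℝ := ρ.re - 1 with hb
  have hbβ : β ≤ b := by rw [hb]; linarith
  have hb2 : b ≤ 1 := by rw [hb]; linarith
  set x : ℝ := b - η with hx
  have hxη : η ≤ x := by rw [hx]; linarith
  have hx0 : 0 < x := by linarith
  have hx1 : x ≤ 1 := by rw [hx]; linarith
  set γ : ℝ := ρ.im with hγ
  set U : ℝ := c0 * (X:ℝ) ^ (1 / 8 : ℝ) with hU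
  have hU0 : 0 < U := by rw [hU]; positivity
  -- the function
  set G : ℂ → ℂ := fun s => Lf d s * mol d Y s - 1 with hG
  have hGd : Differentiable ℂ G := by
    rw [hG]
    exact (hdiff.mul (differentiable_mol d Y)).sub_const 1
  have hGρ : 1 / 2 ≤ ‖G ρ‖ := by
    have h1 := norm_sub_norm_le (1:ℂ) (Lf d ρ * mol d Y ρ)
    rw [norm_one, norm_sub_rev] at h1
    rw [hG]
    simp only
    linarith
  -- growth
  obtain ⟨K0, hK0⟩ := growth hd (a := 1) one_pos (σ₁ := 1) one_pos 4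
  set M0 := ∑ m ∈ Finset.Icc 1 Y, |(mb d m : ℝ)| with hM0
  have hM00 : 0 ≤ M0 := Finset.sum_nonneg fun _ _ => abs_nonneg _
  have hK00 : 0 ≤ K0 := by
    have := (norm_nonneg _).trans (hK0 1 (by simp) (by simp))
    by_contra h
    push Not at h
    have h2 : K0 * Real.exp (1 * |(1:ℂ).im|) < 0 := mul_neg_of_neg_of_pos h (Real.exp_pos _)
    linarith
  have hGb : ∀ s : ℂ, 1 ≤ s.re → s.re ≤ 4 → ‖G s‖ ≤ (K0 * M0 + 1) * Real.exp |s.im| := by
    intro s h1 h2
    rw [hG]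
    simp only
    have h3 := hK0 s h1 h2
    rw [one_mul] at h3
    have h4 := norm_mol_le d Y (s := s) (by linarith)
    have h5 : 1 ≤ Real.exp |s.im| := Real.one_le_exp (abs_nonneg _)
    calc ‖Lf d s * mol d Y s - 1‖ ≤ ‖Lf d s‖ * ‖mol d Y s‖ + ‖(1:ℂ)‖ := by
          rw [← norm_mul]; exact norm_sub_le _ _
      _ ≤ (K0 * Real.exp |s.im|) * M0 + 1 := by
          rw [norm_one]
          gcongr
      _ ≤ K0 * M0 * Real.exp |s.im| + Real.exp |s.im| :=
          le_of_eq_of_le (by ring : _ = K0 * M0 * Real.exp |s.im| + 1) (by linarith)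
      _ = _ := by ring
  have hY1 : 1 ≤ (X:ℝ) ^ (1 / 4 : ℝ) := Real.one_le_rpow (by linarith) (by norm_num)
  have hYpos : 1 ≤ Y := Nat.le_floor (by simpa using hY1)
  have hYlow : (X:ℝ) ^ (1 / 4 : ℝ) / 2 ≤ Y := by
    have h1 := Nat.lt_floor_add_one ((X:ℝ) ^ (1 / 4 : ℝ))
    rw [← hY] at h1
    have h2 : (1:ℝ) ≤ Y := by exact_mod_cast hYpos
    linarith
  have hline := line_bound hGd hη0 hGb (z := ρ) (by rw [hb] at hbβ; linarith) hρ2 (U := U)
    (R := C1 / Y) hU0 (by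
      intro s hs
      rw [hG]
      simp only
      rw [hLs _ (by linarith)]
      exact hright d Y _ hYpos hs)
  rw [← hb, ← hx] at hline
  have hfar : 10 * U ^ 2 * (C1 / Y) ≤ 1 / 4 := by
    have hU2 : U ^ 2 = c0 ^ 2 * (X:ℝ) ^ (1 / 4 : ℝ) := by
      rw [hU, mul_pow, ← Real.rpow_natCast ((X:ℝ) ^ (1 / 8 : ℝ)) 2, ← Real.rpow_mul hX0.le]
      norm_num
    have h3 : (X:ℝ) ^ (1 / 4 : ℝ) / Y ≤ 2 := by
      rw [div_le_iff₀ (by exact_mod_cast hYpos)]
      linarith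
    have h5 : c0 ^ 2 ≤ c0 := by rw [pow_two]; exact mul_le_of_le_one_left hc00.le hc01
    have h6 : 20 * C1 * c0 ≤ 1 / 4 := by
      rw [hc0, mul_one_div, div_le_div_iff₀ (by positivity) (by norm_num)]
      linarith
    calc 10 * U ^ 2 * (C1 / Y) = 10 * C1 * c0 ^ 2 * ((X:ℝ) ^ (1 / 4 : ℝ) / Y) := by
          rw [hU2]; ring
      _ ≤ 10 * C1 * c0 * 2 := by gcongr
      _ = 20 * C1 * c0 := by ring
      _ ≤ _ := h6
  -- the integral of Q
  have hbdd := MM_bdd hd (a := a) (η := η) ha0 hη0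
  have hMM : ∀ t : ℝ, ‖Lf d (1 + η + t * I)‖ ≤ MM a η d * Real.exp (a * |t|) := by
    intro t
    have h1 : ‖Lf d (1 + η + t * I)‖ * Real.exp (-(a * |t|)) ≤ MM a η d := le_ciSup hbdd t
    have h2 : ‖Lf d (1 + η + t * I)‖ = ‖Lf d (1 + η + t * I)‖ * Real.exp (-(a * |t|)) *
        Real.exp (a * |t|) := by
      rw [mul_assoc, ← Real.exp_add]; simp
    rw [h2]
    gcongr
  have hMM0 : 0 ≤ MM a η d := by
    have := (norm_nonneg _).trans (hMM 0)
    simpa using this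
  obtain ⟨hmi, hmle⟩ := mol_int d Y (γ := γ) hη0 hT hρT
  have hQle : ∀ y : ℝ, ‖G (1 + η + ((γ + y : ℝ) : ℂ) * I)‖ * Real.exp (-1 * y ^ 2) ≤
      Real.exp (-1 * y ^ 2) + 2 * MM a η d *
        (‖mol d Y (1 + η + ((γ + y : ℝ) : ℂ) * I)‖ * Real.exp (-(1 / 2) * y ^ 2)) := by
    intro y
    have h1 := hMM (γ + y)
    have h2 : ‖G (1 + η + ((γ + y : ℝ) : ℂ) * I)‖ ≤
        1 + MM a η d * Real.exp (a * |γ + y|) * ‖mol d Y (1 + η + ((γ + y : ℝ) : ℂ) * I)‖ := by
      rw [hG]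
      simp only
      calc ‖Lf d (1 + η + ((γ + y : ℝ) : ℂ) * I) * mol d Y (1 + η + ((γ + y : ℝ) : ℂ) * I) - 1‖ ≤
          ‖Lf d (1 + η + ((γ + y : ℝ) : ℂ) * I)‖ * ‖mol d Y (1 + η + ((γ + y : ℝ) : ℂ) * I)‖ +
            ‖(1:ℂ)‖ := by
            rw [← norm_mul]; exact norm_sub_le _ _
        _ ≤ MM a η d * Real.exp (a * |γ + y|) * ‖mol d Y (1 + η + ((γ + y : ℝ) : ℂ) * I)‖ + 1 := by
            rw [norm_one]
            gcongr
        _ = _ := by ring
    have h3 : Real.exp (a * |γ + y|) * Real.exp (-1 * y ^ 2) ≤ 2 * Real.exp (-(1 / 2) * y ^ 2) := by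
      have e1 : a * |γ + y| ≤ 1 / 8 + (1 / 8) * |y| := by
        have e2 : |γ + y| ≤ T + |y| := (abs_add_le _ _).trans (by linarith)
        have e3 : a * T = 1 / 8 := by rw [ha]; field_simp
        have e4 : a ≤ 1 / 8 := by
          rw [ha]
          apply one_div_le_one_div_of_le (by norm_num) (by linarith)
        calc a * |γ + y| ≤ a * (T + |y|) := by gcongr
          _ = 1 / 8 + a * |y| := by rw [mul_add, e3]
          _ ≤ _ := by gcongr
      have e5 : Real.exp (1 / 2) ≤ 2 := by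
        have e8 : Real.exp (1 / 2) ^ 2 = Real.exp 1 := by
          rw [← Real.exp_nat_mul]; norm_num
        have e9 := Real.exp_one_lt_d9
        have e10 : Real.exp (1 / 2) ^ 2 ≤ 2 ^ 2 := by rw [e8]; linarith
        exact le_of_sq_le_sq e10 (by norm_num)
      calc Real.exp (a * |γ + y|) * Real.exp (-1 * y ^ 2) ≤
          Real.exp (1 / 2) * Real.exp (-(1 / 2) * y ^ 2) := by
            rw [← Real.exp_add, ← Real.exp_add]
            apply Real.exp_le_exp.mpr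
            have e3 : |y| ^ 2 = y ^ 2 := sq_abs _
            linarith [sq_nonneg (|y| - 1), sq_nonneg y]
        _ ≤ _ := by gcongr
    set m := ‖mol d Y (1 + η + ((γ + y : ℝ) : ℂ) * I)‖ with hm
    have hm0 : 0 ≤ m := norm_nonneg _
    calc ‖G (1 + η + ((γ + y : ℝ) : ℂ) * I)‖ * Real.exp (-1 * y ^ 2) ≤
        (1 + MM a η d * Real.exp (a * |γ + y|) * m) * Real.exp (-1 * y ^ 2) := by gcongr
      _ = Real.exp (-1 * y ^ 2) + MM a η d * m *
          (Real.exp (a * |γ + y|) * Real.exp (-1 * y ^ 2)) := by ring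
      _ ≤ Real.exp (-1 * y ^ 2) + MM a η d * m * (2 * Real.exp (-(1 / 2) * y ^ 2)) := by gcongr
      _ = _ := by ring
  have hsqrtpi : √Real.pi ≤ 2 := by
    rw [Real.sqrt_le_left (by norm_num)]
    linarith [Real.pi_lt_four]
  have hQint : QI G η γ ≤ 12 * (1 + T * (MM a η d * √(KK Y η d))) := by
    unfold QI
    refine (integral_mono_of_nonneg (ae_of_all _ fun y => by positivity)
      ((integrable_exp_neg_mul_sq one_pos).add (hmi.const_mul _)) (ae_of_all _ hQle)).trans ?_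
    have e0 : ∫ y : ℝ, (Real.exp (-1 * y ^ 2) + 2 * MM a η d *
        (‖mol d Y (1 + η + ((γ + y : ℝ) : ℂ) * I)‖ * Real.exp (-(1 / 2) * y ^ 2))) =
        √Real.pi + 2 * MM a η d * ∫ y : ℝ, ‖mol d Y (1 + η + ((γ + y : ℝ) : ℂ) * I)‖ *
          Real.exp (-(1 / 2) * y ^ 2) := by
      rw [integral_add (integrable_exp_neg_mul_sq one_pos) (hmi.const_mul _), integral_const_mul,
        integral_gaussian, div_one]
    refine (le_of_eq e0).trans ?_
    calc √Real.pi + 2 * MM a η d * ∫ y : ℝ, ‖mol d Y (1 + η + ((γ + y : ℝ) : ℂ) * I)‖ *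
          Real.exp (-(1 / 2) * y ^ 2)
        ≤ 2 + 2 * MM a η d * (6 * T * √(KK Y η d)) := by gcongr
      _ ≤ _ := by linarith
  -- conclusion
  set W : ℝ := 1 + T * (MM a η d * √(KK Y η d)) with hW
  have hKK0 : 0 ≤ √(KK Y η d) := Real.sqrt_nonneg _
  have hW1 : 0 ≤ W := by rw [hW]; positivity
  have hUx : 0 < U ^ x := Real.rpow_pos_of_pos hU0 x
  have hQ0 : 0 ≤ QI G η γ := by
    unfold QI
    exact integral_nonneg fun y => by positivity
  have h1 : U ^ x ≤ 96 * J * W := by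
    have h2 : 1 / 4 ≤ U ^ (-x) / x * QI G η γ := by linarith
    rw [Real.rpow_neg hU0.le] at h2
    have h3 : ((U ^ x)⁻¹ / x * QI G η γ) * U ^ x = 1 / x * QI G η γ := by
      field_simp
    have hxJ : 1 / x ≤ 2 * J := by
      rw [← hηJ]
      exact one_div_le_one_div_of_le hη0 hxη
    have h4 : 1 / 4 * U ^ x ≤ (2 * J) * (12 * W) := by
      calc 1 / 4 * U ^ x ≤ ((U ^ x)⁻¹ / x * QI G η γ) * U ^ x := by gcongr
        _ = 1 / x * QI G η γ := h3
        _ ≤ (2 * J) * (12 * W) := by gcongr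
    linarith
  have h2 : c0 / 2 * (X:ℝ) ^ (β / 8) ≤ U ^ x := by
    have h3 : U ^ x = c0 ^ x * (X:ℝ) ^ (x / 8) := by
      rw [hU, Real.mul_rpow hc00.le (by positivity), ← Real.rpow_mul hX0.le]
      congr 2
      ring
    have h4 : c0 ≤ c0 ^ x := by
      have := Real.rpow_le_rpow_of_exponent_ge hc00 hc01 (by linarith : x ≤ 1)
      rwa [Real.rpow_one] at this
    have h5 : (X:ℝ) ^ (β / 8) ≤ 2 * (X:ℝ) ^ (x / 8) := by
      have h6 : (X:ℝ) ^ (β / 8) ≤ (X:ℝ) ^ (x / 8 + η / 8) := by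
        apply Real.rpow_le_rpow_of_exponent_le (by linarith)
        rw [hx]; linarith
      have h7 : (X:ℝ) ^ (η / 8) ≤ 2 := by
        have h8 : (X:ℝ) ≤ (2:ℝ) ^ (J:ℝ) := by
          rw [Real.rpow_natCast]; exact_mod_cast hXJ
        calc (X:ℝ) ^ (η / 8) ≤ ((2:ℝ) ^ (J:ℝ)) ^ (η / 8) :=
              Real.rpow_le_rpow hX0.le h8 (by positivity)
          _ = (2:ℝ) ^ (1 / 16 : ℝ) := by
              rw [← Real.rpow_mul (by norm_num)]
              congr 1
              rw [hη]; field_simp; norm_num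
          _ ≤ (2:ℝ) ^ (1 : ℝ) := Real.rpow_le_rpow_of_exponent_le (by norm_num) (by norm_num)
          _ = 2 := Real.rpow_one 2
      rw [Real.rpow_add hX0] at h6
      calc (X:ℝ) ^ (β / 8) ≤ (X:ℝ) ^ (x / 8) * (X:ℝ) ^ (η / 8) := h6
        _ ≤ (X:ℝ) ^ (x / 8) * 2 := by gcongr
        _ = _ := by ring
    rw [h3]
    calc c0 / 2 * (X:ℝ) ^ (β / 8) ≤ c0 / 2 * (2 * (X:ℝ) ^ (x / 8)) := by gcongr
      _ = c0 * (X:ℝ) ^ (x / 8) := by ring
      _ ≤ _ := by gcongr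
  have h3 : c0 / 2 * (X:ℝ) ^ (β / 8) ≤ 96 * J * W := by linarith
  have hJW : 0 ≤ J * W := by positivity
  calc (X:ℝ) ^ (β / 8) = (2 / c0) * (c0 / 2 * (X:ℝ) ^ (β / 8)) := by field_simp
    _ ≤ (2 / c0) * (96 * J * W) := by gcongr
    _ = 192 / c0 * (J * W) := by ring
    _ ≤ 200 / c0 * (J * W) := by
        gcongr
        norm_num
    _ = 200 / c0 * J * W := by ring

end Pool.Agent.HD64
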