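import Mathlib
import Pool.Agent.CZ.CL2
import Pool.Agent.H6.QEdge

/-!
# HeatD (MP_553913_nt): bound for `L(s, E_d)` in the half plane `Re s ≥ 1` by `MM`
-/

set_option autoImplicit false

open Complex Finset MeasureTheory

namespace Pool.Agent.HD64

open Pool.Agent.ZD (Lf MM)
open Pool.Agent.CZ (cl2_MM_nonneg cl2_right cl2_left cl2_gauss)

lemma Lf_le_four {d : ℕ} (hd : Squarefree d) {z : ℂ} (hz : 5 / 2 ≤ z.re) : ‖Lf d z‖ ≤ 4 := by
  rw [(ZD.Lf_spec hd).2 z (by linarith)]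
  refine (H6.edge_upper (d : ℤ) (δ := 1) one_pos (by linarith)).trans ?_
  norm_num

lemma Lf_ge {d : ℕ} (hd : Squarefree d) {z : ℂ} (hz : 2 ≤ z.re) : 1 / 9 ≤ ‖Lf d z‖ := by
  rw [(ZD.Lf_spec hd).2 z (by linarith)]
  refine le_trans ?_ (H6.edge_lower (d : ℤ) (δ := 1 / 2) (by norm_num) (by linarith))
  norm_num

/-- bound in the half plane `Re s ≥ 1` -/
theorem sup_le_MM : ∃ C : ℝ, 1 ≤ C ∧ ∀ (J d : ℕ) (a : ℝ) (z : ℂ), 1 ≤ J → Squarefree d →
    d ≤ 2 ^ J → 0 < a → a ≤ 1 / 8 → 1 ≤ z.re →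
    ‖Lf d z‖ ≤ C * (1 + |z.im|) * Real.exp (a * |z.im|) * (MM a (1 / (2 * J)) d + 1) := by
  refine ⟨4 * Real.exp 6, ?_, ?_⟩
  · have := Real.add_one_le_exp (6:ℝ)
    linarith
  intro J d a z0 hJ hd hdJ ha ha8 hz0
  set η : ℝ := 1 / (2 * J) with hη
  have hJ1 : (1:ℝ) ≤ J := by exact_mod_cast hJ
  have hη0 : 0 < η := by rw [hη]; positivity
  have hη1 : η ≤ 1 / 2 := by
    rw [hη]
    apply one_div_le_one_div_of_le (by norm_num)
    linarith
  have hdη : (d : ℝ) ^ (2 * η) ≤ 2 := by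
    have h1 : (d : ℝ) ≤ (2 : ℝ) ^ (J : ℝ) := by
      rw [Real.rpow_natCast]; exact_mod_cast hdJ
    have h2 : 2 * η = 1 / J := by rw [hη]; field_simp
    calc (d : ℝ) ^ (2 * η) ≤ ((2 : ℝ) ^ (J : ℝ)) ^ (2 * η) :=
          Real.rpow_le_rpow (by positivity) h1 (by linarith)
      _ = 2 := by
          rw [← Real.rpow_mul (by norm_num), h2]
          have : (J : ℝ) * (1 / J) = 1 := by field_simp
          rw [this, Real.rpow_one]
  set P := MM a η d with hP
  have hP0 : 0 ≤ P := cl2_MM_nonneg a η d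
  set t := z0.im with ht
  have ht0 : 0 ≤ |t| := abs_nonneg _
  have hat : 1 ≤ Real.exp (a * |t|) := Real.one_le_exp (by positivity)
  rcases le_or_gt (5 / 2) z0.re with hbig | hbig
  · refine (Lf_le_four hd hbig).trans ?_
    have h6 : 1 ≤ Real.exp 6 := Real.one_le_exp (by norm_num)
    calc (4:ℝ) = 4 * 1 * 1 * 1 * 1 := by norm_num
      _ ≤ 4 * Real.exp 6 * (1 + |t|) * Real.exp (a * |t|) * (P + 1) := by
          gcongr
          · linarith
          · linarith
  set f : ℂ → ℂ := fun z => Lf d z * Complex.exp ((z - z0) ^ 2) with hf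
  have hLd : Differentiable ℂ (Lf d) := (ZD.Lf_spec hd).1
  have hfd : Differentiable ℂ f := hLd.mul (by fun_prop)
  have hnexp : ∀ z : ℂ, ‖Complex.exp ((z - z0) ^ 2)‖ =
      Real.exp ((z.re - z0.re) ^ 2 - (z.im - t) ^ 2) := by
    intro z
    rw [Complex.norm_exp]
    congr 1
    simp [sq, Complex.mul_re, ht]
  set B : ℝ := 4 * (1 + |t|) * Real.exp (a * |t|) * (P + 1) * Real.exp 4 * Real.exp 1 with hB
  have hu : ∀ v : ℝ, |v| ≤ |t| + |v - t| := by
    intro v
    have := abs_add_le t (v - t)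
    rwa [add_sub_cancel] at this
  have hexp : ∀ z : ℂ, 1 - η ≤ z.re → z.re ≤ 5 / 2 →
      Real.exp ((z.re - z0.re) ^ 2 - (z.im - t) ^ 2) ≤
        Real.exp 4 * Real.exp (-|z.im - t| ^ 2) := by
    intro z h1 h2
    rw [← Real.exp_add]
    apply Real.exp_le_exp.2
    rw [sq_abs]
    have h3 : (z.re - z0.re) ^ 2 ≤ 2 ^ 2 := by
      apply sq_le_sq' <;> linarith
    linarith
  have hexp2 : ∀ v : ℝ, Real.exp (a * |v|) ≤ Real.exp (a * |t|) * Real.exp (a * |v - t|) := by
    intro v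
    rw [← Real.exp_add]
    apply Real.exp_le_exp.2
    have := hu v
    nlinarith
  have hgen : ∀ z : ℂ, 1 - η ≤ z.re → z.re ≤ 5 / 2 →
      ‖Lf d z‖ ≤ 4 * ((1 + |t|) * (1 + |z.im - t|)) * ((P + 1) *
        (Real.exp (a * |t|) * Real.exp (a * |z.im - t|))) → ‖f z‖ ≤ B := by
    intro z h1 h2 h3
    rw [hf]
    simp only
    rw [norm_mul, hnexp]
    have h4 := hexp z h1 h2
    have hgauss := cl2_gauss (abs_nonneg (z.im - t)) ha8
    calc ‖Lf d z‖ * Real.exp ((z.re - z0.re) ^ 2 - (z.im - t) ^ 2)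
        ≤ (4 * ((1 + |t|) * (1 + |z.im - t|)) * ((P + 1) *
            (Real.exp (a * |t|) * Real.exp (a * |z.im - t|)))) *
          (Real.exp 4 * Real.exp (-|z.im - t| ^ 2)) := by
          gcongr
      _ = (4 * (1 + |t|) * Real.exp (a * |t|) * (P + 1) * Real.exp 4) *
          ((1 + |z.im - t|) * (Real.exp (a * |z.im - t|) * Real.exp (-|z.im - t| ^ 2))) := by ring
      _ ≤ (4 * (1 + |t|) * Real.exp (a * |t|) * (P + 1) * Real.exp 4) * Real.exp 1 := by
          gcongr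
      _ = B := by rw [hB]
  have hleft : ∀ (z : ℂ), z.re = 1 - η → ‖f z‖ ≤ B := by
    intro z hz
    apply hgen z (by linarith) (by linarith)
    have e : z = 1 - η + (z.im : ℂ) * I := by
      apply Complex.ext
      · simp; linarith
      · simp
    have h1 := cl2_left hd hη0 hη1 hdη z.im
    rw [← e] at h1
    have h2 := cl2_right hd ha hη0 (-z.im)
    rw [abs_neg] at h2
    have h32 : 2 * (3 / 2 + |z.im|) ≤ 4 * ((1 + |t|) * (1 + |z.im - t|)) := by
      have := hu z.im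
      nlinarith [abs_nonneg t, mul_nonneg (abs_nonneg t) (abs_nonneg (z.im - t)),
        abs_nonneg (z.im - t)]
    calc ‖Lf d z‖ ≤ 2 * (3 / 2 + |z.im|) * ‖Lf d (1 + η + ((-z.im : ℝ) : ℂ) * I)‖ := h1
      _ ≤ (4 * ((1 + |t|) * (1 + |z.im - t|))) * (MM a η d * Real.exp (a * |z.im|)) := by
          gcongr
      _ ≤ (4 * ((1 + |t|) * (1 + |z.im - t|))) * ((P + 1) *
            (Real.exp (a * |t|) * Real.exp (a * |z.im - t|))) := by
          gcongr
          · linarith
          · exact hexp2 z.im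
  have hright : ∀ (z : ℂ), z.re = 5 / 2 → ‖f z‖ ≤ B := by
    intro z hz
    apply hgen z (by linarith) (by linarith)
    have hv0 := abs_nonneg (z.im - t)
    have h1 : ‖Lf d z‖ ≤ 4 := Lf_le_four hd hz.ge
    have h2 : 1 ≤ Real.exp (a * |z.im - t|) := Real.one_le_exp (by positivity)
    calc ‖Lf d z‖ ≤ 4 * (1 * 1) * (1 * (1 * 1)) := by linarith
      _ ≤ _ := by
          gcongr <;> linarith
  have hgrow : ∃ c' < Real.pi / ((5 / 2) - (1 - η)), ∃ B,
      f =O[Filter.comap (abs ∘ im) Filter.atTop ⊓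
        Filter.principal (re ⁻¹' Set.Ioo (1 - η) (5 / 2))]
        fun z => Real.exp (B * Real.exp (c' * |z.im|)) := by
    obtain ⟨K, hK⟩ := ZD.growth hd (a := 1) one_pos (σ₁ := 1 - η) (by linarith) (5 / 2)
    refine ⟨1, by rw [lt_div_iff₀ (by linarith)]; linarith [Real.pi_gt_three], 1, ?_⟩
    apply Asymptotics.IsBigO.of_bound (K * Real.exp 4)
    apply Filter.Eventually.filter_mono inf_le_right
    rw [Filter.eventually_principal]
    intro z hz
    have hz0 : 1 - η < z.re := hz.1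
    have hz1 : z.re < 5 / 2 := hz.2
    rw [Real.norm_of_nonneg (Real.exp_pos _).le, hf]
    simp only
    rw [norm_mul, hnexp]
    have h1 := hK z hz0.le hz1.le
    have hKn : 0 ≤ K * Real.exp (1 * |z.im|) := (norm_nonneg _).trans h1
    have hK0 : 0 ≤ K := by
      by_contra hneg
      rw [not_le] at hneg
      have := mul_neg_of_neg_of_pos hneg (Real.exp_pos (1 * |z.im|))
      linarith
    have h2 : Real.exp ((z.re - z0.re) ^ 2 - (z.im - t) ^ 2) ≤ Real.exp 4 := by
      refine (hexp z hz0.le hz1.le).trans ?_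
      have h5 : Real.exp (-|z.im - t| ^ 2) ≤ 1 := by
        apply Real.exp_le_one_iff.2
        have := sq_nonneg (|z.im - t|)
        linarith
      calc Real.exp 4 * Real.exp (-|z.im - t| ^ 2) ≤ Real.exp 4 * 1 := by gcongr
        _ = _ := mul_one _
    have h3 : Real.exp (1 * |z.im|) ≤ Real.exp (1 * Real.exp (1 * |z.im|)) := by
      apply Real.exp_le_exp.2
      have := Real.add_one_le_exp (1 * |z.im|)
      linarith
    calc ‖Lf d z‖ * Real.exp ((z.re - z0.re) ^ 2 - (z.im - t) ^ 2)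
        ≤ (K * Real.exp (1 * |z.im|)) * Real.exp 4 := by gcongr
      _ = K * Real.exp 4 * Real.exp (1 * |z.im|) := by ring
      _ ≤ _ := by gcongr
  have hmain := PhragmenLindelof.vertical_strip (z := z0) (f := f) (C := B)
    hfd.diffContOnCl hgrow hleft hright (by linarith) hbig.le
  rw [hf] at hmain
  simp only at hmain
  rw [sub_self] at hmain
  norm_num at hmain
  refine hmain.trans ?_
  rw [hB]
  have h2 : Real.exp 4 * Real.exp 1 ≤ Real.exp 6 := by
    rw [← Real.exp_add]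
    apply Real.exp_le_exp.2
    norm_num
  calc 4 * (1 + |t|) * Real.exp (a * |t|) * (P + 1) * Real.exp 4 * Real.exp 1
      = 4 * (1 + |t|) * Real.exp (a * |t|) * (P + 1) * (Real.exp 4 * Real.exp 1) := by ring
    _ ≤ 4 * (1 + |t|) * Real.exp (a * |t|) * (P + 1) * Real.exp 6 := by
        gcongr
    _ = _ := by ring

end Pool.Agent.HD64
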