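import Mathlib
import Pool.Agent.HD64.Sup
import Pool.Agent.HD64.Det
import Pool.Agent.ZD.Z

/-!
# HeatD (MP_553913_nt): count of the twists with an exceptional value
-/

set_option autoImplicit false

open Complex MeasureTheory Set Filter Topology

namespace Pool.Agent.HD64

open Pool.Agent.ZD

/-- the two second moments -/
theorem fam_sums : ∃ B : ℕ, 1 ≤ B ∧ ∀ (X : ℕ) (T : ℝ), 3 ≤ X → 1 ≤ T → ∃ J : ℕ, 1 ≤ J ∧
    X ≤ 2 ^ J ∧ Real.log X ≤ J ∧ (J : ℝ) ≤ 3 * Real.log X ∧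
    ∑ d ∈ (Finset.Icc 1 X).filter Squarefree, MM (1 / (8 * T)) (1 / (2 * J)) d ^ 2 ≤
      X * (B * (T * Real.log X)) ^ B ∧
    ∑ d ∈ (Finset.Icc 1 X).filter Squarefree, KK ⌊(X : ℝ) ^ (1 / 4 : ℝ)⌋₊ (1 / (2 * J)) d ≤
      X * (B * (T * Real.log X)) ^ B := by
  obtain ⟨AR, hAR⟩ := R_main
  obtain ⟨CK, hCK1, hCK⟩ := KK_sum (fun X Y b hb => ortho X Y b hb) (fun K => square_sum K)
  set B : ℕ := 24 * AR + 6 * CK + 4 with hB
  refine ⟨B, by omega, fun X T hX hT => ?_⟩
  have hXr : (3:ℝ) ≤ X := by exact_mod_cast hX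
  have hX0 : (0:ℝ) < X := by linarith
  have hT0 : 0 < T := by linarith
  have hlog1 : 1 ≤ Real.log X := by
    rw [Real.le_log_iff_exp_le hX0]
    have := Real.exp_one_lt_d9
    linarith
  set J : ℕ := Nat.log 2 X + 1 with hJ
  have hJ1 : 1 ≤ J := by omega
  have hJr : (1:ℝ) ≤ J := by exact_mod_cast hJ1
  have hXJ : X ≤ 2 ^ J := (Nat.lt_pow_succ_log_self (by norm_num) X).le
  have hJX : (2:ℝ) ^ J ≤ 2 * X := by
    have h1 : 2 ^ Nat.log 2 X ≤ X := Nat.pow_log_le_self 2 (by omega)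
    have h2 : 2 ^ J ≤ 2 * X := by
      rw [hJ, pow_succ]; omega
    exact_mod_cast h2
  have hJlog : (J:ℝ) ≤ 3 * Real.log X := by
    have h1 : ((2 ^ Nat.log 2 X : ℕ) : ℝ) ≤ X := by
      exact_mod_cast Nat.pow_log_le_self 2 (by omega)
    have h2 := Real.log_le_log (by positivity) h1
    push_cast at h2
    rw [Real.log_pow] at h2
    have h3 := Real.log_two_gt_d9
    have h4 : (J:ℝ) = Nat.log 2 X + 1 := by rw [hJ]; push_cast; ring
    have h5 : (0:ℝ) ≤ Nat.log 2 X := by positivity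
    have h6 : (0.69:ℝ) * Nat.log 2 X ≤ Nat.log 2 X * Real.log 2 := by
      rw [mul_comm]
      exact mul_le_mul_of_nonneg_left (by linarith) h5
    rw [h4]
    linarith
  have hlogJ : Real.log X ≤ J := by
    have h1 : (X:ℝ) ≤ 2 ^ J := by exact_mod_cast hXJ
    have h2 := Real.log_le_log hX0 h1
    rw [Real.log_pow] at h2
    have h3 : Real.log 2 ≤ 1 := by linarith [Real.log_two_lt_d9]
    calc Real.log X ≤ J * Real.log 2 := h2
      _ ≤ J * 1 := by gcongr
      _ = J := mul_one _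
  set η : ℝ := 1 / (2 * J) with hη
  have hη0 : 0 < η := by rw [hη]; positivity
  have hη1 : η ≤ 1 := by
    rw [hη, div_le_one (by positivity)]; linarith
  set P : ℝ := T * Real.log X with hP
  have hP1 : 1 ≤ P := by rw [hP]; exact one_le_mul_of_one_le_of_one_le hT hlog1
  have hB1 : (1:ℝ) ≤ B := by
    have : 1 ≤ B := by omega
    exact_mod_cast this
  have hBP : 1 ≤ (B:ℝ) * P := one_le_mul_of_one_le_of_one_le hB1 hP1
  have hJP : (J:ℝ) * T ≤ 3 * P := by
    rw [hP]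
    calc (J:ℝ) * T ≤ 3 * Real.log X * T := by gcongr
      _ = _ := by ring
  have hBc : (B:ℝ) = 24 * AR + 6 * CK + 4 := by rw [hB]; push_cast; ring
  refine ⟨J, hJ1, hXJ, hlogJ, hJlog, ?_, ?_⟩
  · set a : ℝ := 1 / (8 * T) with ha
    have ha0 : 0 < a := by rw [ha]; positivity
    have ha8 : a ≤ 1 / 8 := by
      rw [ha]
      apply one_div_le_one_div_of_le (by norm_num) (by linarith)
    have h1 : ∑ d ∈ (Finset.Icc 1 X).filter Squarefree, (MM a η d) ^ 2 ≤
        ∑ d ∈ (Finset.Icc 1 (2 ^ J)).filter Squarefree, (MM a η d) ^ 2 := by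
      apply Finset.sum_le_sum_of_subset_of_nonneg
      · intro d hd
        rw [Finset.mem_filter, Finset.mem_Icc] at hd ⊢
        exact ⟨⟨hd.1.1, hd.1.2.trans hXJ⟩, hd.2⟩
      · intro d _ _; positivity
    refine h1.trans ((hAR J a hJ1 ha0 ha8).trans ?_)
    have h2 : (AR : ℝ) * J / a = 8 * AR * (J * T) := by
      rw [ha]; field_simp
    rw [h2]
    have h3 : 8 * (AR:ℝ) * (J * T) ≤ B * P := by
      calc 8 * (AR:ℝ) * (J * T) ≤ 8 * AR * (3 * P) := by gcongr
        _ = (24 * AR) * P := by ring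
        _ ≤ B * P := by
            gcongr
            rw [hBc]
            have : (0:ℝ) ≤ 6 * CK + 4 := by positivity
            linarith
    calc (8 * (AR:ℝ) * (J * T)) ^ AR * 2 ^ J ≤ (B * P) ^ AR * (2 * X) := by gcongr
      _ ≤ (B * P) ^ AR * ((B * P) * X) := by
          gcongr
          have : (2:ℝ) ≤ B := by
            have : 2 ≤ B := by omega
            exact_mod_cast this
          calc (2:ℝ) = 2 * 1 := by ring
            _ ≤ B * P := by gcongr
      _ = X * (B * P) ^ (AR + 1) := by rw [pow_succ]; ring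
      _ ≤ X * (B * P) ^ B := by
          gcongr
          omega
  · set Y := ⌊(X : ℝ) ^ (1 / 4 : ℝ)⌋₊ with hY
    have hY4 : (Y:ℝ) ^ 4 ≤ X := by
      have h1 : (Y:ℝ) ≤ (X : ℝ) ^ (1 / 4 : ℝ) := Nat.floor_le (by positivity)
      calc (Y:ℝ) ^ 4 ≤ ((X : ℝ) ^ (1 / 4 : ℝ)) ^ 4 := by gcongr
        _ = (X:ℝ) := by
          rw [← Real.rpow_natCast, ← Real.rpow_mul hX0.le]; norm_num
    have h1 : ∑ d ∈ (Finset.Icc 1 X).filter Squarefree, KK Y η d ≤
        ∑ d ∈ Finset.Icc 1 X, KK Y η d := by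
      apply Finset.sum_le_sum_of_subset_of_nonneg (Finset.filter_subset _ _)
      intro d _ _
      unfold KK
      exact integral_nonneg fun t => by positivity
    refine h1.trans ((hCK X Y η hη0 hη1 (by omega) hY4).trans ?_)
    have h2 : (CK : ℝ) / η = 2 * CK * J := by
      rw [hη]; field_simp
    rw [h2]
    have h3 : 2 * (CK:ℝ) * J ≤ B * P := by
      have hJP' : (J:ℝ) ≤ 3 * P := by
        refine le_trans ?_ hJP
        exact le_mul_of_one_le_right (by linarith) hT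
      calc 2 * (CK:ℝ) * J ≤ 2 * CK * (3 * P) := by gcongr
        _ = (6 * CK) * P := by ring
        _ ≤ B * P := by
            gcongr
            rw [hBc]
            have : (0:ℝ) ≤ 24 * AR + 4 := by positivity
            linarith
    calc Real.pi * (X * (2 * (CK:ℝ) * J) ^ CK) ≤ 4 * (X * (B * P) ^ CK) := by
          gcongr
          exact Real.pi_lt_four.le
      _ ≤ (B * P) * (X * (B * P) ^ CK) := by
          gcongr
          have : (4:ℝ) ≤ B := by
            have : 4 ≤ B := by omega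
            exact_mod_cast this
          calc (4:ℝ) = 4 * 1 := by ring
            _ ≤ B * P := by gcongr
      _ = X * (B * P) ^ (CK + 1) := by rw [pow_succ]; ring
      _ ≤ X * (B * P) ^ B := by
          gcongr
          omega

open Classical in
/-- the twists with a large value in `Re s ≥ 1` or a small value in `Re s ≥ 1 + δ` -/
noncomputable def BadD (X : ℕ) (T W δ : ℝ) : Finset ℕ :=
  (Finset.Icc 1 X).filter (fun d => Squarefree d ∧
    ((∃ z : ℂ, 1 ≤ z.re ∧ |z.im| ≤ T ∧ Real.exp W < ‖Lf d z‖) ∨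
      ∃ z : ℂ, 1 + δ ≤ z.re ∧ |z.im| ≤ T ∧ ‖Lf d z‖ < Real.exp (-W)))

theorem BadD_card : ∃ A : ℕ, 1 ≤ A ∧ ∀ (X : ℕ) (T W δ : ℝ), 3 ≤ X → 1 ≤ T → 3 ≤ W →
    1 / Real.log X ≤ δ →
    ((BadD X T W δ).card : ℝ) ≤
      A * (T * Real.log X) ^ A * (Real.exp (-2 * W) + (X : ℝ) ^ (-(δ / 8))) * X := by
  classical
  obtain ⟨B, hB1, hfam⟩ := fam_sums
  obtain ⟨C1, hC1, hsup⟩ := sup_le_MM
  obtain ⟨C2, hC2, hmol⟩ := mol_sup
  obtain ⟨C3, hC3, hdet⟩ := det_main
  -- constants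
  set C : ℝ := 4 * C1 + 2 * C2 + C3 with hC
  have hC0 : 1 ≤ C := by rw [hC]; linarith
  refine ⟨⌈200 * C ^ 2 * (B:ℝ) ^ B⌉₊ + (B + 4), by omega, ?_⟩
  intro X T W δ hX hT hW hδ
  set A : ℕ := ⌈200 * C ^ 2 * (B:ℝ) ^ B⌉₊ + (B + 4) with hA
  obtain ⟨J, hJ1, hXJ, hlogJ, hJlog, hSM, hSK⟩ := hfam X T hX hT
  have hXr : (3:ℝ) ≤ X := by exact_mod_cast hX
  have hX0 : (0:ℝ) < X := by linarith
  have hT0 : 0 < T := by linarith
  have hlog1 : 1 ≤ Real.log X := by
    rw [Real.le_log_iff_exp_le hX0]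
    have := Real.exp_one_lt_d9
    linarith
  have hJr : (1:ℝ) ≤ J := by exact_mod_cast hJ1
  have hJδ : 1 / (J:ℝ) ≤ δ := by
    refine le_trans ?_ hδ
    apply one_div_le_one_div_of_le (by linarith) hlogJ
  set η : ℝ := 1 / (2 * J) with hη
  set a : ℝ := 1 / (8 * T) with ha
  have ha0 : 0 < a := by rw [ha]; positivity
  have ha8 : a ≤ 1 / 8 := by
    rw [ha]
    apply one_div_le_one_div_of_le (by norm_num) (by linarith)
  have haT : a * T = 1 / 8 := by rw [ha]; field_simp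
  set Y := ⌊(X : ℝ) ^ (1 / 4 : ℝ)⌋₊ with hY
  set SF := (Finset.Icc 1 X).filter Squarefree with hSF
  set P : ℝ := T * Real.log X with hP
  have hP1 : 1 ≤ P := by rw [hP]; exact one_le_mul_of_one_le_of_one_le hT hlog1
  have hB1r : (1:ℝ) ≤ B := by exact_mod_cast hB1
  have hBP : 1 ≤ (B:ℝ) * P := one_le_mul_of_one_le_of_one_le hB1r hP1
  set V : ℝ := ((B:ℝ) * P) ^ B with hV
  have hV1 : 1 ≤ V := one_le_pow₀ hBP
  have hMM0 : ∀ d : ℕ, 0 ≤ MM a η d := fun d => CZ.cl2_MM_nonneg a η d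
  have hKK0 : ∀ d : ℕ, 0 ≤ KK Y η d := by
    intro d
    unfold KK
    exact integral_nonneg fun t => by positivity
  -- the weights
  set w1 : ℕ → ℝ := fun d => C ^ 2 * T ^ 2 * (MM a η d ^ 2 + 1) * Real.exp (-2 * W) with hw1
  set w2 : ℕ → ℝ := fun d => C ^ 2 * 8 * J ^ 2 * (T ^ 2 * (KK Y η d) + 1) * Real.exp (-2 * W) with hw2
  set w3 : ℕ → ℝ := fun d => C * J * (1 + T * (MM a η d * √(KK Y η d))) * (X : ℝ) ^ (-(δ / 8)) with hw3
  have hE : Real.exp (-2 * W) * (Real.exp W) ^ 2 = 1 := by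
    rw [← Real.exp_nat_mul, ← Real.exp_add]
    simp
  have hE0 : 0 < Real.exp (-2 * W) := Real.exp_pos _
  have hXδ0 : 0 < (X : ℝ) ^ (-(δ / 8)) := Real.rpow_pos_of_pos hX0 _
  have hw1n : ∀ d, 0 ≤ w1 d := fun d => by rw [hw1]; positivity
  have hw2n : ∀ d, 0 ≤ w2 d := fun d => by
    have := hKK0 d
    rw [hw2]; positivity
  have hw3n : ∀ d, 0 ≤ w3 d := fun d => by
    have := hMM0 d
    rw [hw3]; positivity
  have hpoint : ∀ d ∈ BadD X T W δ, 1 ≤ 2 * w1 d + w2 d + w3 d := by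
    intro d hd
    unfold BadD at hd
    rw [Finset.mem_filter, Finset.mem_Icc] at hd
    obtain ⟨⟨hd1, hdX⟩, hsq, hor⟩ := hd
    have hM := hMM0 d
    have hK := hKK0 d
    have n1 := hw1n d
    have n2 := hw2n d
    have n3 := hw3n d
    rcases hor with ⟨z, hz1, hzT, hz⟩ | ⟨z, hz1, hzT, hz⟩
    · -- large value
      have h1 := hsup J d a z hJ1 hsq (hdX.trans hXJ) ha0 ha8 hz1
      have h2 : Real.exp (a * |z.im|) ≤ 2 := by
        have h3 : a * |z.im| ≤ 1 / 8 := by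
          calc a * |z.im| ≤ a * T := by gcongr
            _ = 1 / 8 := haT
        have h4 : Real.exp (1 / 8) ≤ 2 := by
          have := Real.exp_bound' (x := 1 / 8) (by norm_num) (by norm_num) (n := 3) (by norm_num)
          norm_num [Finset.sum_range_succ, Nat.factorial] at this
          linarith
        exact (Real.exp_le_exp.mpr h3).trans h4
      have h3 : Real.exp W ≤ C * T * (MM a η d + 1) := by
        calc Real.exp W ≤ C1 * (1 + |z.im|) * Real.exp (a * |z.im|) * (MM a η d + 1) :=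
              (hz.trans_le h1).le
          _ ≤ C1 * (T + T) * 2 * (MM a η d + 1) := by gcongr
          _ = (4 * C1) * T * (MM a η d + 1) := by ring
          _ ≤ C * T * (MM a η d + 1) := by
              gcongr
              rw [hC]; linarith
      have h4 : (Real.exp W) ^ 2 ≤ C ^ 2 * T ^ 2 * (2 * (MM a η d ^ 2 + 1)) := by
        calc (Real.exp W) ^ 2 ≤ (C * T * (MM a η d + 1)) ^ 2 := by gcongr
          _ = C ^ 2 * T ^ 2 * (MM a η d + 1) ^ 2 := by ring
          _ ≤ C ^ 2 * T ^ 2 * (2 * (MM a η d ^ 2 + 1)) := by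
              gcongr
              nlinarith [sq_nonneg (MM a η d - 1)]
      have h5 : 1 ≤ 2 * w1 d := by
        calc 1 = Real.exp (-2 * W) * (Real.exp W) ^ 2 := hE.symm
          _ ≤ Real.exp (-2 * W) * (C ^ 2 * T ^ 2 * (2 * (MM a η d ^ 2 + 1))) := by gcongr
          _ = 2 * w1 d := by rw [hw1]; ring
      linarith
    · -- small value
      have hz2 : z.re ≤ 2 := by
        by_contra hcon
        push Not at hcon
        have h1 := Lf_ge hsq hcon.le
        have h2 : Real.exp (-W) ≤ Real.exp (-3) := Real.exp_le_exp.mpr (by linarith)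
        have h3 : Real.exp (-3) < 1 / 9 := by
          rw [Real.exp_neg, ← one_div]
          apply one_div_lt_one_div_of_lt (by norm_num)
          have h4 : Real.exp 3 = Real.exp 1 ^ 3 := by
            rw [← Real.exp_nat_mul]; norm_num
          rw [h4]
          have h5 := Real.exp_one_gt_d9
          calc (9:ℝ) < (2.7182818283:ℝ) ^ 3 := by norm_num
            _ ≤ _ := by gcongr
        linarith
      rcases le_or_gt (Real.exp W / 2) ‖H6.mol d Y z‖ with h6 | h6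
      · have h1 := hmol J Y d T z hJ1 hT (by linarith) hz2 hzT
        have h3 : Real.exp W ≤ C * J * (1 + T * √(KK Y η d)) := by
          calc Real.exp W ≤ 2 * (C2 * J * (1 + T * √(KK Y η d))) := by linarith
            _ = (2 * C2) * J * (1 + T * √(KK Y η d)) := by ring
            _ ≤ _ := by
                gcongr
                rw [hC]; linarith
        have h4 : (Real.exp W) ^ 2 ≤ C ^ 2 * 8 * J ^ 2 * (T ^ 2 * (KK Y η d) + 1) := by
          have h7 : √(KK Y η d) ^ 2 = KK Y η d := Real.sq_sqrt hK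
          have h8 : 0 ≤ √(KK Y η d) := Real.sqrt_nonneg _
          calc (Real.exp W) ^ 2 ≤ (C * J * (1 + T * √(KK Y η d))) ^ 2 := by gcongr
            _ = C ^ 2 * J ^ 2 * (1 + T * √(KK Y η d)) ^ 2 := by ring
            _ ≤ C ^ 2 * J ^ 2 * (8 * (T ^ 2 * (KK Y η d) + 1)) := by
                gcongr
                have h9 : T ^ 2 * KK Y η d = (T * √(KK Y η d)) ^ 2 := by rw [mul_pow, h7]
                rw [h9]
                nlinarith [sq_nonneg (T * √(KK Y η d) - 1), sq_nonneg (T * √(KK Y η d))]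
            _ = _ := by ring
        have h5 : 1 ≤ w2 d := by
          calc 1 = Real.exp (-2 * W) * (Real.exp W) ^ 2 := hE.symm
            _ ≤ Real.exp (-2 * W) * (C ^ 2 * 8 * J ^ 2 * (T ^ 2 * (KK Y η d) + 1)) := by gcongr
            _ = w2 d := by rw [hw2]; ring
        linarith
      · have h7 : ‖Lf d z * H6.mol d Y z‖ ≤ 1 / 2 := by
          rw [norm_mul]
          calc ‖Lf d z‖ * ‖H6.mol d Y z‖ ≤ Real.exp (-W) * (Real.exp W / 2) := by gcongr
            _ = (Real.exp (-W) * Real.exp W) / 2 := by ring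
            _ = 1 / 2 := by rw [← Real.exp_add]; simp
        have h1 := hdet X J d T δ z hX hJ1 hXJ hT hsq hz1 hz2 hJδ hzT h7
        have h5 : 1 ≤ w3 d := by
          have h8 : (X : ℝ) ^ (δ / 8) * (X : ℝ) ^ (-(δ / 8)) = 1 := by
            rw [← Real.rpow_add hX0]; simp
          calc 1 = (X : ℝ) ^ (δ / 8) * (X : ℝ) ^ (-(δ / 8)) := h8.symm
            _ ≤ (C3 * J * (1 + T * (MM a η d * √(KK Y η d)))) * (X : ℝ) ^ (-(δ / 8)) := by
                gcongr
            _ ≤ (C * J * (1 + T * (MM a η d * √(KK Y η d)))) * (X : ℝ) ^ (-(δ / 8)) := by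
                gcongr
                rw [hC]; linarith
            _ = w3 d := by rw [hw3]
        linarith
  -- sums
  have hSFcard : (SF.card : ℝ) ≤ X := by
    have : SF.card ≤ (Finset.Icc 1 X).card := Finset.card_filter_le _ _
    rw [Nat.card_Icc] at this
    have h5 : SF.card ≤ X := by omega
    exact_mod_cast h5
  have hJP : (J:ℝ) ≤ 3 * P := by
    refine hJlog.trans ?_
    rw [hP]
    gcongr
    exact le_mul_of_one_le_left (by linarith) hT
  have hTP : T ≤ P := by rw [hP]; exact le_mul_of_one_le_right hT0.le hlog1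
  have hs1 : ∑ d ∈ SF, w1 d ≤ 2 * C ^ 2 * P ^ 4 * V * Real.exp (-2 * W) * X := by
    have e1 : ∑ d ∈ SF, w1 d = C ^ 2 * T ^ 2 * (∑ d ∈ SF, MM a η d ^ 2 + SF.card) *
        Real.exp (-2 * W) := by
      rw [hw1, ← Finset.sum_mul, ← Finset.mul_sum, Finset.sum_add_distrib]
      simp
    rw [e1]
    calc C ^ 2 * T ^ 2 * (∑ d ∈ SF, MM a η d ^ 2 + SF.card) * Real.exp (-2 * W)
        ≤ C ^ 2 * T ^ 2 * (X * V + X * V) * Real.exp (-2 * W) := by
          gcongr
          exact hSFcard.trans (le_mul_of_one_le_right hX0.le hV1)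
      _ = 2 * C ^ 2 * T ^ 2 * V * Real.exp (-2 * W) * X := by ring
      _ ≤ 2 * C ^ 2 * P ^ 4 * V * Real.exp (-2 * W) * X := by
          gcongr
          calc T ^ 2 ≤ P ^ 2 := by gcongr
            _ ≤ P ^ 4 := pow_le_pow_right₀ hP1 (by norm_num)
  have hs2 : ∑ d ∈ SF, w2 d ≤ 144 * C ^ 2 * P ^ 4 * V * Real.exp (-2 * W) * X := by
    have e1 : ∑ d ∈ SF, w2 d = C ^ 2 * 8 * J ^ 2 * (T ^ 2 * ∑ d ∈ SF, KK Y η d + SF.card) *
        Real.exp (-2 * W) := by
      rw [hw2, ← Finset.sum_mul, ← Finset.mul_sum, Finset.sum_add_distrib, ← Finset.mul_sum]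
      simp
    rw [e1]
    have hKs : 0 ≤ ∑ d ∈ SF, KK Y η d := Finset.sum_nonneg (fun d _ => hKK0 d)
    generalize ∑ d ∈ SF, KK Y η d = SK at hKs hSK ⊢
    have hT2 : 1 ≤ T ^ 2 := one_le_pow₀ hT
    calc C ^ 2 * 8 * J ^ 2 * (T ^ 2 * SK + SF.card) * Real.exp (-2 * W)
        ≤ C ^ 2 * 8 * (3 * P) ^ 2 * (P ^ 2 * (X * V) + P ^ 2 * (X * V)) * Real.exp (-2 * W) := by
          gcongr
          refine hSFcard.trans ?_
          calc (X:ℝ) = 1 * (X * 1) := by ring
            _ ≤ P ^ 2 * (X * V) := by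
                gcongr
                exact one_le_pow₀ hP1
      _ = 144 * C ^ 2 * P ^ 4 * V * Real.exp (-2 * W) * X := by ring
  have hs3 : ∑ d ∈ SF, w3 d ≤ 6 * C ^ 2 * P ^ 4 * V * (X : ℝ) ^ (-(δ / 8)) * X := by
    have e1 : ∑ d ∈ SF, w3 d = C * J * (SF.card + T * ∑ d ∈ SF, MM a η d * √(KK Y η d)) *
        (X : ℝ) ^ (-(δ / 8)) := by
      rw [hw3, ← Finset.sum_mul, ← Finset.mul_sum, Finset.sum_add_distrib, ← Finset.mul_sum]
      simp
    have h5 : ∑ d ∈ SF, MM a η d * √(KK Y η d) ≤ X * V := by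
      have h6 := Real.sum_mul_le_sqrt_mul_sqrt SF (fun d => MM a η d) (fun d => √(KK Y η d))
      refine h6.trans ?_
      have h7 : ∑ d ∈ SF, √(KK Y η d) ^ 2 = ∑ d ∈ SF, KK Y η d := by
        apply Finset.sum_congr rfl
        intro d _
        exact Real.sq_sqrt (hKK0 d)
      rw [h7]
      calc √(∑ d ∈ SF, MM a η d ^ 2) * √(∑ d ∈ SF, KK Y η d) ≤ √(X * V) * √(X * V) := by gcongr
        _ = X * V := Real.mul_self_sqrt (by positivity)
    rw [e1]
    have hC0' : (0:ℝ) < C := by linarith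
    have hCC : C ≤ C ^ 2 := by nlinarith
    have hMs : 0 ≤ ∑ d ∈ SF, MM a η d * √(KK Y η d) :=
      Finset.sum_nonneg (fun d _ => mul_nonneg (hMM0 d) (Real.sqrt_nonneg _))
    generalize ∑ d ∈ SF, MM a η d * √(KK Y η d) = SX at hMs h5 ⊢
    calc C * J * (SF.card + T * SX) * (X : ℝ) ^ (-(δ / 8))
        ≤ C ^ 2 * (3 * P) * (P * (X * V) + P * (X * V)) * (X : ℝ) ^ (-(δ / 8)) := by
          gcongr
          refine hSFcard.trans ?_
          calc (X:ℝ) = 1 * (X * 1) := by ring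
            _ ≤ P * (X * V) := by gcongr
      _ = 6 * C ^ 2 * P ^ 2 * V * (X : ℝ) ^ (-(δ / 8)) * X := by ring
      _ ≤ 6 * C ^ 2 * P ^ 4 * V * (X : ℝ) ^ (-(δ / 8)) * X := by
          gcongr 6 * C ^ 2 * ?_ * V * (X : ℝ) ^ (-(δ / 8)) * X
          exact pow_le_pow_right₀ hP1 (by norm_num)
  have hsub : BadD X T W δ ⊆ SF := by
    intro d hd
    unfold BadD at hd
    rw [Finset.mem_filter] at hd
    rw [hSF, Finset.mem_filter]
    exact ⟨hd.1, hd.2.1⟩
  have hcard : ((BadD X T W δ).card : ℝ) ≤ ∑ d ∈ SF, (2 * w1 d + w2 d + w3 d) := by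
    have h1 : ((BadD X T W δ).card : ℝ) = ∑ d ∈ BadD X T W δ, (1:ℝ) := by simp
    rw [h1]
    refine (Finset.sum_le_sum hpoint).trans ?_
    apply Finset.sum_le_sum_of_subset_of_nonneg hsub
    intro d _ _
    have n1 := hw1n d
    have n2 := hw2n d
    have n3 := hw3n d
    linarith
  rw [Finset.sum_add_distrib, Finset.sum_add_distrib, ← Finset.mul_sum] at hcard
  set E := Real.exp (-2 * W) + (X : ℝ) ^ (-(δ / 8)) with hEdef
  have hCP : 0 ≤ C ^ 2 * P ^ 4 * V := by positivity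
  have hfin : ((BadD X T W δ).card : ℝ) ≤ 200 * C ^ 2 * P ^ 4 * V * E * X := by
    have h1 : 0 ≤ C ^ 2 * P ^ 4 * V * Real.exp (-2 * W) * X := by positivity
    have h2 : 0 ≤ C ^ 2 * P ^ 4 * V * (X : ℝ) ^ (-(δ / 8)) * X := by positivity
    have h3 : 200 * C ^ 2 * P ^ 4 * V * E * X = 200 * (C ^ 2 * P ^ 4 * V * Real.exp (-2 * W) * X) +
        200 * (C ^ 2 * P ^ 4 * V * (X : ℝ) ^ (-(δ / 8)) * X) := by
      rw [hEdef]; ring
    rw [h3]
    linarith
  refine hfin.trans ?_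
  have hE0' : 0 < E := by positivity
  have h1 : 200 * C ^ 2 * P ^ 4 * V = (200 * C ^ 2 * (B:ℝ) ^ B) * P ^ (B + 4) := by
    rw [hV, mul_pow, pow_add]; ring
  rw [h1]
  have h2 : 200 * C ^ 2 * (B:ℝ) ^ B ≤ A := by
    rw [hA]
    push_cast
    have := Nat.le_ceil (200 * C ^ 2 * (B:ℝ) ^ B)
    have h3 : (0:ℝ) ≤ (B:ℝ) + 4 := by positivity
    linarith
  have h3 : P ^ (B + 4) ≤ P ^ A := pow_le_pow_right₀ hP1 (by omega)
  gcongr

end Pool.Agent.HD64
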