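import Mathlib
import Pool.Agent.ZD.F1
import Pool.Agent.H6.QDens

/-!
# HeatD (MP_553913_nt): from bounds of `L` to the zeros of the heat flow
-/

set_option autoImplicit false

open Real MeasureTheory Set Filter Topology

namespace Pool.Agent.HD64

open Pool.Agent.H5 (Lser)
open Pool.Agent.H6
open Pool.Agent.ZD (Lf)

lemma Q_ge {d : ℕ} : (4:ℝ) * d ^ 2 ≤ (H5.Q d : ℕ) := by
  have h : 4 * d ^ 2 ≤ H5.Q d := by
    unfold H5.Q
    split_ifs
    · exact le_rfl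
    · nlinarith [sq_nonneg d]
  exact_mod_cast h

lemma M_ge (d : ℕ) : (d:ℝ) / 2 ≤ √(H5.Q d) / π := by
  have h1 : (2:ℝ) * d ≤ √(H5.Q d) := by
    apply Real.le_sqrt_of_sq_le
    have := Q_ge (d := d)
    linarith [mul_pow (2:ℝ) (d:ℝ) 2]
  rw [div_le_div_iff₀ (by norm_num) Real.pi_pos]
  have h2 := Real.pi_lt_four
  have h3 : (0:ℝ) ≤ d := Nat.cast_nonneg d
  nlinarith

lemma Lt_eq_Lf {d : ℕ} (hd : Squarefree d) {M : ℝ} {Λ : ℂ → ℂ} (E : EdData d M Λ) {s : ℂ}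
    (hs : 0 < s.re) : Lt M Λ s = Lf d s := by
  have h1 := ZD.Lf_eq hd E hs
  have hM' : (M : ℂ) ≠ 0 := by exact_mod_cast E.Mpos.ne'
  have h2 : (M : ℂ) ^ s * Complex.Gamma s ≠ 0 := by
    apply mul_ne_zero
    · rw [Complex.cpow_ne_zero_iff]; left; exact hM'
    · exact Complex.Gamma_ne_zero_of_re_pos hs
  unfold Lt
  rw [← h1, mul_div_cancel_left₀ _ h2]

/-- large flow times -/
theorem heat_big : ∃ ℓ1 : ℝ, 200 ≤ ℓ1 ∧ ∀ (d : ℕ) (Λ : ℂ → ℂ) (w : ℂ), Squarefree d →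
    FEData (√(H5.Q d) / π) Λ (Lser d) w → EdData d (√(H5.Q d) / π) Λ →
    ∀ ℓ t : ℝ, ℓ1 ≤ ℓ → ℓ ≤ Real.log d → 2 / ℓ ≤ t → t ≤ 1 / 8 → ∀ s : ℂ,
      heatInt t Λ s = 0 → s.re = 1 ∧ deriv (heatInt t Λ) s ≠ 0 := by
  obtain ⟨Q0, -, hQ0⟩ := exists_sharp (ε := 1) one_pos
  set ℓ1 : ℝ := |Q0| + 200 with hℓ1
  have a5 : 0 ≤ |Q0| := abs_nonneg _
  refine ⟨ℓ1, by linarith, ?_⟩
  intro d Λ w hd D E ℓ t hℓℓ hℓd hbig ht8 s hs
  have hM := D.M_pos
  set M : ℝ := √(H5.Q d) / π with hMdef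
  have hd0 : (0:ℝ) < d := by
    have : 0 < d := Nat.pos_of_ne_zero hd.ne_zero
    exact_mod_cast this
  have hℓ200 : 200 ≤ ℓ := by linarith
  have hℓ0 : 0 < ℓ := by linarith
  have ht : 0 < t := lt_of_lt_of_le (by positivity) hbig
  have hMd : (d:ℝ) / 2 ≤ M := M_ge d
  have hpos : (0:ℝ) < (2 * π * M) ^ 2 * (1 + |s.im|) ^ 2 := by positivity
  have hlogQ : ℓ ≤ Real.log ((2 * π * M) ^ 2 * (1 + |s.im|) ^ 2) := by
    have h1 : (d:ℝ) ^ 2 ≤ (2 * π * M) ^ 2 * (1 + |s.im|) ^ 2 := by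
      rw [← mul_pow]
      apply pow_le_pow_left₀ (by positivity)
      have hpi := Real.pi_gt_three
      have h2 : (d:ℝ) ≤ 2 * π * M := by nlinarith
      have h3 : 0 ≤ |s.im| := abs_nonneg _
      calc (d:ℝ) ≤ 2 * π * M := h2
        _ = (2 * π * M) * 1 := by ring
        _ ≤ (2 * π * M) * (1 + |s.im|) := by
          gcongr
          linarith
    have h2 := Real.log_le_log (by positivity) h1
    rw [Real.log_pow] at h2
    push_cast at h2
    linarith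
  have hconc := hQ0 d M Λ w D E.eqL t s.im ht ht8 (by
    have h3 : Real.exp ℓ ≤ (2 * π * M) ^ 2 * (1 + |s.im|) ^ 2 := by
      rw [Real.le_log_iff_exp_le hpos] at hlogQ
      exact hlogQ
    have h4 := Real.add_one_le_exp ℓ
    have h5 := le_abs_self Q0
    linarith) (by
    calc (1:ℝ) + 1 = 2 / ℓ * ℓ := by field_simp; norm_num
      _ ≤ t * Real.log ((2 * π * M) ^ 2 * (1 + |s.im|) ^ 2) := by gcongr)
  exact ⟨D.zero_re_of_conc ht ht8 hs hconc, D.zero_simple_of_conc ht ht8 hs hconc⟩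

/-- bounds of `L` give the zeros of the heat flow -/
theorem heat_good : ∃ ℓ1 : ℝ, 200 ≤ ℓ1 ∧ ∀ (d : ℕ) (Λ : ℂ → ℂ) (w : ℂ), Squarefree d →
    FEData (√(H5.Q d) / π) Λ (Lser d) w → EdData d (√(H5.Q d) / π) Λ →
    ∀ ℓ τ t : ℝ, ℓ1 ≤ ℓ → ℓ ≤ Real.log d → 0 < τ →
      4 / kap * Real.log ℓ ≤ τ * ℓ ^ 2 → τ ≤ t → t ≤ 1 / 8 → ∀ s : ℂ,
      (∀ z : ℂ, 1 ≤ z.re → |z.im - s.im| ≤ 3 → ‖Lf d z‖ ≤ Real.exp (kap * (τ * ℓ ^ 2))) →
      (∀ z : ℂ, 1 + τ * ℓ / 24 ≤ z.re → |z.im - s.im| ≤ 3 →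
        Real.exp (-(kap * (τ * ℓ ^ 2))) ≤ ‖Lf d z‖) →
      heatInt t Λ s = 0 → s.re = 1 ∧ deriv (heatInt t Λ) s ≠ 0 := by
  obtain ⟨ℓ1, hℓ1, hbigt⟩ := heat_big
  refine ⟨ℓ1, hℓ1, ?_⟩
  intro d Λ w hd D E ℓ τ t hℓℓ hℓd hτ0 hElog' htτ ht8 s hup hlow hs
  have hM := D.M_pos
  set M : ℝ := √(H5.Q d) / π with hMdef
  have hd0 : (0:ℝ) < d := by
    have : 0 < d := Nat.pos_of_ne_zero hd.ne_zero
    exact_mod_cast this
  have hℓ200 : 200 ≤ ℓ := by linarith
  have hℓ0 : 0 < ℓ := by linarith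
  have hloglog : 1 ≤ Real.log ℓ := by
    rw [Real.le_log_iff_exp_le hℓ0]
    have := Real.exp_one_lt_d9
    linarith
  set E0 : ℝ := τ * ℓ ^ 2 with hE
  have hkap : kap = 1 / 1179648 := rfl
  have hkap0 : 0 < kap := by rw [hkap]; norm_num
  have hElog : 4 * Real.log ℓ ≤ kap * E0 := by
    calc 4 * Real.log ℓ = kap * (4 / kap * Real.log ℓ) := by field_simp
      _ ≤ kap * E0 := by gcongr
  have hE0 : 0 < E0 := by positivity
  have ht : 0 < t := lt_of_lt_of_le hτ0 htτ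
  have hMd : (d:ℝ) / 2 ≤ M := M_ge d
  have hlogM : ℓ - 0.7 ≤ Real.log M := by
    have h1 := Real.log_le_log (by positivity) hMd
    rw [Real.log_div hd0.ne' (by norm_num)] at h1
    have h2 := Real.log_two_lt_d9
    linarith
  have hpt : (1:ℝ) ≤ ‖pt s.im 0‖ := one_le_norm_pt s.im
  have hlam : ℓ / 2 ≤ Real.log (M * ‖pt s.im 0‖) - 2 := by
    rw [Real.log_mul hM.ne' (by linarith)]
    have : 0 ≤ Real.log ‖pt s.im 0‖ := Real.log_nonneg hpt
    linarith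
  rcases le_total (2 / ℓ) t with hbig | hsmall
  · exact hbigt d Λ w hd D E ℓ t hℓℓ hℓd hbig ht8 s hs
  · -- small t
    have htℓ : t * ℓ ≤ 2 := by
      rw [le_div_iff₀ hℓ0] at hsmall
      exact hsmall
    have hEt : E0 ≤ t * ℓ ^ 2 := by
      rw [hE]
      gcongr
    set γ : ℝ := t * ℓ / 3 with hγ
    have hγ0 : 0 < γ := by positivity
    have hγ1 : γ ≤ 1 := by rw [hγ]; linarith
    have hSS : SmallS γ t := by
      apply smallS_nat ht hℓ200 htℓ
      refine le_trans ?_ hEt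
      rw [hkap] at hElog
      linarith
    have hγτ : τ * ℓ / 24 ≤ γ / 8 := by
      rw [hγ]
      have : τ * ℓ ≤ t * ℓ := by gcongr
      linarith
    have hr0 : 0 < γ / 16 := by positivity
    have G := goodQ_of_window (x := s.im) hM D.diff (a := γ / 4) (r := γ / 16) (W := kap * E0) hr0
      (by linarith) (by linarith) (by positivity)
      (by
        intro z hz hzi
        rw [Lt_eq_Lf hd E (by linarith)]
        exact hup z hz hzi)
      (by
        intro z hz hzi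
        rw [Lt_eq_Lf hd E (by linarith)]
        exact hlow z (by linarith) hzi)
    have hγ2 : γ ^ 2 = t * (t * ℓ ^ 2) / 9 := by rw [hγ]; ring
    have hkE : kap * E0 ≤ 9 * γ ^ 2 / (1179648 * t) := by
      rw [hγ2, hkap]
      rw [le_div_iff₀ (by positivity)]
      nlinarith
    obtain ⟨h1, h2⟩ := half_lt_allQ D G ht hSS hγ0 hγ1 rfl
      (by
        refine hkE.trans ?_
        rw [div_le_iff₀ (by positivity)]
        have e1 : γ ^ 2 * (1 / (4 * t)) / 128 * (1179648 * t) = 2304 * γ ^ 2 := by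
          field_simp; norm_num
        rw [e1]
        have : 0 ≤ γ ^ 2 := by positivity
        linarith)
      (by
        rw [div_le_iff₀ hr0]
        have e1 : γ * (1 / (4 * t)) / 128 * (γ / 16) = γ ^ 2 / (8192 * t) := by
          field_simp; norm_num
        rw [e1]
        calc 8 * (kap * E0) ≤ 8 * (9 * γ ^ 2 / (1179648 * t)) := by gcongr
          _ = γ ^ 2 / (16384 * t) := by field_simp; norm_num
          _ ≤ _ := by
            gcongr
            norm_num)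
      (by
        rw [div_le_iff₀ (by positivity)]
        have e1 : 1 / (4 * t) / 16 * (γ / 16) ^ 2 = γ ^ 2 / (16384 * t) := by
          field_simp; norm_num
        rw [e1]
        calc 8 * (kap * E0) ≤ 8 * (9 * γ ^ 2 / (1179648 * t)) := by gcongr
          _ = γ ^ 2 / (16384 * t) := by field_simp; norm_num)
      (by
        calc 3 * γ = 2 * t * (ℓ / 2) := by rw [hγ]; ring
          _ ≤ _ := by gcongr)
    have hre := D.zero_re_of_half ht ht8 hs h1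
    exact ⟨hre, D.zero_simple_of_pos ht ht8 hs hre h2⟩

end Pool.Agent.HD64
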