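import Mathlib
import Pool.Agent.HD64.Count
import Pool.Agent.HD64.Win

/-!
# HeatD (MP_553913_nt): zeros of the heat flow in the family `E_d`
-/

set_option autoImplicit false

open Real MeasureTheory Set Filter Topology

namespace Pool.Agent.HD64

open Pool.Agent.H5 (Lser)
open Pool.Agent.H6
open Pool.Agent.ZD (Lf)

/-- a zero of the heat flow which is not a simple zero on the critical line -/
def Exc (Λ : ℂ → ℂ) (t : ℝ) (s : ℂ) : Prop :=
  heatInt t Λ s = 0 ∧ ¬ (s.re = 1 ∧ deriv (heatInt t Λ) s ≠ 0)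

/-- a family of completed L-functions -/
def IsFam (Λ : ℕ → ℂ → ℂ) : Prop := ∀ d : ℕ, Squarefree d →
  ∃ w : ℂ, FEData (√(H5.Q d) / π) (Λ d) (Lser d) w ∧ EdData d (√(H5.Q d) / π) (Λ d)

/-- the exceptional twists -/
def ExcSet (Λ : ℕ → ℂ → ℂ) (A : ℝ) (X : ℕ) (τ : ℝ) : Set ℕ :=
  {d : ℕ | 1 ≤ d ∧ d ≤ X ∧ Squarefree d ∧ ∃ (t : ℝ) (s : ℂ), 0 < t ∧ t ≤ 1 / 8 ∧
    τ + A * Real.log (|s.im| + 2) / Real.log X ^ 2 ≤ t ∧ Exc (Λ d) t s}

lemma ExcSet_finite (Λ : ℕ → ℂ → ℂ) (A : ℝ) (X : ℕ) (τ : ℝ) : (ExcSet Λ A X τ).Finite :=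
  (Finset.finite_toSet (Finset.Icc 1 X)).subset fun d hd => by
    rw [Finset.mem_coe, Finset.mem_Icc]
    exact ⟨hd.1, hd.2.1⟩

lemma ExcSet_ncard_le (Λ : ℕ → ℂ → ℂ) (A : ℝ) (X : ℕ) (τ : ℝ) :
    ((ExcSet Λ A X τ).ncard : ℝ) ≤ X := by
  have h1 : ExcSet Λ A X τ ⊆ ↑(Finset.Icc 1 X) := fun d hd => by
    rw [Finset.mem_coe, Finset.mem_Icc]
    exact ⟨hd.1, hd.2.1⟩
  have h2 := Set.ncard_le_ncard h1 (Finset.finite_toSet _)
  rw [Set.ncard_coe_finset, Nat.card_Icc] at h2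
  have h3 : (ExcSet Λ A X τ).ncard ≤ X := by omega
  exact_mod_cast h3

theorem fam_main : ∃ A : ℕ, ∀ (Λ : ℕ → ℂ → ℂ), IsFam Λ → ∀ (X : ℕ) (τ : ℝ), 3 ≤ X → 0 ≤ τ →
    τ * Real.log X ≤ 1 →
    ((ExcSet Λ A X τ).ncard : ℝ) ≤
      A * Real.log X ^ A * Real.exp (-(τ * Real.log X ^ 2 / (3 * 10 ^ 6))) * X := by
  classical
  obtain ⟨A0, hA01, hcard⟩ := BadD_card
  obtain ⟨ℓ1, hℓ1, hbigt⟩ := heat_big
  obtain ⟨ℓ2, hℓ2, hgood⟩ := heat_good
  have hkap : kap = 1 / 1179648 := rfl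
  have hkap0 : 0 < kap := by rw [hkap]; norm_num
  set R0 : ℝ := Real.exp (2 * (ℓ1 + ℓ2)) + 1 + 4 * A0 * 8 ^ A0 + 2 / kap * (A0 + 1) with hR0
  set A : ℕ := ⌈R0⌉₊ + A0 + 10 with hA
  have hR00 : 0 ≤ R0 := by positivity
  have hAR : R0 ≤ A := by
    have h1 := Nat.le_ceil R0
    have h2 : ((⌈R0⌉₊ : ℕ) : ℝ) ≤ A := by
      rw [hA]; push_cast
      have : (0:ℝ) ≤ (A0:ℝ) := Nat.cast_nonneg _
      linarith
    linarith
  have hAexp : Real.exp (2 * (ℓ1 + ℓ2)) ≤ A := by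
    have h1 : 0 ≤ 1 + 4 * A0 * 8 ^ A0 + 2 / kap * (A0 + 1) := by positivity
    linarith
  have hAc : 1 + 4 * (A0:ℝ) * 8 ^ A0 ≤ A := by
    have h1 : 0 ≤ 2 / kap * ((A0:ℝ) + 1) := by positivity
    have h2 := Real.exp_pos (2 * (ℓ1 + ℓ2))
    linarith
  have hAk : (A0:ℝ) + 1 ≤ kap / 2 * A := by
    have h1 : 2 / kap * ((A0:ℝ) + 1) ≤ A := by
      have h1 : 0 ≤ 1 + 4 * (A0:ℝ) * 8 ^ A0 := by positivity
      have h2 := Real.exp_pos (2 * (ℓ1 + ℓ2))
      linarith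
    calc (A0:ℝ) + 1 = kap / 2 * (2 / kap * ((A0:ℝ) + 1)) := by field_simp
      _ ≤ _ := by gcongr
  have hA0 : (0:ℝ) ≤ A := Nat.cast_nonneg A
  have hA10 : (10:ℝ) ≤ A := by
    have : 10 ≤ A := by omega
    exact_mod_cast this
  refine ⟨A, ?_⟩
  intro Λ hΛ X τ hX hτ hτ1
  have hXr : (3:ℝ) ≤ X := by exact_mod_cast hX
  have hX0 : (0:ℝ) < X := by linarith
  set L : ℝ := Real.log X with hL
  have hL1 : 1 ≤ L := by
    rw [hL, Real.le_log_iff_exp_le hX0]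
    have := Real.exp_one_lt_d9
    linarith
  have hL0 : 0 < L := by linarith
  set ℓ : ℝ := L / 2 with hℓ
  have hexpL : Real.exp L = X := by rw [hL]; exact Real.exp_log hX0
  have hτL2 : τ * L ^ 2 ≤ L := by
    calc τ * L ^ 2 = (τ * L) * L := by ring
      _ ≤ 1 * L := by gcongr
      _ = L := one_mul L
  have hτL20 : 0 ≤ τ * L ^ 2 := by positivity
  have hLA : 1 ≤ L ^ A := one_le_pow₀ hL1
  -- trivial cases
  have htriv : 1 ≤ A * L ^ A * Real.exp (-(τ * L ^ 2 / (3 * 10 ^ 6))) →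
      ((ExcSet Λ A X τ).ncard : ℝ) ≤ A * L ^ A * Real.exp (-(τ * L ^ 2 / (3 * 10 ^ 6))) * X := by
    intro h
    refine (ExcSet_ncard_le Λ A X τ).trans ?_
    exact le_mul_of_one_le_left hX0.le h
  rcases lt_or_ge ℓ (ℓ1 + ℓ2) with hsm | hbg
  · apply htriv
    have h1 : 1 ≤ Real.exp (2 * (ℓ1 + ℓ2)) * Real.exp (-(τ * L ^ 2 / (3 * 10 ^ 6))) := by
      rw [← Real.exp_add]
      apply Real.one_le_exp
      linarith
    calc (1:ℝ) = 1 * 1 := by ring
      _ ≤ L ^ A * (Real.exp (2 * (ℓ1 + ℓ2)) * Real.exp (-(τ * L ^ 2 / (3 * 10 ^ 6)))) := by gcongr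
      _ ≤ L ^ A * (A * Real.exp (-(τ * L ^ 2 / (3 * 10 ^ 6)))) := by gcongr
      _ = _ := by ring
  have hℓ200 : 200 ≤ ℓ := by linarith
  have hℓ0 : 0 < ℓ := by linarith
  have hLℓ : L = 2 * ℓ := by rw [hℓ]; ring
  have hlogℓ : 1 ≤ Real.log ℓ := by
    rw [Real.le_log_iff_exp_le hℓ0]
    have := Real.exp_one_lt_d9
    linarith
  rcases lt_or_ge (τ * ℓ ^ 2) (4 / kap * Real.log ℓ) with hEs | hEb
  · apply htriv
    have h1 : τ * L ^ 2 / (3 * 10 ^ 6) ≤ 10 * Real.log ℓ := by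
      have e1 : τ * L ^ 2 = 4 * (τ * ℓ ^ 2) := by rw [hLℓ]; ring
      rw [e1, div_le_iff₀ (by norm_num)]
      rw [hkap] at hEs
      norm_num at hEs
      linarith
    have h2 : 1 ≤ L ^ 10 * Real.exp (-(τ * L ^ 2 / (3 * 10 ^ 6))) := by
      have e1 : Real.exp (10 * Real.log ℓ) ≤ L ^ 10 := by
        have e2 : 10 * Real.log ℓ = Real.log (ℓ ^ 10) := by rw [Real.log_pow]; norm_num
        rw [e2, Real.exp_log (by positivity)]
        gcongr
        linarith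
      calc (1:ℝ) = Real.exp (10 * Real.log ℓ) * Real.exp (-(10 * Real.log ℓ)) := by
            rw [← Real.exp_add]; simp
        _ ≤ L ^ 10 * Real.exp (-(τ * L ^ 2 / (3 * 10 ^ 6))) := by gcongr
    have h3 : L ^ 10 ≤ L ^ A := pow_le_pow_right₀ hL1 (by omega)
    calc (1:ℝ) = 1 * 1 := by ring
      _ ≤ A * (L ^ 10 * Real.exp (-(τ * L ^ 2 / (3 * 10 ^ 6)))) := by
          gcongr
          linarith
      _ ≤ A * (L ^ A * Real.exp (-(τ * L ^ 2 / (3 * 10 ^ 6)))) := by gcongr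
      _ = _ := by ring
  -- main case
  have hEl : 4 * Real.log ℓ ≤ kap * (τ * ℓ ^ 2) := by
    calc 4 * Real.log ℓ = kap * (4 / kap * Real.log ℓ) := by field_simp
      _ ≤ _ := by gcongr
  have hE4 : 4 ≤ kap * (τ * ℓ ^ 2) := by linarith
  have hE12 : 12 ≤ τ * ℓ ^ 2 := by
    rw [hkap] at hE4
    linarith
  have hτ0 : 0 < τ := by
    have h1 : 0 < τ * ℓ ^ 2 := by linarith
    exact pos_of_mul_pos_left h1 (by positivity)
  set τk : ℕ → ℝ := fun k => τ + A * (k * Real.log 2) / L ^ 2 with hτk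
  have hlog2 : 0 < Real.log 2 := Real.log_pos (by norm_num)
  have hτkge : ∀ k, τ ≤ τk k := by
    intro k
    rw [hτk]
    have : 0 ≤ A * (k * Real.log 2) / L ^ 2 := by positivity
    linarith
  set W : ℕ → ℝ := fun k => kap * (τk k * ℓ ^ 2) with hW
  set δ : ℕ → ℝ := fun k => τk k * ℓ / 24 with hδ
  set N : ℕ := ⌊2 * L⌋₊ + 1 with hN
  have hsub : ExcSet Λ A X τ ⊆ ↑(Finset.Icc 1 (Nat.sqrt X) ∪
      (Finset.range N).biUnion (fun k => BadD X (2 ^ (k + 2)) (W k) (δ k))) := by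
    intro d hd
    obtain ⟨hd1, hdX, hsq, t, s, ht0, ht8, hts, hexc⟩ := hd
    rw [Finset.mem_coe, Finset.mem_union]
    by_cases hdsm : d ≤ Nat.sqrt X
    · left
      rw [Finset.mem_Icc]; exact ⟨hd1, hdsm⟩
    right
    have hd2 : X < d ^ 2 := by
      rw [sq]
      exact Nat.sqrt_lt.mp (not_le.mp hdsm)
    have hℓd : ℓ ≤ Real.log d := by
      have h1 : (X:ℝ) ≤ (d:ℝ) ^ 2 := by exact_mod_cast hd2.le
      have h2 := Real.log_le_log hX0 h1
      rw [Real.log_pow] at h2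
      push_cast at h2
      rw [hℓ, hL]
      linarith
    obtain ⟨w, D, E⟩ := hΛ d hsq
    obtain ⟨hzero, hnot⟩ := hexc
    have htlt : t < 2 / ℓ := by
      by_contra hcon
      exact hnot (hbigt d (Λ d) w hsq D E ℓ t (by linarith) hℓd (not_lt.mp hcon) ht8 s hzero)
    -- the dyadic height
    set y : ℝ := |s.im| + 2 with hy
    have hy0 : 0 ≤ |s.im| := abs_nonneg _
    have hy2 : 2 ≤ y := by linarith
    set k : ℕ := Nat.log 2 ⌊y⌋₊ with hk
    have hfl : 2 ≤ ⌊y⌋₊ := Nat.le_floor (by simpa using hy2)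
    have hk1 : ((2:ℝ) ^ k) ≤ y := by
      have h1 : 2 ^ k ≤ ⌊y⌋₊ := Nat.pow_log_le_self 2 (by omega)
      have h2 : ((2 ^ k : ℕ) : ℝ) ≤ ⌊y⌋₊ := by exact_mod_cast h1
      have h3 : ((⌊y⌋₊ : ℕ) : ℝ) ≤ y := Nat.floor_le (by linarith)
      push_cast at h2
      linarith
    have hk2 : y ≤ 2 ^ (k + 1) := by
      have h1 : ⌊y⌋₊ < 2 ^ (k + 1) := Nat.lt_pow_succ_log_self (by norm_num) _
      have h2 : ⌊y⌋₊ + 1 ≤ 2 ^ (k + 1) := h1
      have h3 : ((⌊y⌋₊ + 1 : ℕ) : ℝ) ≤ ((2 ^ (k + 1) : ℕ) : ℝ) := by exact_mod_cast h2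
      have h4 := Nat.lt_floor_add_one y
      push_cast at h3
      linarith
    have hklog : k * Real.log 2 ≤ Real.log y := by
      have h1 := Real.log_le_log (by positivity) hk1
      rwa [Real.log_pow] at h1
    have hτkt : τk k ≤ t := by
      refine le_trans ?_ hts
      rw [hτk]
      simp only
      gcongr
    have hkN : k ∈ Finset.range N := by
      rw [Finset.mem_range, hN]
      apply Nat.lt_succ_of_le
      apply Nat.le_floor
      have h1 : A * (k * Real.log 2) / L ^ 2 < 2 / ℓ := by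
        have : A * (k * Real.log 2) / L ^ 2 ≤ τk k := by rw [hτk]; simp only; linarith
        linarith
      rw [hLℓ, div_lt_div_iff₀ (by positivity) hℓ0] at h1
      have h2 : A * (k * Real.log 2) < 8 * ℓ := by
        have h3 : A * (k * Real.log 2) * ℓ < (8 * ℓ) * ℓ := by
          calc A * (k * Real.log 2) * ℓ < 2 * (2 * ℓ) ^ 2 := h1
            _ = (8 * ℓ) * ℓ := by ring
        exact lt_of_mul_lt_mul_right h3 hℓ0.le
      have h4 : (0.69:ℝ) ≤ Real.log 2 := by linarith [Real.log_two_gt_d9]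
      have h5 : (k:ℝ) * 6.9 ≤ A * (k * Real.log 2) := by
        calc (k:ℝ) * 6.9 = 10 * (k * 0.69) := by ring
          _ ≤ A * (k * Real.log 2) := by gcongr
      rw [hLℓ]
      have h6 : (0:ℝ) ≤ k := Nat.cast_nonneg k
      linarith
    rw [Finset.mem_biUnion]
    refine ⟨k, hkN, ?_⟩
    by_contra hnb
    apply hnot
    have hτk0 : 0 < τk k := lt_of_lt_of_le hτ0 (hτkge k)
    have hpow : (2:ℝ) ^ (k + 2) = 2 * 2 ^ (k + 1) := by ring
    have hheight : ∀ z : ℂ, |z.im - s.im| ≤ 3 → |z.im| ≤ 2 ^ (k + 2) := by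
      intro z hz
      have h1 : |z.im| ≤ |z.im - s.im| + |s.im| := by
        have := abs_add_le (z.im - s.im) s.im
        rwa [sub_add_cancel] at this
      have h2 : |s.im| = y - 2 := by rw [hy]; ring
      rw [hpow]
      linarith
    refine hgood d (Λ d) w hsq D E ℓ (τk k) t (by linarith) hℓd hτk0 ?_ hτkt ht8 s ?_ ?_ hzero
    · refine hEb.trans ?_
      have := hτkge k
      gcongr
    · intro z hz hzi
      by_contra hcon
      apply hnb
      unfold BadD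
      rw [Finset.mem_filter, Finset.mem_Icc]
      exact ⟨⟨hd1, hdX⟩, hsq, Or.inl ⟨z, hz, hheight z hzi, not_le.mp hcon⟩⟩
    · intro z hz hzi
      by_contra hcon
      apply hnb
      unfold BadD
      rw [Finset.mem_filter, Finset.mem_Icc]
      exact ⟨⟨hd1, hdX⟩, hsq, Or.inr ⟨z, hz, hheight z hzi, not_le.mp hcon⟩⟩
  -- counting
  have hterm : ∀ k ∈ Finset.range N, ((BadD X (2 ^ (k + 2)) (W k) (δ k)).card : ℝ) ≤
      (2 * A0 * 8 ^ A0 * L ^ A0 * Real.exp (-(kap / 2 * (τ * L ^ 2))) * X) * (1 / 2) ^ k := by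
    intro k _
    have hτk0 : 0 < τk k := lt_of_lt_of_le hτ0 (hτkge k)
    have hWk : kap * (τ * ℓ ^ 2) ≤ W k := by
      rw [hW]
      simp only
      have := hτkge k
      gcongr
    have hδk : 1 / Real.log X ≤ δ k := by
      rw [← hL, div_le_iff₀ hL0, hδ]
      simp only
      have h1 := hτkge k
      have h2 : τ * ℓ ^ 2 ≤ τk k * ℓ ^ 2 := by gcongr
      have h3 : τk k * ℓ / 24 * L = τk k * ℓ ^ 2 / 12 := by rw [hLℓ]; ring
      rw [h3]
      linarith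
    have h2k : (1:ℝ) ≤ 2 ^ (k + 2) := one_le_pow₀ (by norm_num)
    have h := hcard X (2 ^ (k + 2)) (W k) (δ k) hX h2k (by linarith) hδk
    refine h.trans ?_
    have hτkL : τk k * L ^ 2 = τ * L ^ 2 + A * (k * Real.log 2) := by
      rw [hτk]; field_simp
    have hE1 : Real.exp (-2 * W k) = Real.exp (-(kap / 2 * (τk k * L ^ 2))) := by
      congr 1
      rw [hW]
      simp only
      rw [hLℓ]; ring
    have hE2 : (X:ℝ) ^ (-(δ k / 8)) ≤ Real.exp (-(kap / 2 * (τk k * L ^ 2))) := by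
      rw [Real.rpow_def_of_pos hX0, ← hL]
      apply Real.exp_le_exp.mpr
      have h3 : L * -(δ k / 8) = -(τk k * L ^ 2 / 384) := by
        rw [hδ]
        simp only
        rw [hℓ]; ring
      rw [h3, hkap]
      have h4 : 0 ≤ τk k * L ^ 2 := by positivity
      linarith
    have hE3 : Real.exp (-(kap / 2 * (τk k * L ^ 2))) ≤
        Real.exp (-(kap / 2 * (τ * L ^ 2))) * ((1 / 2) ^ k * (1 / 2 ^ A0) ^ k) := by
      have h4 : (1 / 2 : ℝ) ^ k * (1 / 2 ^ A0) ^ k = Real.exp (-((A0 + 1) * (k * Real.log 2))) := by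
        rw [← mul_pow, one_div_mul_one_div, ← pow_succ', one_div, inv_pow, ← pow_mul,
          Real.exp_neg]
        congr 1
        have h5 : ((A0:ℝ) + 1) * (k * Real.log 2) = Real.log (2 ^ ((A0 + 1) * k)) := by
          rw [Real.log_pow]; push_cast; ring
        rw [h5, Real.exp_log (by positivity)]
      rw [h4, ← Real.exp_add]
      apply Real.exp_le_exp.mpr
      rw [hτkL]
      have h5 : ((A0:ℝ) + 1) * (k * Real.log 2) ≤ kap / 2 * A * (k * Real.log 2) := by gcongr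
      linarith
    have hpw : ((2:ℝ) ^ (k + 2) * L) ^ A0 ≤ 8 ^ A0 * L ^ A0 * (2 ^ A0) ^ k := by
      have h5 : ((2:ℝ) ^ (k + 2) * L) ^ A0 = 4 ^ A0 * L ^ A0 * (2 ^ A0) ^ k := by
        rw [mul_pow, pow_add, mul_pow, ← pow_mul 2 k A0, mul_comm k A0, pow_mul]
        norm_num
        ring
      rw [h5]
      gcongr
      norm_num
    have h2A : ((2:ℝ) ^ A0) ^ k * (1 / 2 ^ A0) ^ k = 1 := by
      rw [← mul_pow, mul_one_div_cancel (by positivity), one_pow]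
    calc (A0:ℝ) * (2 ^ (k + 2) * L) ^ A0 * (Real.exp (-2 * W k) + (X:ℝ) ^ (-(δ k / 8))) * X
        ≤ A0 * (8 ^ A0 * L ^ A0 * (2 ^ A0) ^ k) *
          (2 * (Real.exp (-(kap / 2 * (τ * L ^ 2))) * ((1 / 2) ^ k * (1 / 2 ^ A0) ^ k))) * X := by
          gcongr
          rw [hE1]
          linarith
      _ = (2 * A0 * 8 ^ A0 * L ^ A0 * Real.exp (-(kap / 2 * (τ * L ^ 2))) * X) * (1 / 2) ^ k *
            ((2 ^ A0) ^ k * (1 / 2 ^ A0) ^ k) := by ring
      _ = _ := by rw [h2A, mul_one]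
  have hgeo : ∑ k ∈ Finset.range N, (1 / 2 : ℝ) ^ k ≤ 2 := by
    have h1 := (summable_geometric_two).sum_le_tsum (Finset.range N) (fun k _ => by positivity)
    rwa [tsum_geometric_two] at h1
  have hc1 := Set.ncard_le_ncard hsub (Finset.finite_toSet _)
  rw [Set.ncard_coe_finset] at hc1
  have hc2 := Finset.card_union_le (Finset.Icc 1 (Nat.sqrt X))
    ((Finset.range N).biUnion (fun k => BadD X (2 ^ (k + 2)) (W k) (δ k)))
  rw [Nat.card_Icc] at hc2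
  have hc3 : (((Finset.range N).biUnion (fun k => BadD X (2 ^ (k + 2)) (W k) (δ k))).card : ℝ) ≤
      2 * (2 * A0 * 8 ^ A0 * L ^ A0 * Real.exp (-(kap / 2 * (τ * L ^ 2))) * X) := by
    have h1 : (((Finset.range N).biUnion (fun k => BadD X (2 ^ (k + 2)) (W k) (δ k))).card : ℝ) ≤
        ∑ k ∈ Finset.range N, ((BadD X (2 ^ (k + 2)) (W k) (δ k)).card : ℝ) := by
      exact_mod_cast Finset.card_biUnion_le
    refine h1.trans ((Finset.sum_le_sum hterm).trans ?_)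
    rw [← Finset.mul_sum, mul_comm]
    gcongr
  have hc4 : ((ExcSet Λ A X τ).ncard : ℝ) ≤ Nat.sqrt X +
      2 * (2 * A0 * 8 ^ A0 * L ^ A0 * Real.exp (-(kap / 2 * (τ * L ^ 2))) * X) := by
    have h1 : ((ExcSet Λ A X τ).ncard : ℝ) ≤ Nat.sqrt X +
        ((Finset.range N).biUnion (fun k => BadD X (2 ^ (k + 2)) (W k) (δ k))).card := by
      have h2 := hc1.trans hc2
      have h3 : Nat.sqrt X + 1 - 1 = Nat.sqrt X := by omega
      rw [h3] at h2
      exact_mod_cast h2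
    linarith
  refine hc4.trans ?_
  set Ex : ℝ := Real.exp (-(τ * L ^ 2 / (3 * 10 ^ 6))) with hEx
  have hEx1 : Real.exp (-(kap / 2 * (τ * L ^ 2))) ≤ Ex := by
    rw [hEx]
    apply Real.exp_le_exp.mpr
    rw [hkap]
    linarith
  have hsq : ((Nat.sqrt X : ℕ) : ℝ) ≤ Ex * X := by
    have h1 : ((Nat.sqrt X : ℕ) : ℝ) ≤ √(X:ℝ) := Real.nat_sqrt_le_real_sqrt
    have h2 : √(X:ℝ) = Real.exp (L / 2) := by
      rw [Real.exp_half, hexpL]
    have h3 : Ex * X = Real.exp (-(τ * L ^ 2 / (3 * 10 ^ 6)) + L) := by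
      rw [Real.exp_add, hexpL]
    rw [h3]
    refine (h1.trans (le_of_eq h2)).trans ?_
    apply Real.exp_le_exp.mpr
    linarith
  have hEx0 : 0 < Ex := Real.exp_pos _
  have hLA0 : L ^ A0 ≤ L ^ A := pow_le_pow_right₀ hL1 (by omega)
  calc ((Nat.sqrt X : ℕ) : ℝ) + 2 * (2 * A0 * 8 ^ A0 * L ^ A0 * Real.exp (-(kap / 2 * (τ * L ^ 2))) * X)
      ≤ 1 * L ^ A * (Ex * X) + 2 * (2 * A0 * 8 ^ A0 * L ^ A * Ex * X) := by
        have h1 : ((Nat.sqrt X : ℕ) : ℝ) ≤ 1 * L ^ A * (Ex * X) := by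
          refine hsq.trans ?_
          rw [one_mul]
          exact le_mul_of_one_le_left (by positivity) hLA
        gcongr
    _ = (1 + 4 * A0 * 8 ^ A0) * L ^ A * Ex * X := by ring
    _ ≤ A * L ^ A * Ex * X := by gcongr

end Pool.Agent.HD64
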