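import Mathlib
import Pool.Agent.HD64.Fam
import Pool.Agent.ZD.Final

/-!
# HeatD (MP_553913_nt): almost all twists
-/

set_option autoImplicit false

open Real MeasureTheory Set Filter Topology

namespace Pool.Agent.HD64

open Pool.Agent.H5 (Lser)
open Pool.Agent.H6
open Pool.Agent.ZD (Lf)

/-- the exceptional twists, second form -/
def ExcSet2 (Λ : ℕ → ℂ → ℂ) (C : ℝ) (X : ℕ) : Set ℕ :=
  {d : ℕ | 1 ≤ d ∧ d ≤ X ∧ Squarefree d ∧ ∃ (t : ℝ) (s : ℂ), 0 < t ∧ t ≤ 1 / 8 ∧
    C * Real.log ((|s.im| + 2) * Real.log d) / Real.log d ^ 2 ≤ t ∧ Exc (Λ d) t s}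

theorem fam_cor (B : ℕ) : ∃ C : ℝ, 0 < C ∧ ∀ (Λ : ℕ → ℂ → ℂ), IsFam Λ → ∀ X : ℕ, 3 ≤ X →
    ((ExcSet2 Λ C X).ncard : ℝ) ≤ C * (X / Real.log X ^ B) := by
  classical
  obtain ⟨A, hA⟩ := fam_main
  obtain ⟨C0, hC00, hC0⟩ := ZD.sqrt_le_div_log B
  set C1 : ℝ := 3 * 10 ^ 6 * (A + B) with hC1
  have hA0 : (0:ℝ) ≤ A := Nat.cast_nonneg A
  have hB0 : (0:ℝ) ≤ B := Nat.cast_nonneg B
  have hC10 : 0 ≤ C1 := by positivity
  set L1 : ℝ := 4 * C1 ^ 2 + 4 with hL1def
  set C : ℝ := A + 2 * C1 + C0 + L1 ^ B + 1 with hC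
  have hL1B : 0 ≤ L1 ^ B := by positivity
  have hC0' : 0 < C := by positivity
  refine ⟨C, hC0', ?_⟩
  intro Λ hΛ X hX
  have hXr : (3:ℝ) ≤ X := by exact_mod_cast hX
  have hX0 : (0:ℝ) < X := by linarith
  set L : ℝ := Real.log X with hL
  have hL1 : 1 ≤ L := by
    rw [hL, Real.le_log_iff_exp_le hX0]
    have := Real.exp_one_lt_d9
    linarith
  have hL0 : 0 < L := by linarith
  have hLB : 0 < L ^ B := by positivity
  have hfin : (ExcSet2 Λ C X).ncard ≤ X := by
    have h1 : ExcSet2 Λ C X ⊆ ↑(Finset.Icc 1 X) := fun d hd => by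
      rw [Finset.mem_coe, Finset.mem_Icc]
      exact ⟨hd.1, hd.2.1⟩
    have h2 := Set.ncard_le_ncard h1 (Finset.finite_toSet _)
    rw [Set.ncard_coe_finset, Nat.card_Icc] at h2
    omega
  rcases lt_or_ge L L1 with hsm | hbg
  · have h1 : ((ExcSet2 Λ C X).ncard : ℝ) ≤ X := by exact_mod_cast hfin
    refine h1.trans ?_
    have h2 : L ^ B ≤ C := by
      have : L ^ B ≤ L1 ^ B := by gcongr
      have h3 : 0 ≤ A + 2 * C1 + C0 := by positivity
      linarith
    rw [← mul_div_assoc, le_div_iff₀ hLB, mul_comm C]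
    gcongr
  · have hL4 : 4 ≤ L := by
      have : 0 ≤ 4 * C1 ^ 2 := by positivity
      linarith
    have hlogL : 0 ≤ Real.log L := Real.log_nonneg hL1
    set τ : ℝ := C1 * Real.log L / L ^ 2 with hτ
    have hτ0 : 0 ≤ τ := by positivity
    have hτL : τ * L ≤ 1 := by
      have h1 : Real.log L ≤ 2 * √L := by
        have h2 : Real.log L = 2 * Real.log (√L) := by
          rw [Real.log_sqrt hL0.le]; ring
        have h3 := Real.log_le_sub_one_of_pos (Real.sqrt_pos.mpr hL0)
        rw [h2]; linarith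
      have h4 : 2 * C1 ≤ √L := by
        apply Real.le_sqrt_of_sq_le
        have : (2 * C1) ^ 2 = 4 * C1 ^ 2 := by ring
        linarith
      have h5 : τ * L = C1 * Real.log L / L := by rw [hτ]; field_simp
      rw [h5, div_le_one hL0]
      calc C1 * Real.log L ≤ C1 * (2 * √L) := by gcongr
        _ = (2 * C1) * √L := by ring
        _ ≤ √L * √L := by gcongr
        _ = L := Real.mul_self_sqrt hL0.le
    have hmain := hA Λ hΛ X τ hX hτ0 hτL
    have hex : (A:ℝ) * L ^ A * Real.exp (-(τ * L ^ 2 / (3 * 10 ^ 6))) * X = A * (X / L ^ B) := by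
      have h1 : τ * L ^ 2 / (3 * 10 ^ 6) = (A + B) * Real.log L := by
        rw [hτ, hC1]; field_simp
      have h2 : Real.exp (-((A + B) * Real.log L)) = (L ^ (A + B))⁻¹ := by
        have h3 : ((A:ℝ) + B) * Real.log L = Real.log (L ^ (A + B)) := by
          rw [Real.log_pow]; push_cast; ring
        rw [h3, Real.exp_neg, Real.exp_log (by positivity)]
      rw [h1, h2, pow_add]
      field_simp
    rw [← hL, hex] at hmain
    have hsub : ExcSet2 Λ C X ⊆ ↑(Finset.Icc 1 (Nat.sqrt X)) ∪ ExcSet Λ A X τ := by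
      intro d hd
      obtain ⟨hd1, hdX, hsq, t, s, ht0, ht8, hts, hexc⟩ := hd
      by_cases hdsm : d ≤ Nat.sqrt X
      · left
        rw [Finset.mem_coe, Finset.mem_Icc]; exact ⟨hd1, hdsm⟩
      right
      refine ⟨hd1, hdX, hsq, t, s, ht0, ht8, le_trans ?_ hts, hexc⟩
      have hd0 : (0:ℝ) < d := by exact_mod_cast hd1
      have hd2 : X < d ^ 2 := by
        rw [sq]
        exact Nat.sqrt_lt.mp (not_le.mp hdsm)
      have hℓd : L / 2 ≤ Real.log d := by
        have h1 : (X:ℝ) ≤ (d:ℝ) ^ 2 := by exact_mod_cast hd2.le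
        have h2 := Real.log_le_log hX0 h1
        rw [Real.log_pow] at h2
        push_cast at h2
        rw [hL]
        linarith
      have hdL : Real.log d ≤ L := by
        rw [hL]
        apply Real.log_le_log hd0
        exact_mod_cast hdX
      have hld0 : 0 < Real.log d := by linarith
      have hy0 : 0 ≤ |s.im| := abs_nonneg _
      have hy : 0 ≤ Real.log (|s.im| + 2) := Real.log_nonneg (by linarith)
      have hll : Real.log L / 2 ≤ Real.log (Real.log d) := by
        have h1 : Real.log (√L) ≤ Real.log (Real.log d) := by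
          apply Real.log_le_log (Real.sqrt_pos.mpr hL0)
          refine le_trans ?_ hℓd
          have h2 : (2:ℝ) ≤ √L := by
            apply Real.le_sqrt_of_sq_le
            linarith
          have h3 : √L * √L = L := Real.mul_self_sqrt hL0.le
          nlinarith
        rwa [Real.log_sqrt hL0.le] at h1
      rw [Real.log_mul (by linarith) hld0.ne']
      have hnum : A * Real.log (|s.im| + 2) + C1 * Real.log L ≤
          C * (Real.log (|s.im| + 2) + Real.log (Real.log d)) := by
        have h1 : (A:ℝ) * Real.log (|s.im| + 2) ≤ C * Real.log (|s.im| + 2) := by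
          apply mul_le_mul_of_nonneg_right _ hy
          linarith
        have h2 : C1 * Real.log L ≤ C * Real.log (Real.log d) := by
          calc C1 * Real.log L = (2 * C1) * (Real.log L / 2) := by ring
            _ ≤ C * Real.log (Real.log d) := by
                apply mul_le_mul _ hll (by positivity) hC0'.le
                linarith
        linarith
      have hnn : 0 ≤ C * (Real.log (|s.im| + 2) + Real.log (Real.log d)) := by
        refine le_trans ?_ hnum
        positivity
      calc τ + A * Real.log (|s.im| + 2) / L ^ 2 =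
          (A * Real.log (|s.im| + 2) + C1 * Real.log L) / L ^ 2 := by rw [hτ]; ring
        _ ≤ C * (Real.log (|s.im| + 2) + Real.log (Real.log d)) / L ^ 2 := by gcongr
        _ ≤ C * (Real.log (|s.im| + 2) + Real.log (Real.log d)) / Real.log d ^ 2 := by
            gcongr
    have hc1 := Set.ncard_le_ncard hsub ((Finset.finite_toSet _).union (ExcSet_finite Λ A X τ))
    have hc2 := Set.ncard_union_le (↑(Finset.Icc 1 (Nat.sqrt X)) : Set ℕ) (ExcSet Λ A X τ)
    rw [Set.ncard_coe_finset, Nat.card_Icc] at hc2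
    have hc3 : ((ExcSet2 Λ C X).ncard : ℝ) ≤ Nat.sqrt X + (ExcSet Λ A X τ).ncard := by
      have h2 := hc1.trans hc2
      have h3 : Nat.sqrt X + 1 - 1 = Nat.sqrt X := by omega
      rw [h3] at h2
      exact_mod_cast h2
    have h1 : ((Nat.sqrt X : ℕ) : ℝ) ≤ C0 * (X / L ^ B) :=
      Real.nat_sqrt_le_real_sqrt.trans (hC0 X hXr)
    have h2 : 0 ≤ (X:ℝ) / L ^ B := by positivity
    calc ((ExcSet2 Λ C X).ncard : ℝ) ≤ C0 * (X / L ^ B) + A * (X / L ^ B) := by linarith
      _ = (C0 + A) * (X / L ^ B) := by ring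
      _ ≤ C * (X / L ^ B) := by
          gcongr
          linarith

end Pool.Agent.HD64
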