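import Mathlib
import Pool.Agent.HD64.VD

/-!
# DerivativeFamily (MP_553913_nt): the half integrals
-/

set_option autoImplicit false

open Complex MeasureTheory Set

namespace Pool.Agent.HD64

open Pool.Agent.H5 (rhoV norm_rhoV_le gamma_vert norm_psi_sub_log_le RR KK ker zz zet XX norm_zet
  ofReal_natCast' norm_m_div re_div_eq gam gam_mono gam_vert PI AA ker_cont int_est int_moment)
open Pool.Agent.H6 (Lt psi psi_lip abs_im_psi_le)

variable {M y θ W0 W1 W2 : ℝ} {Λ D1 : ℂ → ℂ} {w : ℂ} {m : ℕ} {ℓ R0 : ℝ} {s₀ l : ℂ}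

/-- all the data at a point -/
structure Pt (M y θ W0 W1 W2 : ℝ) (Λ D1 : ℂ → ℂ) (w : ℂ) (m : ℕ) (ℓ R0 : ℝ) (s₀ l : ℂ) : Prop where
  D : VData M y θ W0 W1 W2 Λ D1 w
  S : Scale M y θ W0 W1 W2 m ℓ R0
  P : PtV y R0 s₀
  h : SadV M m ℓ D1 s₀ l

namespace Pt

lemma spv (T : Pt M y θ W0 W1 W2 Λ D1 w m ℓ R0 s₀ l) : SPV m aV l := T.h.spv T.D T.S T.P

lemma mpos (T : Pt M y θ W0 W1 W2 Λ D1 w m ℓ R0 s₀ l) : (0:ℝ) < m := T.S.mpos

lemma R_pos (T : Pt M y θ W0 W1 W2 Λ D1 w m ℓ R0 s₀ l) : 0 < RR m l := T.h.R_pos T.S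

lemma l_ne (T : Pt M y θ W0 W1 W2 Λ D1 w m ℓ R0 s₀ l) : l ≠ 0 := norm_pos_iff.1 T.spv.norm_pos

lemma m_ne (T : Pt M y θ W0 W1 W2 Λ D1 w m ℓ R0 s₀ l) : (m : ℂ) ≠ 0 := by
  exact_mod_cast T.mpos.ne'

lemma im_le (T : Pt M y θ W0 W1 W2 Λ D1 w m ℓ R0 s₀ l) : |((m : ℂ) / l).im| ≤ RR m l / 48 := by
  refine (T.h.im_div_le T.S).trans ?_
  have := (T.h.R_near T.S).1
  linarith

lemma regs (T : Pt M y θ W0 W1 W2 Λ D1 w m ℓ R0 s₀ l) :
    1 + θ ≤ (s₀ + m / l).re ∧ (s₀ + m / l).re ≤ 9 / 4 ∧ |(s₀ + m / l).im - y| ≤ R0 / 49 ∧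
      s₀.re + 48 / 49 * R0 ≤ (s₀ + m / l).re ∧ (s₀ + m / l).re ≤ s₀.re + 50 / 49 * R0 :=
  reg T.S T.P (mdiv_near T.S T.h.near)

lemma regy (T : Pt M y θ W0 W1 W2 Λ D1 w m ℓ R0 s₀ l) : |(s₀ + m / l).im - y| ≤ 2 :=
  reg_im T.S T.regs.2.2.1

lemma R_le (T : Pt M y θ W0 W1 W2 Λ D1 w m ℓ R0 s₀ l) : RR m l ≤ 0.6123 := by
  have h1 := (T.h.R_near T.S).2
  have h2 := T.S.hR1
  linarith

lemma KK_ne (T : Pt M y θ W0 W1 W2 Λ D1 w m ℓ R0 s₀ l) (j : ℕ) : KK Λ m s₀ l j ≠ 0 := by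
  unfold KK
  exact div_ne_zero (T.D.Λ_ne T.regs.1 T.regy) (pow_ne_zero _ (div_ne_zero T.m_ne T.l_ne))

end Pt

lemma norm_KK (j : ℕ) : ‖KK Λ m s₀ l j‖ = ‖Λ (s₀ + m / l)‖ / RR m l ^ (m + j + 1) := by
  unfold KK
  rw [norm_div, norm_pow, norm_m_div]

/-- the normalised integrand -/
noncomputable def hv (Λ : ℂ → ℂ) (m : ℕ) (s₀ l : ℂ) (τ : ℝ) : ℂ :=
  ker Λ m s₀ (s₀ + m / l + τ * I) / KK Λ m s₀ l 0

/-- the relative error -/
noncomputable def etaV (m : ℕ) : ℝ := 60000 * (1 + 0) * (1 / aV + 1 / Real.sqrt m)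

lemma etaV_nonneg (m : ℕ) : 0 ≤ etaV m := by
  unfold etaV aV; positivity

namespace Pt

variable (T : Pt M y θ W0 W1 W2 Λ D1 w m ℓ R0 s₀ l)
include T

lemma hv_exp {τ : ℝ} (hτ : |τ| ≤ 11 / 5 * RR m l) :
    ∃ E : ℂ, ‖E‖ ≤ (1 + W2) * τ ^ 2 ∧ hv Λ m s₀ l τ = exp (XX m l (zz m l τ) E) := by
  have hm := T.m_ne
  have hl := T.l_ne
  have hτy : |(s₀ + m / l).im + τ - y| ≤ 2 := by
    have h1 := T.regs.2.2.1
    have h2 := T.R_le
    have h3 := T.S.hR1
    have e : (s₀ + m / l).im + τ - y = ((s₀ + m / l).im - y) + τ := by ring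
    rw [e]
    refine (abs_add_le _ _).trans ?_
    linarith
  obtain ⟨E, hE, hr⟩ := T.D.ratio T.regs.1 T.regy T.h.heq hτy
  refine ⟨E, hE, ?_⟩
  have h1 : s₀ + m / l + τ * I - s₀ = m / l * (1 + zet l (zz m l τ)) := by
    rw [one_add_zet T.spv]; ring
  have h2 := one_add_zet_ne T.spv (zz m l τ)
  have hΛ := T.D.Λ_ne T.regs.1 T.regy
  unfold hv ker KK
  rw [h1, hr, exp_XX T.spv, m_zet T.spv, mul_pow, add_zero]
  clear hr
  generalize Λ (s₀ + m / l) = q at hΛ ⊢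
  field_simp

lemma ker_eq (j : ℕ) (τ : ℝ) :
    ker Λ (m + j) s₀ (s₀ + m / l + τ * I)
      = KK Λ m s₀ l j * (hv Λ m s₀ l τ / (1 + zet l (zz m l τ)) ^ j) := by
  have hm := T.m_ne
  have hl := T.l_ne
  have hΛ := T.D.Λ_ne T.regs.1 T.regy
  have h2 := one_add_zet_ne T.spv (zz m l τ)
  have h1 : s₀ + m / l + τ * I - s₀ = m / l * (1 + zet l (zz m l τ)) := by
    rw [one_add_zet T.spv]; ring
  unfold hv ker KK
  rw [h1, add_zero]
  have e4 : ((m : ℂ) / l) ^ (m + j + 1) = (m / l) ^ (m + 1) * (m / l) ^ j := by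
    rw [← pow_add]; ring_nf
  have e5 : ((m : ℂ) / l * (1 + zet l (zz m l τ))) ^ (m + j + 1)
      = ((m / l) ^ (m + 1) * (m / l) ^ j) * ((1 + zet l (zz m l τ)) ^ (m + 1) *
        (1 + zet l (zz m l τ)) ^ j) := by
    rw [mul_pow, e4, ← pow_add (1 + zet l (zz m l τ))]
    congr 2
    ring
  rw [e4, e5, mul_pow]
  have h3 : ((m : ℂ) / l) ^ (m + 1) ≠ 0 := pow_ne_zero _ (div_ne_zero hm hl)
  have h4 : ((m : ℂ) / l) ^ j ≠ 0 := pow_ne_zero _ (div_ne_zero hm hl)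
  have h5 : (1 + zet l (zz m l τ)) ^ (m + 1) ≠ 0 := pow_ne_zero _ h2
  have h6 : (1 + zet l (zz m l τ)) ^ j ≠ 0 := pow_ne_zero _ h2
  generalize ((m : ℂ) / l) ^ (m + 1) = q1 at *
  generalize ((m : ℂ) / l) ^ j = q2 at *
  generalize (1 + zet l (zz m l τ)) ^ (m + 1) = q3 at *
  generalize (1 + zet l (zz m l τ)) ^ j = q4 at *
  generalize Λ (s₀ + m / l + τ * I) = q5 at *
  generalize Λ (s₀ + m / l) = q6 at *
  field_simp

lemma hv_bound {τ : ℝ} (hτ : |τ| ≤ 11 / 5 * RR m l) :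
    ‖hv Λ m s₀ l τ - Real.exp (-(m / (2 * RR m l ^ 2)) * τ ^ 2)‖
      ≤ etaV m * Real.exp (-(m / (2 * RR m l ^ 2) / 20) * τ ^ 2) := by
  have hR := T.R_pos
  have hm := T.mpos
  have hm1 := T.S.hm
  have hn := T.spv.norm_pos
  obtain ⟨E, hE, hvE⟩ := T.hv_exp hτ
  set z := zz m l τ with hz
  have hzR : z = τ / RR m l := by
    rw [hz]; unfold zz RR; field_simp
  have hτz : τ = RR m l * z := by rw [hzR]; field_simp
  have hzabs : |z| = |τ| / RR m l := by rw [hzR, abs_div, abs_of_pos hR]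
  have hz1 : |z| ≤ 11 / 5 := by
    rw [hzabs, div_le_iff₀ hR]; exact hτ
  have hE' : ‖E‖ ≤ 1.1 * |z| + 1.1 * (m * z ^ 2 / aV) := by
    refine hE.trans ?_
    have h1 := (T.h.R_near T.S).2
    have h2 := T.S.hR1
    have h3 := T.S.hW2
    have h4 := T.S.R0pos
    have h5 := T.D.hW2
    have e1 : (1 + W2) * τ ^ 2 = (1 + W2) * RR m l ^ 2 * z ^ 2 := by rw [hτz]; ring
    have e2 : (1 + W2) * RR m l ^ 2 ≤ (1 + W2) * (50 / 49 * R0) ^ 2 := by gcongr
    have e3 : R0 ^ 2 ≤ 1 := by nlinarith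
    have e4 : (1 + W2) * (50 / 49 * R0) ^ 2 ≤ 1.1 * m / aV := by
      have : (1 + W2) * (50 / 49 * R0) ^ 2 = (50 / 49) ^ 2 * (R0 ^ 2 + W2 * R0 ^ 2) := by ring
      rw [this]
      unfold aV
      have h6 : R0 ^ 2 + W2 * R0 ^ 2 ≤ 2 * (m / 10 ^ 9) := by linarith
      calc (50 / 49) ^ 2 * (R0 ^ 2 + W2 * R0 ^ 2) ≤ (50 / 49) ^ 2 * (2 * (m / 10 ^ 9)) := by gcongr
        _ ≤ _ := by
          rw [le_div_iff₀ (by norm_num)]
          have : (0:ℝ) < m := hm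
          nlinarith
    rw [e1]
    have e5 : (1 + W2) * RR m l ^ 2 * z ^ 2 ≤ 1.1 * m / aV * z ^ 2 := by
      apply mul_le_mul_of_nonneg_right (e2.trans e4) (sq_nonneg z)
    have e6 : 1.1 * m / aV * z ^ 2 = 1.1 * (m * z ^ 2 / aV) := by ring
    have e7 : 0 ≤ 1.1 * |z| := by positivity
    linarith
  have key := pointwise T.spv hz1 hE' (Lr := 1) (B₀ := 1) (B₁ := 0) le_rfl le_rfl (by simp)
    (by simp)
  have e5 : -(m / (2 * RR m l ^ 2)) * τ ^ 2 = -(m * z ^ 2 / 2) := by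
    rw [hτz]; field_simp
  have e6 : -(m / (2 * RR m l ^ 2) / 20) * τ ^ 2 = -(m * z ^ 2 / 40) := by
    rw [hτz]; field_simp; ring
  rw [hvE, e5, e6]
  rw [mul_one] at key
  exact key

/-- values of `Λ` left of the saddle -/
lemma left_bound {u v : ℝ} (h1 : 1 ≤ u) (h2 : u ≤ (s₀ + m / l).re) (hvy : |v - y| ≤ 2)
    (hv2 : |v - (s₀ + m / l).im| ≤ 11 / 5 * RR m l) :
    ‖Λ (u + v * I)‖ ≤ 2000 * Real.exp (2 * W0) * ‖Λ (s₀ + m / l)‖ := by
  have hM1 := T.D.hM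
  have hM : 0 < M := by linarith
  set s := s₀ + m / l with hsdef
  have hsr : 1 + θ ≤ s.re := T.regs.1
  have hsy : |s.im - y| ≤ 2 := T.regy
  have hθ := T.D.hθ0
  have e1 : ‖Λ (u + v * I)‖ ≤ ‖gam M (u + v * I)‖ * Real.exp W0 := by
    rw [Λ_eq_Lt (Λ := Λ) hM (s := u + v * I) (by simp; linarith), norm_mul]
    have := T.D.up (u + v * I) (by simpa using h1) (by simpa using hvy)
    have h4 : (M : ℂ) ^ (u + v * I : ℂ) * Gamma (u + v * I) = gam M (u + v * I) := rfl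
    rw [h4]
    gcongr
  have e2 : ‖gam M (u + v * I)‖ ≤ 22 * ‖gam M ((s.re : ℝ) + v * I)‖ := by
    have := gam_mono (s := (u : ℝ) + v * I) (M := M) (by linarith) (by simpa using h1)
      (δ := s.re - u) (by linarith)
    have e : (u : ℂ) + v * I + ((s.re - u : ℝ) : ℂ) = (s.re : ℝ) + v * I := by push_cast; ring
    rwa [e] at this
  have e3 : ‖gam M ((s.re : ℝ) + v * I)‖ ≤ ‖gam M s‖ * 60 := by
    have := gam_vert hM (s := s) (by linarith) (v - s.im)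
    have e : s + ((v - s.im : ℝ) : ℂ) * I = (s.re : ℝ) + v * I := by
      apply Complex.ext <;> simp
    rw [e] at this
    refine this.trans ?_
    gcongr
    have hRl := T.R_le
    have h3 : |v - s.im| ≤ 1.35 := by linarith
    have h4 : (v - s.im) ^ 2 / s.re ≤ 1.8225 := by
      rw [div_le_iff₀ (by linarith)]
      have h5 : (v - s.im) ^ 2 ≤ 1.35 ^ 2 := by
        rw [← sq_abs]; gcongr
      nlinarith
    have h6 : 1.6 * |v - s.im| + (v - s.im) ^ 2 / s.re ≤ 4 := by linarith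
    calc Real.exp (1.6 * |v - s.im| + (v - s.im) ^ 2 / s.re) ≤ Real.exp 4 := Real.exp_le_exp.2 h6
      _ = Real.exp 1 ^ 4 := by rw [← Real.exp_nat_mul]; norm_num
      _ ≤ 2.7182818286 ^ 4 := by
        have := Real.exp_one_lt_d9
        have h0 := Real.exp_pos 1
        gcongr
      _ ≤ 60 := by norm_num
  have e4 : ‖gam M s‖ ≤ ‖Λ s‖ * Real.exp W0 := by
    have h5 := T.D.low s hsr hsy
    have h6 : ‖Λ s‖ = ‖gam M s‖ * ‖Lt M Λ s‖ := by
      rw [Λ_eq_Lt (Λ := Λ) hM (s := s) (by linarith), norm_mul]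
      rfl
    have h7 : Real.exp (-W0) * Real.exp W0 = 1 := by rw [← Real.exp_add]; simp
    rw [h6]
    calc ‖gam M s‖ = ‖gam M s‖ * (Real.exp (-W0) * Real.exp W0) := by rw [h7, mul_one]
      _ ≤ ‖gam M s‖ * (‖Lt M Λ s‖ * Real.exp W0) := by gcongr
      _ = _ := by ring
  have e5 : Real.exp (2 * W0) = Real.exp W0 * Real.exp W0 := by rw [← Real.exp_add]; ring_nf
  calc ‖Λ (u + v * I)‖ ≤ ‖gam M (u + v * I)‖ * Real.exp W0 := e1
    _ ≤ (22 * ((‖Λ s‖ * Real.exp W0) * 60)) * Real.exp W0 := by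
        gcongr
        refine e2.trans ?_
        gcongr
        refine e3.trans ?_
        gcongr
    _ = 1320 * Real.exp (2 * W0) * ‖Λ s‖ := by rw [e5]; ring
    _ ≤ _ := by gcongr; norm_num

/-- horizontal sides -/
lemma horiz (j : ℕ) {H v : ℝ} (hH : 1.8 * RR m l ≤ H) (hH2 : H ≤ 2.15 * RR m l)
    (hv : |v - y| = H) (hv2 : |v - (s₀ + m / l).im| ≤ 11 / 5 * RR m l) :
    ‖∫ u in (1:ℝ)..(s₀ + m / l).re, ker Λ (m + j) s₀ (u + (v : ℂ) * I)‖
      ≤ 5 / 4 * (2000 * Real.exp (2 * W0)) * (5 / 9) ^ (m + 1) * ‖KK Λ m s₀ l j‖ := by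
  have hR := T.R_pos
  have hRl := T.R_le
  have hθ := T.D.hθ0
  set s := s₀ + m / l with hsdef
  set R := RR m l with hRdef
  set B := 2000 * Real.exp (2 * W0) with hB
  have hB0 : 0 ≤ B := by positivity
  have hH0 : 0 < H := by linarith
  have hre : s.re ≤ 9 / 4 := T.regs.2.1
  have hre1 : 1 + θ ≤ s.re := T.regs.1
  have hvy2 : |v - y| ≤ 2 := by rw [hv]; linarith
  have hb : ∀ u ∈ Set.uIoc (1:ℝ) s.re, ‖ker Λ (m + j) s₀ (u + (v : ℂ) * I)‖
      ≤ B * ‖Λ s‖ / H ^ (m + j + 1) := by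
    intro u hu
    rw [uIoc_of_le (by linarith)] at hu
    have h1 := T.left_bound hu.1.le hu.2 hvy2 hv2
    rw [← hB, ← hsdef] at h1
    unfold ker
    rw [norm_div, norm_pow]
    have h2 : H ≤ ‖(u + (v : ℂ) * I - s₀ : ℂ)‖ := by
      rw [← hv]
      have := Complex.abs_im_le_norm (u + (v : ℂ) * I - s₀ : ℂ)
      rw [← T.P.im]
      simpa using this
    gcongr
  refine (intervalIntegral.norm_integral_le_of_norm_le_const hb).trans ?_
  rw [norm_KK, ← hsdef, ← hRdef]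
  have h3 : |s.re - 1| ≤ 5 / 4 := by
    rw [abs_of_nonneg (by linarith)]; linarith
  have h4 : (1:ℝ) / H ^ (m + j + 1) ≤ (5 / 9) ^ (m + 1) / R ^ (m + j + 1) := by
    have h5 : (1:ℝ) / H ^ (m + j + 1) ≤ 1 / (1.8 * R) ^ (m + j + 1) := by
      apply one_div_le_one_div_of_le (by positivity)
      gcongr
    refine h5.trans ?_
    rw [mul_pow, one_div, mul_inv, ← inv_pow, div_eq_mul_inv]
    have h6 : ((1.8:ℝ)⁻¹) = 5 / 9 := by norm_num
    rw [h6]
    gcongr ?_ * _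
    exact pow_le_pow_of_le_one (by norm_num) (by norm_num) (by omega)
  calc B * ‖Λ s‖ / H ^ (m + j + 1) * |s.re - 1| ≤ B * ‖Λ s‖ / H ^ (m + j + 1) * (5 / 4) := by gcongr
    _ = 5 / 4 * B * ‖Λ s‖ * (1 / H ^ (m + j + 1)) := by ring
    _ ≤ 5 / 4 * B * ‖Λ s‖ * ((5 / 9) ^ (m + 1) / R ^ (m + j + 1)) := by gcongr
    _ = _ := by ring

/-- the vertical side -/
lemma vert_eq (j : ℕ) (H : ℝ) :
    ∫ v in (y - H)..(y + H), ker Λ (m + j) s₀ (((s₀ + m / l).re : ℂ) + v * I)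
      = KK Λ m s₀ l j * ∫ τ in (-H - ((m : ℂ) / l).im)..(H - ((m : ℂ) / l).im),
          hv Λ m s₀ l τ / (1 + zet l (zz m l τ)) ^ j := by
  have h1 : ∫ v in (y - H)..(y + H), ker Λ (m + j) s₀ (((s₀ + m / l).re : ℂ) + v * I)
      = ∫ τ in (-H - ((m : ℂ) / l).im)..(H - ((m : ℂ) / l).im),
          ker Λ (m + j) s₀ (((s₀ + m / l).re : ℂ) + (((s₀ + m / l).im + τ : ℝ) : ℂ) * I) := by
    rw [intervalIntegral.integral_comp_add_left
      (fun v : ℝ => ker Λ (m + j) s₀ (((s₀ + m / l).re : ℂ) + v * I)) (s₀ + m / l).im]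
    rw [← T.P.im]
    congr 1 <;> simp only [Complex.add_im] <;> ring
  rw [h1, ← intervalIntegral.integral_const_mul]
  apply intervalIntegral.integral_congr
  intro τ _
  simp only
  rw [← T.ker_eq j τ]
  congr 1
  apply Complex.ext <;> simp

/-- the half integral through the saddle -/
lemma PI_est (j : ℕ) {H : ℝ} (hH : 1.8 * RR m l ≤ H) (hH2 : H ≤ 2.15 * RR m l) :
    ‖PI (ker Λ (m + j) s₀) y H (s₀ + m / l).re / (I * KK Λ m s₀ l j)
      - ∫ τ in (-H - ((m : ℂ) / l).im)..(H - ((m : ℂ) / l).im),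
          hv Λ m s₀ l τ / (1 + zet l (zz m l τ)) ^ j‖
      ≤ 2 * (5 / 4 * (2000 * Real.exp (2 * W0)) * (5 / 9) ^ (m + 1)) := by
  have hR := T.R_pos
  have hK := T.KK_ne j
  have him := T.im_le
  have him2 : (s₀ + m / l).im = y + ((m : ℂ) / l).im := by rw [Complex.add_im, T.P.im]
  have hH0 : 0 < H := by linarith
  have h1 := T.horiz j (H := H) (v := y - H) hH hH2
    (by rw [abs_of_nonpos (by linarith)]; ring)
    (by
      rw [him2]
      have := abs_le.1 him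
      rw [abs_le]; constructor <;> linarith [this.1, this.2])
  have h2 := T.horiz j (H := H) (v := y + H) hH hH2
    (by rw [abs_of_nonneg (by linarith)]; ring)
    (by
      rw [him2]
      have := abs_le.1 him
      rw [abs_le]; constructor <;> linarith [this.1, this.2])
  have h3 := T.vert_eq j H
  unfold PI
  rw [h3]
  set K := KK Λ m s₀ l j with hKdef
  set V := ∫ τ in (-H - ((m : ℂ) / l).im)..(H - ((m : ℂ) / l).im),
          hv Λ m s₀ l τ / (1 + zet l (zz m l τ)) ^ j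
  set A := ∫ u in (1:ℝ)..(s₀ + m / l).re, ker Λ (m + j) s₀ (u + ((y - H : ℝ) : ℂ) * I)
  set B := ∫ u in (1:ℝ)..(s₀ + m / l).re, ker Λ (m + j) s₀ (u + ((y + H : ℝ) : ℂ) * I)
  have hn : 0 < ‖K‖ := norm_pos_iff.2 hK
  have e : (A + I * (K * V) - B) / (I * K) - V = (A - B) / (I * K) := by
    field_simp [Complex.I_ne_zero]
    ring
  rw [e, norm_div, norm_mul, Complex.norm_I, one_mul, div_le_iff₀ hn]
  calc ‖A - B‖ ≤ ‖A‖ + ‖B‖ := norm_sub_le _ _
    _ ≤ _ := add_le_add h1 h2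
    _ = _ := by ring

lemma sst_ne (τ : ℝ) : s₀ + m / l + τ * I ≠ s₀ := by
  intro h0
  have h1 : (m : ℂ) / l + τ * I = 0 := by linear_combination h0
  have h2 := congrArg Complex.re h1
  simp at h2
  have h3 := T.h.re_div_ge T.S
  have h4 := T.S.R0pos
  linarith

lemma hv_cont : Continuous (hv Λ m s₀ l) := by
  unfold hv
  apply Continuous.div_const
  have h1 := ker_cont T.D.diff m s₀
  apply h1.comp_continuous (by fun_prop)
  intro τ
  exact T.sst_ne τ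

end Pt

/-- the main value -/
noncomputable def SV (m : ℕ) (l : ℂ) : ℝ := RR m l * Real.sqrt (2 * Real.pi / m)

namespace Pt

variable (T : Pt M y θ W0 W1 W2 Λ D1 w m ℓ R0 s₀ l)
include T

lemma SV_eq (k : ℝ) (hk : 0 < k) : Real.sqrt (Real.pi / (m / (2 * RR m l ^ 2) / k))
    = Real.sqrt k * SV m l := by
  have hR := T.R_pos
  have hm := T.mpos
  unfold SV
  have e : Real.pi / (m / (2 * RR m l ^ 2) / k) = k * (RR m l ^ 2 * (2 * Real.pi / m)) := by
    field_simp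
  rw [e, Real.sqrt_mul hk.le, Real.sqrt_mul (by positivity), Real.sqrt_sq hR.le]

lemma SV_pos : 0 < SV m l := by
  have hR := T.R_pos
  have hm := T.mpos
  unfold SV
  positivity

lemma vert0 {H : ℝ} (hH : 1.8 * RR m l ≤ H) (hH2 : H ≤ 2.15 * RR m l) :
    ‖(∫ τ in (-H - ((m : ℂ) / l).im)..(H - ((m : ℂ) / l).im), hv Λ m s₀ l τ) - SV m l‖
      ≤ (Real.sqrt 20 * etaV m + Real.sqrt 2 * Real.exp (-(0.7 * m))) * SV m l := by
  have hR := T.R_pos
  have hm := T.mpos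
  have him := T.im_le
  have him' := abs_le.1 him
  have e1 := T.SV_eq 20 (by norm_num)
  have e2 := T.SV_eq 2 (by norm_num)
  have e4 : Real.sqrt (Real.pi / (m / (2 * RR m l ^ 2))) = SV m l := by
    have := T.SV_eq 1 (by norm_num)
    rwa [div_one, Real.sqrt_one, one_mul] at this
  have hS := T.SV_pos
  set R := RR m l with hRdef
  have hb : 0 < m / (2 * R ^ 2) := by positivity
  have key := int_est (g := hv Λ m s₀ l) (b := m / (2 * R ^ 2)) (η := etaV m)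
    (r := 1.7 * R) (τ₁ := -H - ((m : ℂ) / l).im) (τ₂ := H - ((m : ℂ) / l).im) hb (etaV_nonneg m)
    (by positivity) (by linarith [him'.1, him'.2]) (by linarith [him'.1, him'.2])
    T.hv_cont.continuousOn (by
      intro τ hτ
      have := T.hv_bound (τ := τ) (by
        rw [abs_le]; constructor <;> linarith [hτ.1, hτ.2, him'.1, him'.2])
      exact this)
  rw [e1, e2, e4] at key
  have e3 : Real.exp (-(m / (2 * R ^ 2) * (1.7 * R) ^ 2 / 2)) ≤ Real.exp (-(0.7 * m)) := by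
    apply Real.exp_le_exp.2
    have : m / (2 * R ^ 2) * (1.7 * R) ^ 2 / 2 = 0.7225 * m := by field_simp; norm_num
    rw [this]; linarith
  refine key.trans ?_
  calc _ ≤ etaV m * (Real.sqrt 20 * SV m l)
        + Real.exp (-(0.7 * m)) * (Real.sqrt 2 * SV m l) := by gcongr
    _ = _ := by ring

lemma vert1 {H : ℝ} (hH : 1.8 * RR m l ≤ H) (hH2 : H ≤ 2.15 * RR m l) :
    ‖(∫ τ in (-H - ((m : ℂ) / l).im)..(H - ((m : ℂ) / l).im),
        hv Λ m s₀ l τ / (1 + zet l (zz m l τ)) ^ 1)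
      - ∫ τ in (-H - ((m : ℂ) / l).im)..(H - ((m : ℂ) / l).im), hv Λ m s₀ l τ‖
      ≤ (1 + etaV m) * (41 / Real.sqrt m) * SV m l := by
  have hR := T.R_pos
  have hm := T.mpos
  have him := T.im_le
  have him' := abs_le.1 him
  have hS := T.SV_pos
  have e1' := T.SV_eq 40 (by norm_num)
  set R := RR m l with hRdef
  set η := etaV m with hη
  have hη0 : 0 ≤ η := etaV_nonneg m
  have hb : 0 < m / (2 * R ^ 2) / 20 := by positivity
  have hc1 := T.hv_cont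
  have hc2 : Continuous fun τ : ℝ => hv Λ m s₀ l τ / (1 + zet l (zz m l τ)) ^ 1 := by
    apply hc1.div
    · exact (continuous_const.add (H5.LData.zet_cont m l)).pow 1
    · intro τ
      exact pow_ne_zero _ (one_add_zet_ne T.spv _)
  rw [← intervalIntegral.integral_sub (hc2.intervalIntegrable _ _) (hc1.intervalIntegrable _ _)]
  have key := int_moment (g := fun τ : ℝ => hv Λ m s₀ l τ / (1 + zet l (zz m l τ)) ^ 1
      - hv Λ m s₀ l τ) (c := m / (2 * R ^ 2) / 20) (K := (1 + η) / (0.99 * R))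
    (τ₁ := -H - ((m : ℂ) / l).im) (τ₂ := H - ((m : ℂ) / l).im) hb (by positivity) (by linarith)
    (by
      intro τ hτ
      have h1 := T.hv_bound (τ := τ) (by
        rw [abs_le]; constructor <;> linarith [hτ.1, hτ.2, him'.1, him'.2])
      have h2 : ‖hv Λ m s₀ l τ‖ ≤ (1 + η) * Real.exp (-(m / (2 * R ^ 2) / 20) * τ ^ 2) := by
        have h3 : ‖((Real.exp (-(m / (2 * R ^ 2)) * τ ^ 2) : ℝ) : ℂ)‖
            ≤ Real.exp (-(m / (2 * R ^ 2) / 20) * τ ^ 2) := by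
          rw [Complex.norm_real, Real.norm_eq_abs, abs_of_pos (Real.exp_pos _)]
          apply Real.exp_le_exp.2
          have h4 : 0 ≤ m / (2 * R ^ 2) * τ ^ 2 := by positivity
          have h5 : m / (2 * R ^ 2) / 20 * τ ^ 2 = (m / (2 * R ^ 2) * τ ^ 2) / 20 := by ring
          rw [neg_mul, neg_mul, h5]
          linarith
        have h6 : hv Λ m s₀ l τ = (hv Λ m s₀ l τ - Real.exp (-(m / (2 * R ^ 2)) * τ ^ 2))
            + Real.exp (-(m / (2 * R ^ 2)) * τ ^ 2) := by ring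
        rw [h6]
        refine (norm_add_le _ _).trans ?_
        refine (add_le_add h1 h3).trans (le_of_eq ?_)
        rw [hη]; ring
      have h7 := one_add_zet_ge T.spv (zz m l τ)
      have h8 := one_add_zet_ne T.spv (zz m l τ)
      have e1 : hv Λ m s₀ l τ / (1 + zet l (zz m l τ)) ^ 1 - hv Λ m s₀ l τ
          = -(hv Λ m s₀ l τ * (zet l (zz m l τ) / (1 + zet l (zz m l τ)))) := by
        field_simp
        ring
      rw [e1, norm_neg, norm_mul, norm_div, norm_zet T.spv.norm_pos]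
      have h9 : |zz m l τ| = |τ| / R := by
        have hn := T.spv.norm_pos
        have : zz m l τ = τ / R := by
          rw [hRdef]; unfold zz RR; field_simp
        rw [this, abs_div, abs_of_pos hR]
      rw [h9]
      calc _ ≤ ((1 + η) * Real.exp (-(m / (2 * R ^ 2) / 20) * τ ^ 2)) * (|τ| / R / 0.99) := by
            gcongr
        _ = _ := by field_simp)
  have hb2 : (1 + η) * (40 / (0.99 * Real.sqrt m)) * SV m l ≤ (1 + η) * (41 / Real.sqrt m) * SV m l := by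
    have e5 : 0 < Real.sqrt m := Real.sqrt_pos.2 hm
    have e6 : 40 / (0.99 * Real.sqrt m) ≤ 41 / Real.sqrt m := by
      rw [div_le_div_iff₀ (by positivity) e5]
      nlinarith
    gcongr (1 + η) * ?_ * SV m l
  refine key.trans ((le_of_eq ?_).trans hb2)
  have e1 : Real.sqrt (Real.pi / (m / (2 * R ^ 2) / 20 / 2)) = Real.sqrt 40 * SV m l := by
    rw [← e1']
    congr 1
    field_simp
    norm_num
  have e2 : Real.sqrt (m / (2 * R ^ 2) / 20) = Real.sqrt m / (Real.sqrt 40 * R) := by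
    have : (m : ℝ) / (2 * R ^ 2) / 20 = m / (40 * R ^ 2) := by field_simp; norm_num
    rw [this, Real.sqrt_div (by positivity), Real.sqrt_mul (by norm_num), Real.sqrt_sq hR.le]
  have e3 : Real.sqrt 40 * Real.sqrt 40 = 40 := Real.mul_self_sqrt (by norm_num)
  have e4 : 0 < Real.sqrt 40 := Real.sqrt_pos.2 (by norm_num)
  have e5 : 0 < Real.sqrt m := Real.sqrt_pos.2 hm
  rw [e1, e2]
  field_simp
  linear_combination e3

omit T in
lemma etaV_le (hm : 10 ^ 16 ≤ (m : ℝ)) : etaV m ≤ 1 / 500 := by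
  have h1 : 10 ^ 8 ≤ Real.sqrt m := by
    apply Real.le_sqrt_of_sq_le
    refine le_trans (le_of_eq ?_) hm
    norm_num
  have h2 : 1 / Real.sqrt m ≤ 1 / 10 ^ 8 := one_div_le_one_div_of_le (by norm_num) h1
  unfold etaV aV
  norm_num at h2 ⊢
  linarith

/-- `SS` is not too small -/
lemma SV_ge : 2 * Real.sqrt m / ℓ ≤ SV m l := by
  have hm := T.mpos
  have hℓ := T.S.ℓpos
  have h1 := (T.h.R_near T.S).1
  have hsm := Real.sqrt_pos.2 hm
  have h2 : (2.4 : ℝ) ≤ Real.sqrt (2 * Real.pi / m) * Real.sqrt m := by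
    rw [← Real.sqrt_mul (by positivity)]
    have : 2 * Real.pi / m * m = 2 * Real.pi := by field_simp
    rw [this]
    apply Real.le_sqrt_of_sq_le
    nlinarith [Real.pi_gt_three]
  have h3 : (m:ℝ) = Real.sqrt m * Real.sqrt m := (Real.mul_self_sqrt hm.le).symm
  unfold SV
  have hR0 := T.S.R0_eq
  calc 2 * Real.sqrt m / ℓ ≤ (48 / 49 * 2.4) * Real.sqrt m / ℓ := by gcongr; norm_num
    _ ≤ (48 / 49 * (Real.sqrt (2 * Real.pi / m) * Real.sqrt m)) * Real.sqrt m / ℓ := by gcongr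
    _ = 48 / 49 * ((Real.sqrt m * Real.sqrt m) / ℓ) * Real.sqrt (2 * Real.pi / m) := by ring
    _ = 48 / 49 * R0 * Real.sqrt (2 * Real.pi / m) := by rw [← h3, hR0]
    _ ≤ _ := by gcongr

lemma ℓ_le_exp : ℓ ≤ Real.exp (0.1 * m) := by
  have h := T.S.hlog
  have hℓ := T.S.ℓpos
  rw [Real.log_le_iff_le_exp hℓ] at h
  refine h.trans (le_of_eq ?_)
  congr 1; ring

lemma inv_ℓ_le : 2 * Real.exp (-(0.1 * m)) ≤ SV m l := by
  have hℓ := T.S.ℓpos
  have h1 := T.SV_ge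
  have h2 := T.ℓ_le_exp
  have h3 : (1:ℝ) ≤ Real.sqrt m := by
    rw [Real.one_le_sqrt]
    have := T.S.hm
    linarith
  refine le_trans ?_ h1
  rw [Real.exp_neg, le_div_iff₀ hℓ]
  have h4 := Real.exp_pos (0.1 * (m:ℝ))
  calc 2 * (Real.exp (0.1 * m))⁻¹ * ℓ ≤ 2 * (Real.exp (0.1 * m))⁻¹ * Real.exp (0.1 * m) := by gcongr
    _ = 2 * 1 := by field_simp
    _ ≤ 2 * Real.sqrt m := by gcongr

/-- the half integrals -/
theorem core {H : ℝ} (hH : 1.8 * RR m l ≤ H) (hH2 : H ≤ 2.15 * RR m l) :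
    ∃ P₀ P₁ : ℂ, AA Λ m y H (s₀ + m / l).re s₀ = KK Λ m s₀ l 0 * P₀ / (2 * Real.pi) ∧
      AA Λ (m + 1) y H (s₀ + m / l).re s₀ = KK Λ m s₀ l 1 * P₁ / (2 * Real.pi) ∧
      ‖P₀ - SV m l‖ ≤ 1 / 25 * SV m l ∧ ‖P₁ - SV m l‖ ≤ 1 / 20 * SV m l := by
  have hR := T.R_pos
  have hm := T.mpos
  have hm16 := T.S.hm
  have hS := T.SV_pos
  have hη0 := etaV_nonneg m
  set δ := 2 * (5 / 4 * (2000 * Real.exp (2 * W0)) * (5 / 9) ^ (m + 1)) with hδ
  have hδS : δ ≤ 1 / 100 * SV m l := by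
    have h1 := H5.LData.exp_cmp m (R := 0) (by positivity)
    rw [mul_zero, Real.exp_zero, one_mul] at h1
    have h2 := T.inv_ℓ_le
    have h3 : Real.exp (2 * W0) ≤ Real.exp (0.2 * m) := by
      apply Real.exp_le_exp.2
      have := T.S.hW0
      linarith
    have h4 : (250000:ℝ) * Real.exp (0.2 * m) * Real.exp (-(0.49 * m)) ≤ Real.exp (-(0.1 * m)) := by
      have h5 : (250000:ℝ) ≤ Real.exp (0.19 * m) := by
        have h6 := Real.add_one_le_exp (0.19 * (m:ℝ))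
        linarith
      calc (250000:ℝ) * Real.exp (0.2 * m) * Real.exp (-(0.49 * m))
          ≤ Real.exp (0.19 * m) * Real.exp (0.2 * m) * Real.exp (-(0.49 * m)) := by gcongr
        _ = Real.exp (-(0.1 * m)) := by
            rw [← Real.exp_add, ← Real.exp_add]; congr 1; ring
    calc δ = 5000 * Real.exp (2 * W0) * (5 / 9) ^ (m + 1) := by rw [hδ]; ring
      _ ≤ 5000 * Real.exp (0.2 * m) * Real.exp (-(0.49 * m)) := by gcongr
      _ = 1 / 50 * (250000 * Real.exp (0.2 * m) * Real.exp (-(0.49 * m))) := by ring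
      _ ≤ 1 / 50 * Real.exp (-(0.1 * m)) := by gcongr
      _ ≤ _ := by linarith
  have hv0 := T.vert0 hH hH2
  have hv1 := T.vert1 hH hH2
  have hp0 := T.PI_est 0 hH hH2
  have hp1 := T.PI_est 1 hH hH2
  rw [← hδ] at hp0 hp1
  simp only [pow_zero, div_one, add_zero] at hp0
  have h20 : Real.sqrt 20 ≤ 4.5 := by
    rw [Real.sqrt_le_left (by norm_num)]; norm_num
  have h2 : Real.sqrt 2 ≤ 1.5 := by
    rw [Real.sqrt_le_left (by norm_num)]; norm_num
  have hg1 : etaV m ≤ 1 / 500 := etaV_le hm16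
  have hg2 : Real.exp (-(0.7 * m)) ≤ 1 / 200 := by
    rw [Real.exp_neg, one_div]
    apply inv_anti₀ (by norm_num)
    have := Real.add_one_le_exp (0.7 * (m:ℝ))
    linarith
  have hg4 : 41 / Real.sqrt m ≤ 1 / 120 := by
    have h1 : 10 ^ 8 ≤ Real.sqrt m := by
      apply Real.le_sqrt_of_sq_le
      refine le_trans (le_of_eq ?_) hm16
      norm_num
    rw [div_le_div_iff₀ (by linarith) (by norm_num)]
    linarith
  have hsm := Real.sqrt_pos.2 hm
  have hε0 : Real.sqrt 20 * etaV m + Real.sqrt 2 * Real.exp (-(0.7 * m)) ≤ 1 / 40 := by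
    calc _ ≤ (4.5 : ℝ) * (1 / 500) + 1.5 * (1 / 200) := by gcongr
      _ ≤ 1 / 40 := by norm_num
  have hε1 : (1 + etaV m) * (41 / Real.sqrt m) ≤ 1 / 100 := by
    calc _ ≤ (1 + (1 : ℝ) / 500) * (1 / 120) := by gcongr
      _ ≤ 1 / 100 := by norm_num
  set V₀ := ∫ τ in (-H - ((m : ℂ) / l).im)..(H - ((m : ℂ) / l).im), hv Λ m s₀ l τ with hV₀
  set V₁ := ∫ τ in (-H - ((m : ℂ) / l).im)..(H - ((m : ℂ) / l).im),
        hv Λ m s₀ l τ / (1 + zet l (zz m l τ)) ^ 1 with hV₁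
  have hv0' : ‖V₀ - SV m l‖ ≤ 1 / 40 * SV m l := hv0.trans (by gcongr)
  have hv1' : ‖V₁ - V₀‖ ≤ 1 / 100 * SV m l := hv1.trans (by gcongr)
  have hK0 := T.KK_ne 0
  have hK1 := T.KK_ne 1
  refine ⟨PI (ker Λ m s₀) y H (s₀ + m / l).re / (I * KK Λ m s₀ l 0),
    PI (ker Λ (m + 1) s₀) y H (s₀ + m / l).re / (I * KK Λ m s₀ l 1), ?_, ?_, ?_, ?_⟩
  · unfold AA
    field_simp
  · unfold AA
    field_simp
  · set P := PI (ker Λ m s₀) y H (s₀ + m / l).re / (I * KK Λ m s₀ l 0)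
    have e : P - SV m l = (P - V₀) + (V₀ - SV m l) := by ring
    rw [e]
    refine (norm_add_le _ _).trans ?_
    linarith
  · set P := PI (ker Λ (m + 1) s₀) y H (s₀ + m / l).re / (I * KK Λ m s₀ l 1)
    have e : P - SV m l = (P - V₁) + (V₁ - V₀) + (V₀ - SV m l) := by ring
    rw [e]
    refine (norm_add_le _ _).trans ?_
    have := norm_add_le (P - V₁) (V₁ - V₀)
    linarith

end Pt

end Pool.Agent.HD64
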