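import Mathlib
import Pool.Agent.HD64.CoreV
import Pool.Agent.H5.Direct

/-!
# DerivativeFamily (MP_553913_nt): zeros of a derivative from bounds of `L` in a window
-/

set_option autoImplicit false

open Complex MeasureTheory Set

namespace Pool.Agent.HD64

open Pool.Agent.H5 (rhoV norm_rhoV_le gamma_vert norm_psi_sub_log_le RR KK ker zz zet XX norm_zet
  ofReal_natCast' norm_m_div re_div_eq gam gam_mono gam_vert gam_shift_le PI AA ker_cont
  AA_indep AA_deriv conj_integral PI_cauchy)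
open Pool.Agent.H6 (Lt psi psi_lip abs_im_psi_le)

open scoped ComplexConjugate

variable {M y θ W0 W1 W2 : ℝ} {Λ D1 : ℂ → ℂ} {w : ℂ} {m : ℕ} {ℓ R0 : ℝ} {s₀ l : ℂ}

lemma Pt.re_l (T : Pt M y θ W0 W1 W2 Λ D1 w m ℓ R0 s₀ l) : 0.9 * ‖l‖ ≤ l.re := by
  have hℓ := T.S.ℓpos
  have h1 := T.h.near
  have h2 := (abs_le.1 ((Complex.abs_re_le_norm (l - ℓ)).trans h1)).1
  rw [Complex.sub_re, Complex.ofReal_re] at h2
  have h3 : ‖l‖ ≤ ‖l - ℓ‖ + ‖(ℓ : ℂ)‖ := by
    have := norm_add_le (l - ℓ) (ℓ : ℂ)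
    simpa using this
  rw [Complex.norm_real, Real.norm_eq_abs, abs_of_pos hℓ] at h3
  linarith

/-- at one point -/
lemma Pt.point (T : Pt M y θ W0 W1 W2 Λ D1 w m ℓ R0 s₀ l) {H c : ℝ} (hH : 1.8 * RR m l ≤ H)
    (hH2 : H ≤ 2.15 * RR m l) (hc : s₀.re < c) :
    ‖KK Λ m s₀ l 0‖ * (0.96 * SV m l) / (2 * Real.pi) ≤ ‖AA Λ m y H c s₀‖ ∧
      0 < (AA Λ (m + 1) y H c s₀ / AA Λ m y H c s₀).re ∧ AA Λ m y H c s₀ ≠ 0 := by
  have hR := T.R_pos
  have hm := T.mpos
  have hS := T.SV_pos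
  have hH0 : 0 < H := by linarith
  have hc' : s₀.re < (s₀ + m / l).re := by
    have h1 := T.regs.2.2.2.1
    have := T.S.R0pos
    linarith
  have hi := T.P.im
  rw [AA_indep T.D.diff m (c := c) (c' := (s₀ + m / l).re) (by linarith) (by linarith) hc hc',
    AA_indep T.D.diff (m + 1) (c := c) (c' := (s₀ + m / l).re) (by linarith) (by linarith) hc hc']
  obtain ⟨P₀, P₁, e0, e1, b0, b1⟩ := T.core hH hH2
  have hK0 := T.KK_ne 0
  have hpi := Real.pi_pos
  have hP0 : 0.96 * SV m l ≤ ‖P₀‖ := by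
    have h1 : ‖((SV m l : ℝ) : ℂ)‖ - ‖P₀ - SV m l‖ ≤ ‖P₀‖ := by
      have := norm_sub_norm_le ((SV m l : ℝ) : ℂ) P₀
      rw [norm_sub_rev] at this
      linarith
    rw [Complex.norm_real, Real.norm_eq_abs, abs_of_pos hS] at h1
    linarith
  have hP0ne : P₀ ≠ 0 := by
    rw [← norm_pos_iff]; linarith
  have hA0 : AA Λ m y H (s₀ + m / l).re s₀ ≠ 0 := by
    rw [e0]
    have : (Real.pi : ℂ) ≠ 0 := by exact_mod_cast hpi.ne'
    exact div_ne_zero (mul_ne_zero hK0 hP0ne) (mul_ne_zero two_ne_zero this)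
  refine ⟨?_, ?_, hA0⟩
  · rw [e0, norm_div, norm_mul, norm_mul, Complex.norm_real, Real.norm_eq_abs, abs_of_pos hpi]
    have : ‖(2 : ℂ)‖ = 2 := by simp
    rw [this]
    gcongr
  · have e : AA Λ (m + 1) y H (s₀ + m / l).re s₀ / AA Λ m y H (s₀ + m / l).re s₀
        = l / m * (P₁ / P₀) := by
      rw [e0, e1]
      have hm' := T.m_ne
      have hl := T.l_ne
      have hpi' : (Real.pi : ℂ) ≠ 0 := by exact_mod_cast hpi.ne'
      have hΛ := T.D.Λ_ne T.regs.1 T.regy
      unfold KK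
      generalize Λ (s₀ + m / l) = q at hΛ
      simp only [div_pow, pow_succ, add_zero]
      field_simp
    have h2 : ‖P₁ / P₀ - 1‖ ≤ 1 / 10 := by
      have e2 : P₁ / P₀ - 1 = ((P₁ - SV m l) - (P₀ - SV m l)) / P₀ := by field_simp; ring
      rw [e2, norm_div, div_le_iff₀ (norm_pos_iff.2 hP0ne)]
      refine (norm_sub_le _ _).trans ?_
      linarith
    have h3 : l / m * (P₁ / P₀) = (1 / (m : ℝ) : ℝ) * (l + l * (P₁ / P₀ - 1)) := by
      push_cast; ring
    rw [e, h3, Complex.re_ofReal_mul]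
    apply mul_pos (by positivity)
    rw [Complex.add_re]
    have h4 : -(‖l‖ * (1 / 10)) ≤ (l * (P₁ / P₀ - 1)).re := by
      have h5 := Complex.abs_re_le_norm (l * (P₁ / P₀ - 1))
      have h6 := (abs_le.1 h5).1
      rw [norm_mul] at h6
      have h7 : ‖l‖ * ‖P₁ / P₀ - 1‖ ≤ ‖l‖ * (1 / 10) := by gcongr
      linarith
    have h8 := T.re_l
    have hn := T.spv.norm_pos
    linarith

/-- comparison of the window and the radius -/
lemma Pt.H_ok (T : Pt M y θ W0 W1 W2 Λ D1 w m ℓ R0 s₀ l) :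
    1.8 * RR m l ≤ 1.9 * R0 ∧ 1.9 * R0 ≤ 2.15 * RR m l := by
  have h1 := T.h.R_near T.S
  have h2 := T.S.R0pos
  constructor <;> linarith [h1.1, h1.2]

/-- the modulus of the half integral is increasing across the critical line -/
lemma monoV (D : VData M y θ W0 W1 W2 Λ D1 w) (S : Scale M y θ W0 W1 W2 m ℓ R0) {X c : ℝ}
    (hX1 : X ≤ R0 / 2) (hX : X < c - 1) (lf : ℝ → ℂ)
    (hsad : ∀ x ∈ Icc (-X) X, SadV M m ℓ D1 (1 + y * I + x) (lf x)) :
    StrictMonoOn (fun x : ℝ => ‖AA Λ m y (1.9 * R0) c (1 + y * I + x)‖ ^ 2) (Icc (-X) X) := by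
  have hR := S.R0pos
  have hR1 := S.hR1
  have hH : 0 < 1.9 * R0 := by positivity
  have him : ∀ x : ℝ, (1 + y * I + x : ℂ).im = y := by intro x; simp
  have hre : ∀ x : ℝ, (1 + y * I + x : ℂ).re = 1 + x := by intro x; simp
  have hd : ∀ x ∈ Icc (-X) X, HasDerivAt
      (fun x : ℝ => ‖AA Λ m y (1.9 * R0) c (1 + y * I + x)‖ ^ 2)
      (2 * inner ℝ (AA Λ m y (1.9 * R0) c (1 + y * I + x))
        (((m : ℂ) + 1) * AA Λ (m + 1) y (1.9 * R0) c (1 + y * I + x))) x := by
    intro x hx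
    exact (AA_deriv D.diff m hH (by linarith [hx.2])).norm_sq
  apply strictMonoOn_of_deriv_pos (convex_Icc _ _)
  · intro x hx
    exact (hd x hx).continuousAt.continuousWithinAt
  · intro x hx
    rw [interior_Icc] at hx
    have hx' : x ∈ Icc (-X) X := ⟨hx.1.le, hx.2.le⟩
    rw [(hd x hx').deriv]
    have T : Pt M y θ W0 W1 W2 Λ D1 w m ℓ R0 (1 + y * I + x) (lf x) :=
      ⟨D, S, ⟨him x, by rw [hre]; linarith [hx.1], by rw [hre]; linarith [hx.2]⟩, hsad x hx'⟩
    have hp := T.point (H := 1.9 * R0) (c := c) T.H_ok.1 T.H_ok.2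
      (by rw [hre]; linarith [hx.2])
    obtain ⟨-, h1, h2⟩ := hp
    set A := AA Λ m y (1.9 * R0) c (1 + y * I + x)
    set A' := AA Λ (m + 1) y (1.9 * R0) c (1 + y * I + x)
    have e : A' = A * (A' / A) := by field_simp
    rw [Complex.inner]
    have e2 : (((m : ℂ) + 1) * A' * conj A) = ((((m : ℝ) + 1) * ‖A‖ ^ 2 : ℝ) : ℂ) * (A' / A) := by
      push_cast
      rw [← Complex.mul_conj' A]
      field_simp
    rw [e2, Complex.re_ofReal_mul]
    have h3 : 0 < ‖A‖ := norm_pos_iff.2 h2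
    positivity

/-- reflection of the path -/
lemma PI_reflectV (D : VData M y θ W0 W1 W2 Λ D1 w) (m : ℕ) (s₀ : ℂ) (y H c : ℝ) :
    PI (ker Λ m s₀) y H (2 - c) = w * (-1) ^ m * conj (PI (ker Λ m (2 - conj s₀)) y H c) := by
  have key : ∀ v : ℂ, ker Λ m s₀ (2 - conj v) = w * (-1) ^ (m + 1) * conj (ker Λ m (2 - conj s₀) v) := by
    intro v
    unfold ker
    rw [D.fe, D.real, map_div₀, map_pow, map_sub, map_sub, Complex.conj_conj]
    have e : 2 - conj v - s₀ = -(conj v - (conj 2 - s₀)) := by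
      have : conj (2 : ℂ) = 2 := Complex.conj_ofNat 2
      rw [this]; ring
    rw [e, neg_pow, mul_div_assoc]
    have h1 : ((-1 : ℂ)) ^ (m + 1) * ((-1 : ℂ)) ^ (m + 1) = 1 := by
      rw [← pow_add, ← two_mul]; exact (even_two_mul _).neg_one_pow
    have h2 : ((-1 : ℂ)) ^ (m + 1) ≠ 0 := pow_ne_zero _ (by norm_num)
    rcases eq_or_ne ((conj v - (conj 2 - s₀)) ^ (m + 1)) 0 with h0 | h0
    · rw [h0]; simp
    · field_simp
      rw [pow_two]
      rw [h1, mul_one]
  unfold PI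
  have e1 : ∀ t : ℝ, ∫ u in (1:ℝ)..(2 - c), ker Λ m s₀ (u + (t : ℂ) * I)
      = -(w * (-1) ^ (m + 1) * conj (∫ u in (1:ℝ)..c, ker Λ m (2 - conj s₀) (u + (t : ℂ) * I))) := by
    intro t
    have h1 : ∫ u in (1:ℝ)..(2 - c), ker Λ m s₀ (u + (t : ℂ) * I)
        = - ∫ u in (1:ℝ)..c, ker Λ m s₀ (((2 - u : ℝ) : ℂ) + (t : ℂ) * I) := by
      rw [intervalIntegral.integral_comp_sub_left (fun u : ℝ => ker Λ m s₀ ((u : ℂ) + (t : ℂ) * I)) 2,
        intervalIntegral.integral_symm]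
      norm_num
    rw [h1]
    congr 1
    rw [← conj_integral, ← intervalIntegral.integral_const_mul]
    apply intervalIntegral.integral_congr
    intro u _
    simp only
    rw [← key]
    congr 1
    apply Complex.ext <;> simp
  have e2 : ∫ v in (y - H)..(y + H), ker Λ m s₀ (((2 - c : ℝ) : ℂ) + v * I)
      = w * (-1) ^ (m + 1) * conj (∫ v in (y - H)..(y + H), ker Λ m (2 - conj s₀) (c + v * I)) := by
    rw [← conj_integral, ← intervalIntegral.integral_const_mul]
    apply intervalIntegral.integral_congr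
    intro v _
    simp only
    rw [← key]
    congr 1
    apply Complex.ext <;> simp
  rw [e1, e1, e2, map_sub, map_add, map_mul, Complex.conj_I, pow_succ]
  ring

/-- splitting of the derivative at the critical line -/
theorem splitV (D : VData M y θ W0 W1 W2 Λ D1 w)
    (m : ℕ) {s₀ : ℂ} {y H c : ℝ} (h1 : y - H < s₀.im) (h2 : s₀.im < y + H) (hc : s₀.re < c)
    (hc1 : 1 < c) (hc2 : 2 - c < s₀.re) :
    iteratedDeriv m Λ s₀ / m.factorial
      = AA Λ m y H c s₀ + w * (-1) ^ m * conj (AA Λ m y H c (2 - conj s₀)) := by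
  have h := PI_cauchy m D.diff h1 h2 hc hc1 hc2 (by linarith)
  have h' : PI (ker Λ m s₀) y H c - PI (ker Λ m s₀) y H (2 - c)
      = 2 * Real.pi * I * (iteratedDeriv m Λ s₀ / m.factorial) := h
  rw [PI_reflectV D] at h'
  unfold AA
  have hpi : (2 * Real.pi * I : ℂ) ≠ 0 := Complex.two_pi_I_ne_zero
  have e : conj (PI (ker Λ m (2 - conj s₀)) y H c / (2 * Real.pi * I))
      = -(conj (PI (ker Λ m (2 - conj s₀)) y H c) / (2 * Real.pi * I)) := by
    rw [map_div₀, map_mul, map_mul, Complex.conj_I, Complex.conj_ofReal, Complex.conj_ofNat]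
    rw [mul_neg, div_neg]
  rw [e]
  field_simp
  linear_combination -h'

lemma norm_eq_of_zeroV (D : VData M y θ W0 W1 W2 Λ D1 w) (m : ℕ) {x H : ℝ} (hH : 0 < H)
    (hx : |x| ≤ 1 / 2) (h0 : iteratedDeriv m Λ (1 + y * I + x) = 0) :
    AA Λ m y H 4 (1 + y * I + x) = -(w * (-1) ^ m * conj (AA Λ m y H 4 (1 + y * I + (-x : ℝ)))) := by
  have hx' := abs_le.1 hx
  have h := splitV D m (s₀ := 1 + y * I + x) (y := y) (H := H) (c := 4) (by simp; linarith)
    (by simp; linarith) (by simp; linarith) (by norm_num) (by simp; linarith)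
  rw [h0, zero_div] at h
  have e : (2 : ℂ) - conj (1 + y * I + x) = 1 + y * I + (-x : ℝ) := by
    simp only [map_add, map_mul, map_one, Complex.conj_I, Complex.conj_ofReal]
    push_cast; ring
  rw [e] at h
  linear_combination -h

lemma VData.norm_w (D : VData M y θ W0 W1 W2 Λ D1 w) : ‖w‖ = 1 := by
  rcases D.sign with h | h <;> rw [h] <;> simp

/-- bound of the half integral on the other side -/
lemma Pt.other_bound (T : Pt M y θ W0 W1 W2 Λ D1 w m ℓ R0 s₀ l) {x : ℝ}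
    (hx : s₀.re = 1 + x) (hx0 : R0 / 2 ≤ x) :
    ‖AA Λ m y (1.9 * R0) (1 + 0.55 * R0) (s₀ - 2 * x)‖
      ≤ 1600000 * Real.exp (2 * W0) * Real.exp (-(0.88 * m)) *
        (‖Λ (s₀ + m / l)‖ / RR m l ^ (m + 1)) / (2 * Real.pi) := by
  have hR := T.R_pos
  have hM1 := T.D.hM
  have hM : 0 < M := by linarith
  have hθ0 := T.D.hθ0
  have hpi := Real.pi_pos
  have hRn := T.h.R_near T.S
  have hR0 := T.S.R0pos
  have hR01 := T.S.hR1
  have hs₀i := T.P.im
  obtain ⟨r1, r2, r3, r4, r5⟩ := T.regs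
  set R := RR m l with hRdef
  set s := s₀ + m / l with hsdef
  have hre2 := T.P.re2
  set q := 0.55 * R0 with hq
  have hq0 : 0 < q := by positivity
  set δ := s.re - 1 - q with hδ
  have hδ0 : 0.9 * R0 ≤ δ := by rw [hδ, hq]; linarith
  have hδ2 : δ ≤ 2 := by linarith
  have hsy : |s.im - y| ≤ 0.0123 := by linarith
  set s' : ℂ := ((1 + q : ℝ) : ℂ) + s.im * I with hs'
  have hs're : s'.re = 1 + q := by simp [hs']
  have hs'im : s'.im = s.im := by simp [hs']
  set G := ‖gam M s'‖ with hG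
  have hG0 : 0 ≤ G := norm_nonneg _
  set H := 1.9 * R0 with hH
  have hH0 : 0 < H := by positivity
  have hH3 : H ≤ 1.14 := by linarith
  have hHR : R ≤ H := by linarith [hRn.2]
  -- pointwise bound of `Λ`
  have F1 : ∀ u v : ℝ, 1 ≤ u → u ≤ 1 + q → |v - y| ≤ H →
      ‖Λ (u + v * I)‖ ≤ 1320 * Real.exp W0 * G := by
    intro u v h1 h2 hv
    have e1 : ‖Λ (u + v * I)‖ ≤ ‖gam M (u + v * I)‖ * Real.exp W0 := by
      rw [Λ_eq_Lt (Λ := Λ) hM (s := u + v * I) (by simp; linarith), norm_mul]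
      have := T.D.up (u + v * I) (by simpa using h1) (by simpa using hv.trans (by linarith))
      have h4 : (M : ℂ) ^ (u + v * I : ℂ) * Gamma (u + v * I) = gam M (u + v * I) := rfl
      rw [h4]
      gcongr
    have e2 : ‖gam M ((u : ℝ) + v * I)‖ ≤ 22 * ‖gam M (((1 + q : ℝ) : ℂ) + v * I)‖ := by
      have := gam_mono (s := (u : ℝ) + v * I) (M := M) (by linarith) (by simpa using h1)
        (δ := 1 + q - u) (by linarith)
      have e : (u : ℂ) + v * I + ((1 + q - u : ℝ) : ℂ) = ((1 + q : ℝ) : ℂ) + v * I := by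
        push_cast; ring
      rwa [e] at this
    have e3 : ‖gam M (((1 + q : ℝ) : ℂ) + v * I)‖ ≤ G * 60 := by
      have := gam_vert hM (s := s') (by rw [hs're]; linarith) (v - s.im)
      have e : s' + ((v - s.im : ℝ) : ℂ) * I = ((1 + q : ℝ) : ℂ) + v * I := by
        rw [hs']; push_cast; ring
      rw [e] at this
      refine this.trans ?_
      rw [hs're]
      gcongr
      have h0 : |v - s.im| ≤ 1.16 := by
        have e4 : v - s.im = (v - y) - (s.im - y) := by ring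
        rw [e4]
        refine (abs_sub _ _).trans ?_
        linarith
      have h3 : (v - s.im) ^ 2 / (1 + q) ≤ 1.16 ^ 2 := by
        rw [div_le_iff₀ (by linarith)]
        have h4 : (v - s.im) ^ 2 ≤ 1.16 ^ 2 := by
          rw [← sq_abs]; gcongr
        nlinarith
      have h6 : 1.6 * |v - s.im| + (v - s.im) ^ 2 / (1 + q) ≤ 4 := by linarith
      calc Real.exp (1.6 * |v - s.im| + (v - s.im) ^ 2 / (1 + q)) ≤ Real.exp 4 :=
            Real.exp_le_exp.2 h6
        _ = Real.exp 1 ^ 4 := by rw [← Real.exp_nat_mul]; norm_num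
        _ ≤ 2.7182818286 ^ 4 := by
          have := Real.exp_one_lt_d9
          have h0 := Real.exp_pos 1
          gcongr
        _ ≤ 60 := by norm_num
    calc _ ≤ ‖gam M (u + v * I)‖ * Real.exp W0 := e1
      _ ≤ (22 * (G * 60)) * Real.exp W0 := by
          gcongr
          exact e2.trans (by gcongr)
      _ = 1320 * Real.exp W0 * G := by ring
  set B := 1320 * Real.exp W0 * G with hB
  have hB0 : 0 ≤ B := by positivity
  have him' : (s₀ - 2 * x : ℂ).im = y := by simp [hs₀i]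
  have hre' : (s₀ - 2 * x : ℂ).re = 1 - x := by simp [hx]; ring
  -- horizontal sides
  have F2 : ∀ v : ℝ, |v - y| = H →
      ‖∫ u in (1:ℝ)..(1 + q), ker Λ m (s₀ - 2 * x) (u + (v : ℂ) * I)‖ ≤ 0.33 * (B / R ^ (m + 1)) := by
    intro v hv
    have hb : ∀ u ∈ Set.uIoc (1:ℝ) (1 + q), ‖ker Λ m (s₀ - 2 * x) (u + (v : ℂ) * I)‖
        ≤ B / R ^ (m + 1) := by
      intro u hu
      rw [uIoc_of_le (by linarith)] at hu
      have h1 := F1 u v hu.1.le hu.2 hv.le
      unfold ker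
      rw [norm_div, norm_pow]
      have h2 : R ≤ ‖(u + (v : ℂ) * I - (s₀ - 2 * x) : ℂ)‖ := by
        have := Complex.abs_im_le_norm (u + (v : ℂ) * I - (s₀ - 2 * x) : ℂ)
        have e : (u + (v : ℂ) * I - (s₀ - 2 * x) : ℂ).im = v - y := by
          rw [Complex.sub_im, him']; simp
        rw [e, hv] at this
        linarith
      gcongr
    refine (intervalIntegral.norm_integral_le_of_norm_le_const hb).trans ?_
    rw [add_sub_cancel_left, abs_of_pos hq0, mul_comm]
    gcongr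
    linarith
  -- vertical side
  have F3 : ‖∫ v in (y - H)..(y + H), ker Λ m (s₀ - 2 * x) (((1 + q : ℝ) : ℂ) + v * I)‖
      ≤ 2.28 * (B / R ^ (m + 1)) := by
    have hb : ∀ v ∈ Set.uIoc (y - H) (y + H),
        ‖ker Λ m (s₀ - 2 * x) (((1 + q : ℝ) : ℂ) + v * I)‖ ≤ B / R ^ (m + 1) := by
      intro v hv
      rw [uIoc_of_le (by linarith)] at hv
      have hv2 : |v - y| ≤ H := by
        rw [abs_le]
        constructor <;> linarith [hv.1, hv.2]
      have h1 := F1 (1 + q) v (by linarith) le_rfl hv2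
      unfold ker
      rw [norm_div, norm_pow]
      have h2 : R ≤ ‖(((1 + q : ℝ) : ℂ) + v * I - (s₀ - 2 * x) : ℂ)‖ := by
        have := Complex.re_le_norm (((1 + q : ℝ) : ℂ) + v * I - (s₀ - 2 * x) : ℂ)
        have e : (((1 + q : ℝ) : ℂ) + v * I - (s₀ - 2 * x) : ℂ).re = q + x := by
          rw [Complex.sub_re, hre']; simp
          try ring
        rw [e] at this
        linarith [hRn.2]
      gcongr
    refine (intervalIntegral.norm_integral_le_of_norm_le_const hb).trans ?_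
    have e : |y + H - (y - H)| = 2 * H := by
      rw [abs_of_pos (by linarith)]; ring
    rw [e, mul_comm]
    gcongr
    linarith
  have F4 : ‖PI (ker Λ m (s₀ - 2 * x)) y H (1 + q)‖ ≤ 3 * (B / R ^ (m + 1)) := by
    unfold PI
    refine (norm_sub_le _ _).trans ?_
    have h1 := norm_add_le (∫ u in (1:ℝ)..(1 + q), ker Λ m (s₀ - 2 * x)
      (u + ((y - H : ℝ) : ℂ) * I)) (I * (∫ v in (y - H)..(y + H),
        ker Λ m (s₀ - 2 * x) (((1 + q : ℝ) : ℂ) + v * I)))
    rw [norm_mul, Complex.norm_I, one_mul] at h1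
    have h2 := F2 (y - H) (by rw [abs_of_nonpos (by linarith)]; ring)
    have h3 := F2 (y + H) (by rw [abs_of_nonneg (by linarith)]; ring)
    have h5 : 0 ≤ B / R ^ (m + 1) := by positivity
    linarith
  -- the Gamma factor
  have e7 : s' + (δ : ℂ) = s := by
    apply Complex.ext
    · rw [Complex.add_re, hs're, Complex.ofReal_re, hδ]; ring
    · simp [hs']
  have hs'n : 1 ≤ ‖s'‖ := by
    have := Complex.re_le_norm s'
    rw [hs're] at this; linarith
  have hyy := abs_nonneg y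
  have hlogs : 0.98 * ℓ ≤ Real.log (M * ‖s'‖) := by
    have hlow : 2 + |y| ≤ 5 * ‖s'‖ := by
      have e1 := Complex.abs_im_le_norm s'
      rw [hs'im] at e1
      have e2 : |y| ≤ |s.im - y| + |s.im| := by
        have := abs_sub s.im (s.im - y)
        rw [sub_sub_cancel] at this
        linarith
      linarith
    have hlog5 : Real.log 5 ≤ 2 := by
      rw [Real.log_le_iff_le_exp (by norm_num)]
      have e1 := Real.exp_one_gt_d9
      have e2 : Real.exp 2 = Real.exp 1 * Real.exp 1 := by rw [← Real.exp_add]; norm_num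
      rw [e2]; nlinarith
    have hb2 : ℓ ≤ Real.log (M * ‖s'‖) + 2 := by
      rw [T.S.hℓ]
      have : M * (2 + |y|) ≤ 5 * (M * ‖s'‖) := by
        calc M * (2 + |y|) ≤ M * (5 * ‖s'‖) := by gcongr
          _ = _ := by ring
      have h9 : 0 < M * ‖s'‖ := mul_pos hM (by linarith)
      have := Real.log_le_log (by positivity) this
      rw [Real.log_mul (by norm_num) h9.ne'] at this
      linarith
    have := T.S.hℓ0
    linarith
  have F5 : G ≤ 404 * Real.exp (-(0.88 * m)) * (‖Λ s‖ * Real.exp W0) := by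
    have h1 := gam_shift_le hM (s := s') (by rw [hs're]; linarith) (by linarith) hδ2
    rw [e7] at h1
    have h2 : ‖gam M s‖ ≤ ‖Λ s‖ * Real.exp W0 := by
      have h5 := T.D.low s r1 (reg_im T.S r3)
      have h6 : ‖Λ s‖ = ‖gam M s‖ * ‖Lt M Λ s‖ := by
        rw [Λ_eq_Lt (Λ := Λ) hM (s := s) (by linarith), norm_mul]
        rfl
      have h7 : Real.exp (-W0) * Real.exp W0 = 1 := by rw [← Real.exp_add]; simp
      rw [h6]
      calc ‖gam M s‖ = ‖gam M s‖ * (Real.exp (-W0) * Real.exp W0) := by rw [h7, mul_one]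
        _ ≤ ‖gam M s‖ * (‖Lt M Λ s‖ * Real.exp W0) := by gcongr
        _ = _ := by ring
    have h4 : (M * ‖s'‖) ^ (-δ) ≤ Real.exp (-(0.88 * m)) := by
      rw [Real.rpow_def_of_pos (by positivity)]
      apply Real.exp_le_exp.2
      have h5 : 0.88 * (m:ℝ) ≤ Real.log (M * ‖s'‖) * δ := by
        rw [← T.S.hR0]
        have hℓ := T.S.ℓpos
        calc 0.88 * (R0 * ℓ) ≤ (0.98 * ℓ) * (0.9 * R0) := by nlinarith [mul_pos hR0 hℓ]
          _ ≤ _ := by
              apply mul_le_mul hlogs hδ0 (by positivity)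
              linarith
      linarith
    have h6 : Real.exp 6 ≤ 404 := by
      calc Real.exp 6 = Real.exp 1 ^ 6 := by rw [← Real.exp_nat_mul]; norm_num
        _ ≤ 2.7182818286 ^ 6 := by
          have := Real.exp_one_lt_d9
          have h0 := Real.exp_pos 1
          gcongr
        _ ≤ 404 := by norm_num
    calc G ≤ Real.exp 6 * (M * ‖s'‖) ^ (-δ) * ‖gam M s‖ := h1
      _ ≤ _ := by gcongr
  unfold AA
  rw [norm_div, norm_mul, norm_mul, Complex.norm_I, Complex.norm_real, Real.norm_eq_abs,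
    abs_of_pos hpi, mul_one]
  have e2 : ‖(2 : ℂ)‖ = 2 := by simp
  rw [e2]
  gcongr
  refine F4.trans ?_
  have e5 : Real.exp (2 * W0) = Real.exp W0 * Real.exp W0 := by rw [← Real.exp_add]; ring_nf
  have hΛ0 : 0 ≤ ‖Λ s‖ := norm_nonneg _
  calc 3 * (B / R ^ (m + 1))
      ≤ 3 * (1320 * Real.exp W0 * (404 * Real.exp (-(0.88 * m)) * (‖Λ s‖ * Real.exp W0))
        / R ^ (m + 1)) := by rw [hB]; gcongr
    _ = 1599840 * (Real.exp (2 * W0) * Real.exp (-(0.88 * m)) * (‖Λ s‖ / R ^ (m + 1))) := by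
        rw [e5]; ring
    _ ≤ 1600000 * (Real.exp (2 * W0) * Real.exp (-(0.88 * m)) * (‖Λ s‖ / R ^ (m + 1))) := by
        gcongr; norm_num
    _ = _ := by ring

/-- the direct comparison -/
lemma Pt.direct (T : Pt M y θ W0 W1 W2 Λ D1 w m ℓ R0 s₀ l) {x c : ℝ}
    (hx : s₀.re = 1 + x) (hx0 : R0 / 2 ≤ x) (hc : s₀.re < c) :
    ‖AA Λ m y (1.9 * R0) c (s₀ - 2 * x)‖ < ‖AA Λ m y (1.9 * R0) c s₀‖ := by
  have hR := T.R_pos
  have hm := T.mpos
  have hm16 := T.S.hm
  have hR0 := T.S.R0pos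
  have hi := T.P.im
  have h1 := T.other_bound hx hx0
  have h2 := (T.point (c := c) T.H_ok.1 T.H_ok.2 hc).1
  have e1 : AA Λ m y (1.9 * R0) c (s₀ - 2 * x) = AA Λ m y (1.9 * R0) (1 + 0.55 * R0) (s₀ - 2 * x) := by
    have him : (s₀ - 2 * x : ℂ).im = y := by simp [hi]
    have hre : (s₀ - 2 * x : ℂ).re = 1 - x := by simp [hx]; ring
    apply AA_indep T.D.diff m
    · rw [him]; linarith
    · rw [him]; linarith
    · rw [hre]; linarith
    · rw [hre]; linarith
  rw [e1]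
  refine h1.trans_lt (lt_of_lt_of_le ?_ h2)
  rw [norm_KK, add_zero]
  have hpi := Real.pi_pos
  have hΛ : 0 < ‖Λ (s₀ + m / l)‖ := norm_pos_iff.2 (T.D.Λ_ne T.regs.1 T.regy)
  set W := ‖Λ (s₀ + m / l)‖ / RR m l ^ (m + 1) with hW
  have hWp : 0 < W := by positivity
  apply div_lt_div_of_pos_right _ (by positivity)
  have h3 : Real.exp (2 * W0) ≤ Real.exp (0.2 * m) := by
    apply Real.exp_le_exp.2
    have := T.S.hW0
    linarith
  have h4 := T.inv_ℓ_le
  have h5 : (1600000:ℝ) < Real.exp (0.58 * m) := by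
    have h6 := Real.add_one_le_exp (0.58 * (m:ℝ))
    linarith
  have hexp := Real.exp_pos (0.2 * (m:ℝ))
  calc _ ≤ 1600000 * Real.exp (0.2 * m) * Real.exp (-(0.88 * m)) * W := by gcongr
    _ < Real.exp (0.58 * m) * Real.exp (0.2 * m) * Real.exp (-(0.88 * m)) * W := by gcongr
    _ = Real.exp (-(0.1 * m)) * W := by
        rw [← Real.exp_add, ← Real.exp_add]; congr 2; ring
    _ ≤ (0.96 * (2 * Real.exp (-(0.1 * m)))) * W := by
        gcongr
        have := Real.exp_pos (-(0.1 * (m:ℝ)))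
        linarith
    _ ≤ (0.96 * SV m l) * W := by gcongr
    _ = _ := by ring

/-- The main theorem in a window. -/
theorem VData.zeros (D : VData M y θ W0 W1 W2 Λ D1 w) (S : Scale M y θ W0 W1 W2 m ℓ R0) {x : ℝ}
    (hx1 : |x| ≤ 1 / 2) (h0 : iteratedDeriv m Λ (1 + y * I + x) = 0) :
    x = 0 ∧ iteratedDeriv (m + 1) Λ (1 + y * I + x) ≠ 0 := by
  have hR0 := S.R0pos
  have hR1 := S.hR1
  have hx' := abs_le.1 hx1
  have hre : ∀ t : ℝ, (1 + y * I + t : ℂ).re = 1 + t := by intro t; simp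
  have him : ∀ t : ℝ, (1 + y * I + t : ℂ).im = y := by intro t; simp
  have hPt : ∀ t : ℝ, -(R0 / 2) ≤ t → t ≤ 1 / 2 → PtV y R0 (1 + y * I + t) := by
    intro t h1 h2
    exact ⟨him t, by rw [hre]; linarith, by rw [hre]; linarith⟩
  have hsadex : ∀ t : ℝ, ∃ l : ℂ, (-(R0 / 2) ≤ t → t ≤ 1 / 2 → SadV M m ℓ D1 (1 + y * I + t) l) := by
    intro t
    by_cases ht : -(R0 / 2) ≤ t ∧ t ≤ 1 / 2
    · obtain ⟨l, hl⟩ := sad_exists D S (hPt t ht.1 ht.2)
      exact ⟨l, fun _ _ => hl⟩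
    · exact ⟨0, fun h1 h2 => absurd ⟨h1, h2⟩ ht⟩
  choose lf hlf using hsadex
  have hT : ∀ t : ℝ, -(R0 / 2) ≤ t → t ≤ 1 / 2 →
      Pt M y θ W0 W1 W2 Λ D1 w m ℓ R0 (1 + y * I + t) (lf t) :=
    fun t h1 h2 => ⟨D, S, hPt t h1 h2, hlf t h1 h2⟩
  have hH0 : 0 < 1.9 * R0 := by positivity
  -- the reflection
  have hrefl : ‖AA Λ m y (1.9 * R0) 4 (1 + y * I + (|x| : ℝ))‖
      = ‖AA Λ m y (1.9 * R0) 4 (1 + y * I + (-|x| : ℝ))‖ := by
    have h1 := norm_eq_of_zeroV D m (H := 1.9 * R0) hH0 hx1 h0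
    have h2 : ‖AA Λ m y (1.9 * R0) 4 (1 + y * I + x)‖
        = ‖AA Λ m y (1.9 * R0) 4 (1 + y * I + (-x : ℝ))‖ := by
      rw [h1, norm_neg, norm_mul, norm_mul, D.norm_w, norm_pow, norm_neg, norm_one, one_pow,
        RCLike.norm_conj]
      ring
    rcases abs_choice x with h | h
    · rw [h]; exact h2
    · rw [h, neg_neg]; exact h2.symm
  rcases eq_or_ne x 0 with hx0 | hx0
  · refine ⟨hx0, ?_⟩
    subst hx0
    intro h1
    have T := hT 0 (by linarith) (by norm_num)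
    have hp := T.point (c := 4) T.H_ok.1 T.H_ok.2 (by rw [hre]; norm_num)
    obtain ⟨-, h2, h3⟩ := hp
    have e0 := norm_eq_of_zeroV D m (H := 1.9 * R0) hH0 hx1 h0
    have e1 := norm_eq_of_zeroV D (m + 1) (H := 1.9 * R0) hH0 hx1 h1
    rw [neg_zero] at e0 e1
    set A := AA Λ m y (1.9 * R0) 4 (1 + y * I + (0 : ℝ))
    set A' := AA Λ (m + 1) y (1.9 * R0) 4 (1 + y * I + (0 : ℝ))
    have hw : w * (-1) ^ m ≠ 0 := by
      intro h4
      have h5 := congrArg norm h4
      rw [norm_mul, D.norm_w, norm_pow, norm_neg, norm_one, one_pow, norm_zero] at h5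
      norm_num at h5
    have hcA : conj A ≠ 0 := by simpa using h3
    have hw0 : w ≠ 0 := left_ne_zero_of_mul hw
    have e2 : A' / A = -conj (A' / A) := by
      rw [map_div₀]
      have e3 : A' / A = (-(w * (-1) ^ (m + 1) * conj A')) / (-(w * (-1) ^ m * conj A)) := by
        rw [← e0, ← e1]
      rw [e3, pow_succ]
      field_simp
    have e4 := congrArg Complex.re e2
    rw [Complex.neg_re, Complex.conj_re] at e4
    linarith
  · exfalso
    have hxpos : 0 < |x| := abs_pos.2 hx0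
    rcases le_total |x| (R0 / 2) with hc | hc
    · have h1 := monoV D S (X := |x|) (c := 4) hc (by linarith) lf (by
        intro t ht
        exact hlf t (by linarith [ht.1]) (by linarith [ht.2])) (a := -|x|) (b := |x|)
        ⟨le_rfl, by linarith⟩ ⟨by linarith, le_rfl⟩ (by linarith)
      simp only at h1
      rw [hrefl] at h1
      exact lt_irrefl _ h1
    · have T := hT |x| (by linarith) hx1
      have h6 := T.direct (x := |x|) (c := 4) (hre |x|) hc (by rw [hre]; linarith)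
      have e : (1 + y * I + (|x| : ℝ) : ℂ) - 2 * (|x| : ℝ) = 1 + y * I + (-|x| : ℝ) := by
        push_cast; ring
      rw [e, hrefl] at h6
      exact lt_irrefl _ h6

end Pool.Agent.HD64
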