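import Mathlib
import Pool.Agent.ZD.F1
import Pool.Agent.H6.QDens
import Pool.Agent.H5.EdEuler
import Pool.Agent.H5.MainZ
import Pool.Agent.H5.GenStrip
import Pool.Agent.HD64.Win
import Pool.Agent.HD64.BCV
import Pool.Agent.HD64.ZerosV

/-!
# DerivativeFamily (MP_553913_nt): from bounds of `L` to the zeros of the derivatives
-/

set_option autoImplicit false

open Real MeasureTheory Set Filter Topology

namespace Pool.Agent.HD64

open Pool.Agent.H5 (Lser)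
open Pool.Agent.H6
open Pool.Agent.ZD (Lf)

/-- the Euler data of `E_d` -/
def HasEu (d : ℕ) (Λ : ℂ → ℂ) : Prop :=
  ∃ (w : ℝ) (L : ℂ → ℂ), H5.EulerData (H5.cE d) (H5.eE d) (H5.cond d : ℝ) w L Λ

/-- the logarithm of the analytic conductor -/
noncomputable def lq (d : ℕ) (y : ℝ) : ℝ := Real.log (√(H5.Q d) / π * (2 + |y|))

lemma cond_eq (d : ℕ) : ((H5.cond d : ℕ) : ℝ) = 4 * (H5.Q d : ℕ) := by
  unfold H5.cond H5.Q
  split_ifs <;> (push_cast; ring)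

lemma M_le (d : ℕ) : √(H5.Q d) / π ≤ d := by
  have h : H5.Q d ≤ 9 * d ^ 2 := by
    unfold H5.Q
    split_ifs <;> nlinarith [sq_nonneg d]
  have h1 : ((H5.Q d : ℕ) : ℝ) ≤ (3 * d) ^ 2 := by
    have : ((H5.Q d : ℕ) : ℝ) ≤ ((9 * d ^ 2 : ℕ) : ℝ) := by exact_mod_cast h
    push_cast at this
    linarith [mul_pow (3:ℝ) (d:ℝ) 2]
  have h2 : √(H5.Q d) ≤ 3 * d := by
    rw [Real.sqrt_le_left (by positivity)]
    exact h1
  rw [div_le_iff₀ Real.pi_pos]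
  have h3 := Real.pi_gt_three
  have h4 : (0:ℝ) ≤ d := Nat.cast_nonneg d
  nlinarith

lemma log_cond {d : ℕ} (hd : Squarefree d) (y : ℝ) :
    Real.log ((H5.cond d : ℝ) * (2 + |y|) ^ 2) ≤ 2 * lq d y + 4 := by
  have hd0 : 0 < d := Nat.pos_of_ne_zero hd.ne_zero
  have hd0' : (0:ℝ) < d := by exact_mod_cast hd0
  have hM : 0 < √(H5.Q d) / π := lt_of_lt_of_le (by positivity) (M_ge d)
  have hy := abs_nonneg y
  have hQ : (0:ℝ) ≤ (H5.Q d : ℕ) := Nat.cast_nonneg _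
  have e : ((H5.cond d : ℕ) : ℝ) * (2 + |y|) ^ 2 = (2 * π * (√(H5.Q d) / π * (2 + |y|))) ^ 2 := by
    rw [cond_eq]
    have h1 : √((H5.Q d : ℕ) : ℝ) ^ 2 = (H5.Q d : ℕ) := Real.sq_sqrt hQ
    have h2 : 2 * π * (√((H5.Q d : ℕ) : ℝ) / π * (2 + |y|)) = 2 * √((H5.Q d : ℕ) : ℝ) * (2 + |y|) := by
      field_simp
    rw [h2, mul_pow, mul_pow, h1]
    ring
  rw [e, Real.log_pow, Real.log_mul (by positivity) (by positivity)]
  have h3 : Real.log (2 * π) ≤ 2 := by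
    rw [Real.log_le_iff_le_exp (by positivity)]
    have e1 := Real.exp_one_gt_d9
    have e2 : Real.exp 2 = Real.exp 1 * Real.exp 1 := by rw [← Real.exp_add]; norm_num
    have := Real.pi_lt_d2
    rw [e2]; nlinarith
  unfold lq
  push_cast
  linarith

/-- large orders of derivation -/
theorem deriv_big : ∃ ℓ1 : ℝ, 1 ≤ ℓ1 ∧ ∀ (d : ℕ) (Λ : ℂ → ℂ), Squarefree d → HasEu d Λ →
    ∀ (m : ℕ) (s : ℂ), iteratedDeriv m Λ s = 0 →
      (|s.re - 1| ≤ 1 / 2) ∧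
      (2.2 * lq d s.im + ℓ1 ≤ 4 * m → s.re = 1 ∧ iteratedDeriv (m + 1) Λ s ≠ 0) := by
  obtain ⟨K, hK⟩ := H5.EulerData.zeros (ε := 0.1) (by norm_num)
  refine ⟨|K| + 5, by linarith [abs_nonneg K], ?_⟩
  intro d Λ hd hE m s h0
  obtain ⟨w, L, D⟩ := hE
  have h1 := D.deriv_zero_strip m h0
  refine ⟨h1, ?_⟩
  intro hm
  obtain ⟨-, h3⟩ := hK _ _ _ _ _ _ D m s h0 h1
  apply h3
  have h4 := log_cond hd s.im
  have h5 := le_abs_self K
  linarith

/-- the constant -/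
noncomputable def kV : ℝ := 1 / (3 * 10 ^ 12)

/-- bounds of `L` give the zeros of the derivatives -/
theorem deriv_good (d : ℕ) (Λ : ℂ → ℂ) (w : ℂ) (hd : Squarefree d) (hd2 : 2 ≤ d)
    (D : FEData (√(H5.Q d) / π) Λ (Lser d) w) (E : EdData d (√(H5.Q d) / π) Λ)
    (m : ℕ) (s : ℂ) (hℓ0 : 10 ^ 9 ≤ lq d s.im) (hmℓ : (m:ℝ) ≤ 0.6 * lq d s.im)
    (hm : 10 ^ 16 ≤ (m : ℝ)) (hlog : Real.log (lq d s.im) ≤ m / 10)
    (hup : ∀ z : ℂ, 1 ≤ z.re → |z.im - s.im| ≤ 3 → ‖Lf d z‖ ≤ Real.exp (kV * m))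
    (hlow : ∀ z : ℂ, 1 + m / (8 * lq d s.im) ≤ z.re → |z.im - s.im| ≤ 3 →
      Real.exp (-(kV * m)) ≤ ‖Lf d z‖)
    (hsre : |s.re - 1| ≤ 1 / 2) (h0 : iteratedDeriv m Λ s = 0) :
    s.re = 1 ∧ iteratedDeriv (m + 1) Λ s ≠ 0 := by
  set M : ℝ := √(H5.Q d) / π with hMdef
  have hd2' : (2:ℝ) ≤ d := by exact_mod_cast hd2
  have hM1 : 1 ≤ M := by
    have := M_ge d
    linarith
  set ℓ := lq d s.im with hℓ
  have hℓp : 0 < ℓ := by linarith
  have hmp : (0:ℝ) < m := by linarith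
  set R0 : ℝ := m / ℓ with hR0
  have hR0p : 0 < R0 := by positivity
  have hR01 : R0 ≤ 0.6 := by
    rw [hR0, div_le_iff₀ hℓp]; exact hmℓ
  have hkV : kV = 1 / (3 * 10 ^ 12) := rfl
  have hkV0 : 0 < kV := by rw [hkV]; norm_num
  have hm8 : (m:ℝ) / (8 * ℓ) = R0 / 8 := by rw [hR0]; field_simp
  rw [hm8] at hlow
  have V := vdata_of_window (y := s.im) hM1 D.sign D.diff D.fe D.real (a := R0 / 4) (r := R0 / 16)
    (W := kV * m) (by positivity) (by linarith) (by linarith) (by linarith) (by positivity)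
    (by
      intro z hz hzi
      rw [Lt_eq_Lf hd E (by linarith)]
      exact hup z hz hzi)
    (by
      intro z hz hzi
      rw [Lt_eq_Lf hd E (by linarith)]
      exact hlow z (by linarith) hzi)
  have hRℓ : R0 * ℓ = m := by rw [hR0]; field_simp
  have S : Scale M s.im (R0 / 4) (kV * m) (8 * (kV * m) / (R0 / 16))
      (8 * (kV * m) / (R0 / 16) ^ 2) m ℓ R0 := by
    refine ⟨rfl, hRℓ, hR01, le_rfl, hℓ0, ?_, ?_, hm, hlog, ?_⟩
    · have e : 8 * (kV * m) / (R0 / 16) = 128 * kV * ℓ := by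
        rw [← hRℓ]; field_simp; norm_num
      rw [e, hkV]
      rw [le_div_iff₀ (by norm_num)]
      nlinarith
    · have e : 8 * (kV * m) / (R0 / 16) ^ 2 * R0 ^ 2 = 2048 * kV * m := by
        field_simp; norm_num
      rw [e, hkV]
      rw [le_div_iff₀ (by norm_num)]
      nlinarith
    · rw [hkV]
      rw [le_div_iff₀ (by norm_num)]
      nlinarith
  have hs : s = 1 + s.im * Complex.I + ((s.re - 1 : ℝ) : ℂ) := by
    apply Complex.ext <;> simp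
  have hz := V.zeros S (x := s.re - 1) hsre (by rw [← hs]; exact h0)
  rw [← hs] at hz
  exact ⟨by linarith [hz.1], hz.2⟩

end Pool.Agent.HD64
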