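import Mathlib
import Pool.Agent.HD64.Count
import Pool.Agent.HD64.WinV
import Pool.Agent.ZD.Final

/-!
# DerivativeFamily (MP_553913_nt): zeros of the derivatives in the family `E_d`
-/

set_option autoImplicit false

open Real MeasureTheory Set Filter Topology

namespace Pool.Agent.HD64

open Pool.Agent.H5 (Lser)
open Pool.Agent.H6
open Pool.Agent.ZD (Lf)

/-- a zero of a derivative which is not a simple zero on the critical line -/
def ExcD (Λ : ℂ → ℂ) (m : ℕ) (s : ℂ) : Prop :=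
  iteratedDeriv m Λ s = 0 ∧ ¬ (s.re = 1 ∧ iteratedDeriv (m + 1) Λ s ≠ 0)

/-- a family of completed L-functions -/
def IsFamV (Λ : ℕ → ℂ → ℂ) : Prop := ∀ d : ℕ, Squarefree d →
  (∃ w : ℂ, FEData (√(H5.Q d) / π) (Λ d) (Lser d) w ∧ EdData d (√(H5.Q d) / π) (Λ d)) ∧
    HasEu d (Λ d)

/-- the exceptional twists -/
def ExcSetV (Λ : ℕ → ℂ → ℂ) (A : ℝ) (X : ℕ) (b : ℝ) : Set ℕ :=
  {d : ℕ | 1 ≤ d ∧ d ≤ X ∧ Squarefree d ∧ ∃ (m : ℕ) (s : ℂ),
    b + A * Real.log (|s.im| + 2) ≤ m ∧ ExcD (Λ d) m s}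

lemma ExcSetV_finite (Λ : ℕ → ℂ → ℂ) (A : ℝ) (X : ℕ) (b : ℝ) : (ExcSetV Λ A X b).Finite :=
  (Finset.finite_toSet (Finset.Icc 1 X)).subset fun d hd => by
    rw [Finset.mem_coe, Finset.mem_Icc]
    exact ⟨hd.1, hd.2.1⟩

lemma ExcSetV_ncard_le (Λ : ℕ → ℂ → ℂ) (A : ℝ) (X : ℕ) (b : ℝ) :
    ((ExcSetV Λ A X b).ncard : ℝ) ≤ X := by
  have h1 : ExcSetV Λ A X b ⊆ ↑(Finset.Icc 1 X) := fun d hd => by
    rw [Finset.mem_coe, Finset.mem_Icc]
    exact ⟨hd.1, hd.2.1⟩
  have h2 := Set.ncard_le_ncard h1 (Finset.finite_toSet _)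
  rw [Set.ncard_coe_finset, Nat.card_Icc] at h2
  have h3 : (ExcSetV Λ A X b).ncard ≤ X := by omega
  exact_mod_cast h3

lemma lq_le {d X : ℕ} (hd : 1 ≤ d) (hX : d ≤ X) (y : ℝ) :
    lq d y ≤ Real.log X + Real.log (|y| + 2) := by
  have hd0 : (0:ℝ) < d := by exact_mod_cast hd
  have hX0 : (0:ℝ) < X := by
    have : 0 < X := by omega
    exact_mod_cast this
  have hM : 0 < √(H5.Q d) / π := lt_of_lt_of_le (by positivity) (M_ge d)
  have hy := abs_nonneg y
  unfold lq
  rw [← Real.log_mul hX0.ne' (by linarith)]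
  apply Real.log_le_log (by positivity)
  have h1 := M_le d
  have h2 : (d:ℝ) ≤ X := by exact_mod_cast hX
  have h3 : √(H5.Q d) / π ≤ X := by linarith
  calc √(H5.Q d) / π * (2 + |y|) ≤ X * (2 + |y|) := by gcongr
    _ = _ := by ring

lemma lq_ge {d : ℕ} (hd : 1 ≤ d) (y : ℝ) : Real.log d ≤ lq d y := by
  have hd0 : (0:ℝ) < d := by exact_mod_cast hd
  have hy := abs_nonneg y
  unfold lq
  apply Real.log_le_log hd0
  have h1 := M_ge d
  calc (d:ℝ) = d / 2 * 2 := by ring
    _ ≤ √(H5.Q d) / π * (2 + |y|) := by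
        gcongr
        linarith

theorem fam_mainV : ∃ (A : ℕ) (c : ℝ), 0 < c ∧ ∀ (Λ : ℕ → ℂ → ℂ), IsFamV Λ →
    ∀ (X : ℕ) (b : ℝ), 3 ≤ X → 0 ≤ b →
    ((ExcSetV Λ A X b).ncard : ℝ) ≤ A * Real.log X ^ A * Real.exp (-(c * b)) * X := by
  classical
  obtain ⟨A0, hA01, hcard⟩ := BadD_card
  obtain ⟨ℓ1, hℓ1, hbig⟩ := deriv_big
  have hkV : kV = 1 / (3 * 10 ^ 12) := rfl
  have hkV0 : 0 < kV := by rw [hkV]; norm_num
  set L1 : ℝ := 10 ^ 10 + 10 * ℓ1 with hL1def
  set Rr : ℝ := Real.exp L1 + ℓ1 + (1 + 4 * A0 * 8 ^ A0) + 1 / (2 * kV) * (A0 + 1) with hRr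
  set A : ℕ := ⌈Rr⌉₊ + A0 + 10 ^ 4 with hA
  have hARr : Rr ≤ A := by
    have h1 := Nat.le_ceil Rr
    have h2 : ((⌈Rr⌉₊ : ℕ) : ℝ) ≤ A := by
      rw [hA]; push_cast
      have : (0:ℝ) ≤ (A0:ℝ) := Nat.cast_nonneg _
      linarith
    linarith
  have hexp1 := Real.exp_pos L1
  have hp1 : 0 ≤ 1 + 4 * (A0:ℝ) * 8 ^ A0 := by positivity
  have hp2 : 0 ≤ 1 / (2 * kV) * ((A0:ℝ) + 1) := by positivity
  have hAexp : Real.exp L1 ≤ A := by linarith
  have hAℓ : ℓ1 ≤ A := by linarith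
  have hAc : 1 + 4 * (A0:ℝ) * 8 ^ A0 ≤ A := by linarith
  have hAk : (A0:ℝ) + 1 ≤ 2 * kV * A := by
    have h1 : 1 / (2 * kV) * ((A0:ℝ) + 1) ≤ A := by linarith
    calc (A0:ℝ) + 1 = 2 * kV * (1 / (2 * kV) * (A0 + 1)) := by field_simp
      _ ≤ _ := by gcongr
  have hA4 : (10:ℝ) ^ 4 ≤ A := by
    have : 10 ^ 4 ≤ A := by omega
    exact_mod_cast this
  have hAA0 : A0 ≤ A := by omega
  refine ⟨A, kV, hkV0, ?_⟩
  intro Λ hΛ X b hX hb
  have hXr : (3:ℝ) ≤ X := by exact_mod_cast hX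
  have hX0 : (0:ℝ) < X := by linarith
  set L : ℝ := Real.log X with hL
  have hLone : 1 ≤ L := by
    rw [hL, Real.le_log_iff_exp_le hX0]
    have := Real.exp_one_lt_d9
    linarith
  have hL0 : 0 < L := by linarith
  have hexpL : Real.exp L = X := by rw [hL]; exact Real.exp_log hX0
  have hLA : 1 ≤ L ^ A := one_le_pow₀ hLone
  have hlogL : 0 ≤ Real.log L := Real.log_nonneg hLone
  -- trivial cases
  have htriv : 1 ≤ A * L ^ A * Real.exp (-(kV * b)) →
      ((ExcSetV Λ A X b).ncard : ℝ) ≤ A * L ^ A * Real.exp (-(kV * b)) * X := by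
    intro h
    refine (ExcSetV_ncard_le Λ A X b).trans ?_
    exact le_mul_of_one_le_left hX0.le h
  have ht69 : ∀ y : ℝ, 0.69 ≤ Real.log (|y| + 2) := by
    intro y
    have h1 : Real.log 2 ≤ Real.log (|y| + 2) :=
      Real.log_le_log (by norm_num) (by linarith [abs_nonneg y])
    linarith [Real.log_two_gt_d9]
  -- case b ≥ L
  rcases le_or_gt L b with hbL | hbL
  · have hempty : ExcSetV Λ A X b = ∅ := by
      rw [Set.eq_empty_iff_forall_notMem]
      rintro d ⟨hd1, hdX, hsq, m, s, hm, hz, hnot⟩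
      obtain ⟨hstrip, hgood⟩ := hbig d (Λ d) hsq (hΛ d hsq).2 m s hz
      apply hnot
      apply hgood
      have h1 := lq_le hd1 hdX s.im
      rw [← hL] at h1
      have h2 := ht69 s.im
      have h3 : (4 * A - 2.2) * 0.69 ≤ (4 * A - 2.2) * Real.log (|s.im| + 2) := by
        apply mul_le_mul_of_nonneg_left h2
        linarith
      linarith
    rw [hempty, Set.ncard_empty]
    push_cast
    positivity
  rcases lt_or_ge L L1 with hsm | hbg
  · apply htriv
    have h1 : 1 ≤ Real.exp L1 * Real.exp (-(kV * b)) := by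
      rw [← Real.exp_add]
      apply Real.one_le_exp
      have h2 : kV * b ≤ 1 * b := by
        gcongr
        rw [hkV]; norm_num
      linarith
    calc (1:ℝ) = 1 * 1 := by ring
      _ ≤ L ^ A * (Real.exp L1 * Real.exp (-(kV * b))) := by gcongr
      _ ≤ L ^ A * (A * Real.exp (-(kV * b))) := by gcongr
      _ = _ := by ring
  rcases lt_or_ge b (10 ^ 16 * Real.log L) with hEs | hEb
  · apply htriv
    have h1 : kV * b ≤ 4000 * Real.log L := by
      rw [hkV]
      linarith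
    have h2 : 1 ≤ L ^ 4000 * Real.exp (-(kV * b)) := by
      have e1 : Real.exp (4000 * Real.log L) = L ^ 4000 := by
        have e2 : 4000 * Real.log L = Real.log (L ^ 4000) := by rw [Real.log_pow]; norm_num
        rw [e2, Real.exp_log (by positivity)]
      calc (1:ℝ) = Real.exp (4000 * Real.log L) * Real.exp (-(4000 * Real.log L)) := by
            rw [← Real.exp_add]; simp
        _ ≤ L ^ 4000 * Real.exp (-(kV * b)) := by
            rw [e1]
            gcongr
    have h3 : L ^ 4000 ≤ L ^ A := pow_le_pow_right₀ hLone (by omega)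
    calc (1:ℝ) = 1 * 1 := by ring
      _ ≤ A * (L ^ 4000 * Real.exp (-(kV * b))) := by
          gcongr
          linarith
      _ ≤ A * (L ^ A * Real.exp (-(kV * b))) := by gcongr
      _ = _ := by ring
  -- main case
  have hlogL1 : 1 ≤ Real.log L := by
    rw [Real.le_log_iff_exp_le hL0]
    have := Real.exp_one_lt_d9
    linarith
  have hb16 : 10 ^ 16 ≤ b := by linarith
  set μ : ℕ → ℝ := fun k => b + A * (k * Real.log 2) with hμ
  have hlog2 : 0 < Real.log 2 := Real.log_pos (by norm_num)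
  have hμge : ∀ k, b ≤ μ k := by
    intro k
    simp only [hμ]
    have : 0 ≤ A * (k * Real.log 2) := by positivity
    linarith
  set W : ℕ → ℝ := fun k => kV * μ k with hW
  set δ : ℕ → ℝ := fun k => μ k / (16 * L) with hδ
  set N : ℕ := ⌊L⌋₊ + 1 with hN
  have hsub : ExcSetV Λ A X b ⊆ ↑(Finset.Icc 1 (Nat.sqrt X) ∪
      (Finset.range N).biUnion (fun k => BadD X (2 ^ (k + 2)) (W k) (δ k))) := by
    intro d hd
    obtain ⟨hd1, hdX, hsq, m, s, hms, hzero, hnot⟩ := hd
    rw [Finset.mem_coe, Finset.mem_union]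
    by_cases hdsm : d ≤ Nat.sqrt X
    · left
      rw [Finset.mem_Icc]; exact ⟨hd1, hdsm⟩
    right
    have hd2 : X < d ^ 2 := by
      rw [sq]
      exact Nat.sqrt_lt.mp (not_le.mp hdsm)
    have hℓd : L / 2 ≤ Real.log d := by
      have h1 : (X:ℝ) ≤ (d:ℝ) ^ 2 := by exact_mod_cast hd2.le
      have h2 := Real.log_le_log hX0 h1
      rw [Real.log_pow] at h2
      push_cast at h2
      rw [hL]
      linarith
    have hdtwo : 2 ≤ d := by
      by_contra hcon
      have h1 : d ≤ 1 := by omega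
      have h2 : d ^ 2 ≤ 1 ^ 2 := Nat.pow_le_pow_left h1 2
      rw [one_pow] at h2
      have h3 : X < 1 := lt_of_lt_of_le hd2 h2
      exact absurd (lt_of_lt_of_le h3 (le_trans (by norm_num) hX)) (lt_irrefl _)
    obtain ⟨⟨w, D, E⟩, hEu⟩ := hΛ d hsq
    obtain ⟨hstrip, hgoodbig⟩ := hbig d (Λ d) hsq hEu m s hzero
    have hq1 := lq_le hd1 hdX s.im
    rw [← hL] at hq1
    have hq2 := lq_ge hd1 s.im
    have hmlt : (m:ℝ) ≤ 0.6 * lq d s.im := by
      by_contra hcon
      apply hnot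
      apply hgoodbig
      have h1 := not_le.mp hcon
      linarith
    -- the dyadic height
    set y : ℝ := |s.im| + 2 with hy
    have hy0 : 0 ≤ |s.im| := abs_nonneg _
    have hy2 : 2 ≤ y := by linarith
    set k : ℕ := Nat.log 2 ⌊y⌋₊ with hk
    have hfl : 2 ≤ ⌊y⌋₊ := Nat.le_floor (by simpa using hy2)
    have hk1 : ((2:ℝ) ^ k) ≤ y := by
      have h1 : 2 ^ k ≤ ⌊y⌋₊ := Nat.pow_log_le_self 2 (by omega)
      have h2 : ((2 ^ k : ℕ) : ℝ) ≤ ⌊y⌋₊ := by exact_mod_cast h1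
      have h3 : ((⌊y⌋₊ : ℕ) : ℝ) ≤ y := Nat.floor_le (by linarith)
      push_cast at h2
      linarith
    have hk2 : y ≤ 2 ^ (k + 1) := by
      have h1 : ⌊y⌋₊ < 2 ^ (k + 1) := Nat.lt_pow_succ_log_self (by norm_num) _
      have h2 : ⌊y⌋₊ + 1 ≤ 2 ^ (k + 1) := h1
      have h3 : ((⌊y⌋₊ + 1 : ℕ) : ℝ) ≤ ((2 ^ (k + 1) : ℕ) : ℝ) := by exact_mod_cast h2
      have h4 := Nat.lt_floor_add_one y
      push_cast at h3
      linarith
    have hklog : k * Real.log 2 ≤ Real.log y := by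
      have h1 := Real.log_le_log (by positivity) hk1
      rwa [Real.log_pow] at h1
    have hμm : μ k ≤ m := by
      refine le_trans ?_ hms
      simp only [hμ]
      gcongr
    have hlogy : Real.log y ≤ 0.1 * L := by
      have h1 : (10:ℝ) * Real.log y ≤ A * Real.log y := by
        have : 0 ≤ Real.log y := Real.log_nonneg (by linarith)
        gcongr
        linarith
      linarith
    have hkN : k ∈ Finset.range N := by
      rw [Finset.mem_range, hN]
      apply Nat.lt_succ_of_le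
      apply Nat.le_floor
      have h4 : (0.69:ℝ) ≤ Real.log 2 := by linarith [Real.log_two_gt_d9]
      have h5 : (k:ℝ) * 0.69 ≤ k * Real.log 2 := by gcongr
      have h6 : (0:ℝ) ≤ k := Nat.cast_nonneg k
      linarith
    rw [Finset.mem_biUnion]
    refine ⟨k, hkN, ?_⟩
    by_contra hnb
    apply hnot
    have hpow : (2:ℝ) ^ (k + 2) = 2 * 2 ^ (k + 1) := by ring
    have hheight : ∀ z : ℂ, |z.im - s.im| ≤ 3 → |z.im| ≤ 2 ^ (k + 2) := by
      intro z hz
      have h1 : |z.im| ≤ |z.im - s.im| + |s.im| := by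
        have := abs_add_le (z.im - s.im) s.im
        rwa [sub_add_cancel] at this
      have h2 : |s.im| = y - 2 := by rw [hy]; ring
      rw [hpow]
      linarith
    have hqpos : 0 < lq d s.im := by linarith
    have hWm : W k ≤ kV * m := by
      simp only [hW]
      gcongr
    have hmb : b ≤ m := (hμge k).trans hμm
    refine deriv_good d (Λ d) w hsq hdtwo D E m s (by linarith) hmlt (by linarith) ?_ ?_ ?_
      hstrip hzero
    · have h1 : lq d s.im ≤ 2 * L := by linarith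
      have h2 := Real.log_le_log hqpos h1
      rw [Real.log_mul (by norm_num) hL0.ne'] at h2
      have h3 := Real.log_two_lt_d9
      linarith
    · intro z hz hzi
      by_contra hcon
      apply hnb
      unfold BadD
      rw [Finset.mem_filter, Finset.mem_Icc]
      refine ⟨⟨hd1, hdX⟩, hsq, Or.inl ⟨z, hz, hheight z hzi, ?_⟩⟩
      exact lt_of_le_of_lt (Real.exp_le_exp.mpr hWm) (not_le.mp hcon)
    · intro z hz hzi
      by_contra hcon
      apply hnb
      unfold BadD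
      rw [Finset.mem_filter, Finset.mem_Icc]
      refine ⟨⟨hd1, hdX⟩, hsq, Or.inr ⟨z, le_trans ?_ hz, hheight z hzi, ?_⟩⟩
      · have h1 : δ k ≤ m / (8 * lq d s.im) := by
          simp only [hδ]
          have h2 : 8 * lq d s.im ≤ 16 * L := by linarith
          have hmp : (0:ℝ) ≤ m := Nat.cast_nonneg m
          calc μ k / (16 * L) ≤ m / (16 * L) := by gcongr
            _ ≤ m / (8 * lq d s.im) := by gcongr
        linarith
      · refine lt_of_lt_of_le (not_le.mp hcon) (Real.exp_le_exp.mpr ?_)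
        linarith
  -- counting
  have hterm : ∀ k ∈ Finset.range N, ((BadD X (2 ^ (k + 2)) (W k) (δ k)).card : ℝ) ≤
      (2 * A0 * 8 ^ A0 * L ^ A0 * Real.exp (-(2 * kV * b)) * X) * (1 / 2) ^ k := by
    intro k _
    have hμb := hμge k
    have hμ0 : 0 < μ k := by linarith
    have hWk : 3 ≤ W k := by
      simp only [hW]
      calc (3:ℝ) ≤ kV * 10 ^ 16 := by rw [hkV]; norm_num
        _ ≤ kV * μ k := by gcongr; linarith
    have hδk : 1 / Real.log X ≤ δ k := by
      rw [← hL]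
      simp only [hδ]
      have h16 : (16:ℝ) ≤ μ k := by linarith
      rw [div_le_div_iff₀ hL0 (by positivity)]
      calc 1 * (16 * L) = 16 * L := by ring
        _ ≤ μ k * L := by gcongr
    have h2k : (1:ℝ) ≤ 2 ^ (k + 2) := one_le_pow₀ (by norm_num)
    have h := hcard X (2 ^ (k + 2)) (W k) (δ k) hX h2k hWk hδk
    refine h.trans ?_
    have hE1 : Real.exp (-2 * W k) = Real.exp (-(2 * kV * μ k)) := by
      congr 1
      simp only [hW]
      ring
    have hE2 : (X:ℝ) ^ (-(δ k / 8)) ≤ Real.exp (-(2 * kV * μ k)) := by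
      rw [Real.rpow_def_of_pos hX0, ← hL]
      apply Real.exp_le_exp.mpr
      have h3 : L * -(δ k / 8) = -(μ k / 128) := by
        simp only [hδ]
        field_simp
        norm_num
      rw [h3, hkV]
      linarith
    have hE3 : Real.exp (-(2 * kV * μ k)) ≤
        Real.exp (-(2 * kV * b)) * ((1 / 2) ^ k * (1 / 2 ^ A0) ^ k) := by
      have h4 : (1 / 2 : ℝ) ^ k * (1 / 2 ^ A0) ^ k = Real.exp (-((A0 + 1) * (k * Real.log 2))) := by
        rw [← mul_pow, one_div_mul_one_div, ← pow_succ', one_div, inv_pow, ← pow_mul,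
          Real.exp_neg]
        congr 1
        have h5 : ((A0:ℝ) + 1) * (k * Real.log 2) = Real.log (2 ^ ((A0 + 1) * k)) := by
          rw [Real.log_pow]; push_cast; ring
        rw [h5, Real.exp_log (by positivity)]
      rw [h4, ← Real.exp_add]
      apply Real.exp_le_exp.mpr
      simp only [hμ]
      have h5 : ((A0:ℝ) + 1) * (k * Real.log 2) ≤ 2 * kV * A * (k * Real.log 2) := by gcongr
      linarith
    have hpw : ((2:ℝ) ^ (k + 2) * L) ^ A0 ≤ 8 ^ A0 * L ^ A0 * (2 ^ A0) ^ k := by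
      have h5 : ((2:ℝ) ^ (k + 2) * L) ^ A0 = 4 ^ A0 * L ^ A0 * (2 ^ A0) ^ k := by
        rw [mul_pow, pow_add, mul_pow, ← pow_mul 2 k A0, mul_comm k A0, pow_mul]
        norm_num
        ring
      rw [h5]
      gcongr
      norm_num
    have h2A : ((2:ℝ) ^ A0) ^ k * (1 / 2 ^ A0) ^ k = 1 := by
      rw [← mul_pow, mul_one_div_cancel (by positivity), one_pow]
    calc (A0:ℝ) * (2 ^ (k + 2) * L) ^ A0 * (Real.exp (-2 * W k) + (X:ℝ) ^ (-(δ k / 8))) * X
        ≤ A0 * (8 ^ A0 * L ^ A0 * (2 ^ A0) ^ k) *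
          (2 * (Real.exp (-(2 * kV * b)) * ((1 / 2) ^ k * (1 / 2 ^ A0) ^ k))) * X := by
          gcongr
          rw [hE1]
          linarith
      _ = (2 * A0 * 8 ^ A0 * L ^ A0 * Real.exp (-(2 * kV * b)) * X) * (1 / 2) ^ k *
            ((2 ^ A0) ^ k * (1 / 2 ^ A0) ^ k) := by ring
      _ = _ := by rw [h2A, mul_one]
  have hgeo : ∑ k ∈ Finset.range N, (1 / 2 : ℝ) ^ k ≤ 2 := by
    have h1 := (summable_geometric_two).sum_le_tsum (Finset.range N) (fun k _ => by positivity)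
    rwa [tsum_geometric_two] at h1
  have hc1 := Set.ncard_le_ncard hsub (Finset.finite_toSet _)
  rw [Set.ncard_coe_finset] at hc1
  have hc2 := Finset.card_union_le (Finset.Icc 1 (Nat.sqrt X))
    ((Finset.range N).biUnion (fun k => BadD X (2 ^ (k + 2)) (W k) (δ k)))
  rw [Nat.card_Icc] at hc2
  have hc3 : (((Finset.range N).biUnion (fun k => BadD X (2 ^ (k + 2)) (W k) (δ k))).card : ℝ) ≤
      2 * (2 * A0 * 8 ^ A0 * L ^ A0 * Real.exp (-(2 * kV * b)) * X) := by
    have h1 : (((Finset.range N).biUnion (fun k => BadD X (2 ^ (k + 2)) (W k) (δ k))).card : ℝ) ≤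
        ∑ k ∈ Finset.range N, ((BadD X (2 ^ (k + 2)) (W k) (δ k)).card : ℝ) := by
      exact_mod_cast Finset.card_biUnion_le
    refine h1.trans ((Finset.sum_le_sum hterm).trans ?_)
    rw [← Finset.mul_sum, mul_comm]
    gcongr
  have hc4 : ((ExcSetV Λ A X b).ncard : ℝ) ≤ Nat.sqrt X +
      2 * (2 * A0 * 8 ^ A0 * L ^ A0 * Real.exp (-(2 * kV * b)) * X) := by
    have h1 : ((ExcSetV Λ A X b).ncard : ℝ) ≤ Nat.sqrt X +
        ((Finset.range N).biUnion (fun k => BadD X (2 ^ (k + 2)) (W k) (δ k))).card := by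
      have h2 := hc1.trans hc2
      have h3 : Nat.sqrt X + 1 - 1 = Nat.sqrt X := by omega
      rw [h3] at h2
      exact_mod_cast h2
    linarith
  refine hc4.trans ?_
  set Ex : ℝ := Real.exp (-(kV * b)) with hEx
  have hEx1 : Real.exp (-(2 * kV * b)) ≤ Ex := by
    rw [hEx]
    apply Real.exp_le_exp.mpr
    have : 0 ≤ kV * b := by positivity
    linarith
  have hsq : ((Nat.sqrt X : ℕ) : ℝ) ≤ Ex * X := by
    have h1 : ((Nat.sqrt X : ℕ) : ℝ) ≤ √(X:ℝ) := Real.nat_sqrt_le_real_sqrt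
    have h2 : √(X:ℝ) = Real.exp (L / 2) := by
      rw [Real.exp_half, hexpL]
    have h3 : Ex * X = Real.exp (-(kV * b) + L) := by
      rw [Real.exp_add, hexpL]
    rw [h3]
    refine (h1.trans (le_of_eq h2)).trans ?_
    apply Real.exp_le_exp.mpr
    rw [hkV]
    linarith
  have hEx0 : 0 < Ex := Real.exp_pos _
  have hLA0 : L ^ A0 ≤ L ^ A := pow_le_pow_right₀ hLone hAA0
  calc ((Nat.sqrt X : ℕ) : ℝ) + 2 * (2 * A0 * 8 ^ A0 * L ^ A0 * Real.exp (-(2 * kV * b)) * X)
      ≤ 1 * L ^ A * (Ex * X) + 2 * (2 * A0 * 8 ^ A0 * L ^ A * Ex * X) := by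
        have h1 : ((Nat.sqrt X : ℕ) : ℝ) ≤ 1 * L ^ A * (Ex * X) := by
          refine hsq.trans ?_
          rw [one_mul]
          exact le_mul_of_one_le_left (by positivity) hLA
        gcongr
    _ = (1 + 4 * A0 * 8 ^ A0) * L ^ A * Ex * X := by ring
    _ ≤ A * L ^ A * Ex * X := by gcongr

/-- the exceptional twists, second form -/
def ExcSetV2 (Λ : ℕ → ℂ → ℂ) (C : ℝ) (X : ℕ) : Set ℕ :=
  {d : ℕ | 1 ≤ d ∧ d ≤ X ∧ Squarefree d ∧ ∃ (m : ℕ) (s : ℂ),
    C * Real.log ((|s.im| + 2) * Real.log d) ≤ m ∧ ExcD (Λ d) m s}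

theorem fam_corV (B : ℕ) : ∃ C : ℝ, 0 < C ∧ ∀ (Λ : ℕ → ℂ → ℂ), IsFamV Λ → ∀ X : ℕ, 3 ≤ X →
    ((ExcSetV2 Λ C X).ncard : ℝ) ≤ C * (X / Real.log X ^ B) := by
  classical
  obtain ⟨A, c, hc, hA⟩ := fam_mainV
  obtain ⟨C0, hC00, hC0⟩ := ZD.sqrt_le_div_log B
  set C1 : ℝ := (A + B) / c with hC1
  have hA0 : (0:ℝ) ≤ A := Nat.cast_nonneg A
  have hB0 : (0:ℝ) ≤ B := Nat.cast_nonneg B
  have hC10 : 0 ≤ C1 := by positivity
  set C : ℝ := A + 2 * C1 + C0 + 4 ^ B + 1 with hC
  have h4B : (0:ℝ) ≤ 4 ^ B := by positivity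
  have hC0' : 0 < C := by positivity
  refine ⟨C, hC0', ?_⟩
  intro Λ hΛ X hX
  have hXr : (3:ℝ) ≤ X := by exact_mod_cast hX
  have hX0 : (0:ℝ) < X := by linarith
  set L : ℝ := Real.log X with hL
  have hL1 : 1 ≤ L := by
    rw [hL, Real.le_log_iff_exp_le hX0]
    have := Real.exp_one_lt_d9
    linarith
  have hL0 : 0 < L := by linarith
  have hLB : 0 < L ^ B := by positivity
  have hfin : (ExcSetV2 Λ C X).ncard ≤ X := by
    have h1 : ExcSetV2 Λ C X ⊆ ↑(Finset.Icc 1 X) := fun d hd => by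
      rw [Finset.mem_coe, Finset.mem_Icc]
      exact ⟨hd.1, hd.2.1⟩
    have h2 := Set.ncard_le_ncard h1 (Finset.finite_toSet _)
    rw [Set.ncard_coe_finset, Nat.card_Icc] at h2
    omega
  rcases lt_or_ge L 4 with hsm | hL4
  · have h1 : ((ExcSetV2 Λ C X).ncard : ℝ) ≤ X := by exact_mod_cast hfin
    refine h1.trans ?_
    have h2 : L ^ B ≤ C := by
      have : L ^ B ≤ 4 ^ B := by gcongr
      have h3 : 0 ≤ A + 2 * C1 + C0 := by positivity
      linarith
    rw [← mul_div_assoc, le_div_iff₀ hLB, mul_comm C]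
    gcongr
  · have hlogL : 0 ≤ Real.log L := Real.log_nonneg hL1
    set b : ℝ := C1 * Real.log L with hb
    have hb0 : 0 ≤ b := by positivity
    have hmain := hA Λ hΛ X b hX hb0
    have hex : (A:ℝ) * L ^ A * Real.exp (-(c * b)) * X = A * (X / L ^ B) := by
      have h1 : c * b = (A + B) * Real.log L := by
        rw [hb, hC1]; field_simp
      have h2 : Real.exp (-((A + B) * Real.log L)) = (L ^ (A + B))⁻¹ := by
        have h3 : ((A:ℝ) + B) * Real.log L = Real.log (L ^ (A + B)) := by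
          rw [Real.log_pow]; push_cast; ring
        rw [h3, Real.exp_neg, Real.exp_log (by positivity)]
      rw [h1, h2, pow_add]
      field_simp
    rw [← hL, hex] at hmain
    have hsub : ExcSetV2 Λ C X ⊆ ↑(Finset.Icc 1 (Nat.sqrt X)) ∪ ExcSetV Λ A X b := by
      intro d hd
      obtain ⟨hd1, hdX, hsq, m, s, hms, hexc⟩ := hd
      by_cases hdsm : d ≤ Nat.sqrt X
      · left
        rw [Finset.mem_coe, Finset.mem_Icc]; exact ⟨hd1, hdsm⟩
      right
      refine ⟨hd1, hdX, hsq, m, s, le_trans ?_ hms, hexc⟩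
      have hd0 : (0:ℝ) < d := by exact_mod_cast hd1
      have hd2 : X < d ^ 2 := by
        rw [sq]
        exact Nat.sqrt_lt.mp (not_le.mp hdsm)
      have hℓd : L / 2 ≤ Real.log d := by
        have h1 : (X:ℝ) ≤ (d:ℝ) ^ 2 := by exact_mod_cast hd2.le
        have h2 := Real.log_le_log hX0 h1
        rw [Real.log_pow] at h2
        push_cast at h2
        rw [hL]
        linarith
      have hld0 : 0 < Real.log d := by linarith
      have hy0 : 0 ≤ |s.im| := abs_nonneg _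
      have hy : 0 ≤ Real.log (|s.im| + 2) := Real.log_nonneg (by linarith)
      have hll : Real.log L / 2 ≤ Real.log (Real.log d) := by
        have h1 : Real.log (√L) ≤ Real.log (Real.log d) := by
          apply Real.log_le_log (Real.sqrt_pos.mpr hL0)
          refine le_trans ?_ hℓd
          have h2 : (2:ℝ) ≤ √L := by
            apply Real.le_sqrt_of_sq_le
            linarith
          have h3 : √L * √L = L := Real.mul_self_sqrt hL0.le
          nlinarith
        rwa [Real.log_sqrt hL0.le] at h1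
      rw [Real.log_mul (by linarith) hld0.ne']
      have h1 : (A:ℝ) * Real.log (|s.im| + 2) ≤ C * Real.log (|s.im| + 2) := by
        apply mul_le_mul_of_nonneg_right _ hy
        linarith
      have h2 : C1 * Real.log L ≤ C * Real.log (Real.log d) := by
        calc C1 * Real.log L = (2 * C1) * (Real.log L / 2) := by ring
          _ ≤ C * Real.log (Real.log d) := by
              apply mul_le_mul _ hll (by positivity) hC0'.le
              linarith
      linarith
    have hc1 := Set.ncard_le_ncard hsub ((Finset.finite_toSet _).union (ExcSetV_finite Λ A X b))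
    have hc2 := Set.ncard_union_le (↑(Finset.Icc 1 (Nat.sqrt X)) : Set ℕ) (ExcSetV Λ A X b)
    rw [Set.ncard_coe_finset, Nat.card_Icc] at hc2
    have hc3 : ((ExcSetV2 Λ C X).ncard : ℝ) ≤ Nat.sqrt X + (ExcSetV Λ A X b).ncard := by
      have h2 := hc1.trans hc2
      have h3 : Nat.sqrt X + 1 - 1 = Nat.sqrt X := by omega
      rw [h3] at h2
      exact_mod_cast h2
    have h1 : ((Nat.sqrt X : ℕ) : ℝ) ≤ C0 * (X / L ^ B) :=
      Real.nat_sqrt_le_real_sqrt.trans (hC0 X hXr)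
    have h2 : 0 ≤ (X:ℝ) / L ^ B := by positivity
    calc ((ExcSetV2 Λ C X).ncard : ℝ) ≤ C0 * (X / L ^ B) + A * (X / L ^ B) := by linarith
      _ = (C0 + A) * (X / L ^ B) := by ring
      _ ≤ C * (X / L ^ B) := by
          gcongr
          linarith

end Pool.Agent.HD64
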